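import Mathlib
import Pool.Agent.Lib.P0c8ca5V.TDefs
import Pool.Agent.Lib.P0c8ca5Bx.Defs

/-!
# Tuples of group elements

* `gT t`: the group generated by the tuple `t`; `cjt g t`: conjugation; `CT f`: `f` is invariant.
* `nT H f`: the sum of `f` over the tuples in `H`; `eT p f`: the alternating sum over the chains of
  p-subgroups; `bT p U f`: the tuples in `U` generating a group that contains `O^p(U)`.
* `shf t`: the shift of a tuple indexed by `κ × ZMod p`.
* `cvl`: convolution; `cvP f n`: convolution powers; `om p`: indicator of the `x` with `x ^ p = 1`.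
* `W3`, `W2`: the weights of the tuples for `p = 3`, `p = 2`; `S3`, `S2`: the same, nonzero only if
  one of the last components is nontrivial.
* `sX p N g`: tuples `x : Fin N → A` with `x i ^ p = 1`, last one nontrivial; `tX p N g`: all
  nontrivial; weight `g (x 0 ... x (N-1))`.
-/

namespace Pool.Agent.Lib.P0c8ca5.Gs

open MonoidAlgebra Bx

section tuples
variable {ι : Type*} {A : Type*} [Group A]

/-- the group generated by a tuple -/
def gT (t : ι → A) : Subgroup A := Subgroup.closure (Set.range t)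

/-- conjugation of tuples -/
def cjt (g : A) (t : ι → A) : ι → A := fun i => g * t i * g⁻¹

/-- invariant functions of tuples -/
def CT (f : (ι → A) → ℤ) : Prop := ∀ (g : A) (t : ι → A), f (cjt g t) = f t

open Classical in
/-- the sum over the tuples in `H` -/
noncomputable def nT (H : Subgroup A) (f : (ι → A) → ℤ) : ℤ :=
  ∑ᶠ t : ι → A, if gT t ≤ H then f t else 0

/-- alternating sum over the chains of p-subgroups -/
noncomputable def eT (p : ℕ) (f : (ι → A) → ℤ) : ℤ := chS p (fun U => nT U f)

open Classical in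
/-- the tuples in `U` generating a group that contains `O^p(U)` -/
noncomputable def bT (p : ℕ) (U : Subgroup A) (f : (ι → A) → ℤ) : ℤ :=
  ∑ᶠ t : ι → A, if gT t ≤ U ∧ Opr p U ≤ gT t then f t else 0

/-- restriction of a function of tuples to a subgroup -/
def rsT (U : Subgroup A) (f : (ι → A) → ℤ) : (ι → ↥U) → ℤ := fun t => f (fun i => (t i : A))

end tuples

section shift
variable {κ : Type*} {A : Type*} [Group A] {p : ℕ}

/-- the shift -/
def shf (t : κ × ZMod p → A) : κ × ZMod p → A := fun i => t (i.1, i.2 + 1)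

/-- the tuple with the components `y ^ j s i y ^ (-j)` -/
def tsy (s : κ → A) (y : A) : κ × ZMod p → A := fun i => y ^ i.2.val * s i.1 * (y ^ i.2.val)⁻¹

end shift

section weights
variable {A : Type*} [Group A]

/-- convolution -/
noncomputable def cvl (f g : A → ℤ) : A → ℤ := fun x => ∑ᶠ y : A, f y * g (y⁻¹ * x)

open Classical in
/-- the unit for the convolution -/
noncomputable def dl : A → ℤ := fun x => if x = 1 then 1 else 0

/-- convolution powers -/
noncomputable def cvP (f : A → ℤ) : ℕ → A → ℤ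
  | 0 => dl
  | n + 1 => cvl f (cvP f n)

open Classical in
/-- the indicator of `x ^ p = 1` -/
noncomputable def om (p : ℕ) : A → ℤ := fun x => if x ^ p = 1 then 1 else 0

open Classical in
/-- the weight of the tuples for `p = 3` -/
noncomputable def W3 (w m : A → ℤ) (t : Fin 3 × ZMod 3 → A) : ℤ :=
  if t (0, 0) * t (0, 1) * t (0, 2) = 1 ∧ t (1, 0) * t (1, 1) * t (1, 2) = 1
  then ∏ j : ZMod 3, (w (t (2, j)) * m (t (0, j + 1) * t (1, j + 2) * t (2, j))⁻¹) else 0

open Classical in
/-- the weight of the tuples for `p = 2` -/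
noncomputable def W2 (w m : A → ℤ) (t : Fin 4 × ZMod 2 → A) : ℤ :=
  if t (0, 0) * t (0, 1) = 1 ∧ t (1, 0) * t (1, 1) = 1 ∧ t (2, 0) * t (2, 1) = 1
  then ∏ j : ZMod 2, (w (t (3, j)) * m (t (0, j + 1) * t (1, j) * t (2, j + 1) * t (3, j))⁻¹)
  else 0

/-- `W3` for the `x` with `x ^ 3 = 1`, without the tuples with trivial last components -/
noncomputable def S3 (m : A → ℤ) (t : Fin 3 × ZMod 3 → A) : ℤ := W3 (om 3) m t - W3 dl m t

/-- `W2` for the `x` with `x ^ 2 = 1`, without the tuples with trivial last components -/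
noncomputable def S2 (m : A → ℤ) (t : Fin 4 × ZMod 2 → A) : ℤ := W2 (om 2) m t - W2 dl m t

open Classical in
/-- `x i ^ p = 1`, the last one nontrivial -/
noncomputable def sX (p N : ℕ) (g : A → ℤ) : ℤ :=
  ∑ᶠ x : Fin (N + 1) → A, if (∀ i, x i ^ p = 1) ∧ x (Fin.last N) ≠ 1 ∧
    Opr p (⊤ : Subgroup A) ≤ gT x then g (List.ofFn x).prod else 0

open Classical in
/-- `x i ^ p = 1`, all nontrivial -/
noncomputable def tX (p N : ℕ) (g : A → ℤ) : ℤ :=
  ∑ᶠ x : Fin N → A, if (∀ i, x i ^ p = 1 ∧ x i ≠ 1) ∧ Opr p (⊤ : Subgroup A) ≤ gT x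
    then g (List.ofFn x).prod else 0

end weights

end Pool.Agent.Lib.P0c8ca5.Gs
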