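import Mathlib
import Pool.Agent.Lib.P0c8ca5V.DA
import Pool.Agent.Lib.P0c8ca5V.DB
import Pool.Agent.Lib.P0c8ca5Gs.Defs

/-!
# TA: the sum over the tuples generating a group `K` with `O^p(K) = H`

PROOF. Copy of P0c8ca5Bx.PA (complete; pairs `t : A × A` there) with tuples `t : ι → A`, `ι` finite, in place of the pairs, `gT t` in place of `gn t`, the weight `f t` in place of
`f (cmt t.1 t.2)⁻¹` (`f_cj2 hf g t` becomes `hf g t`), `bT p U f` in place of `bQ p U f`, `cjt g t` in place of `cj2 g t`. `gT_le`: `Subgroup.closure_le`, `Set.range_subset_iff`.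
All the lemmas on chains of P0c8ca5V.DA, DB (`cgF`, `exact_zero`, `nP`, `upS`, `orb_dvd_p`, ...) are used unchanged. Please keep the four statements below exactly.
-/

namespace Pool.Agent.Lib.P0c8ca5.Gs

variable {p : ℕ} {A : Type*} [Group A] {ι : Type*}

theorem gT_le {t : ι → A} {U : Subgroup A} : gT t ≤ U ↔ ∀ i, t i ∈ U := by
  unfold gT
  rw [Subgroup.closure_le, Set.range_subset_iff]
  rfl

namespace TAAux

open DAAux

/-- conjugation of tuples as an equivalence -/
def cE (g : A) : (ι → A) ≃ (ι → A) where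
  toFun t := cjt g t
  invFun t := cjt g⁻¹ t
  left_inv t := by funext i; simp [cjt, mul_assoc]
  right_inv t := by funext i; simp [cjt, mul_assoc]

theorem gT_cjt_le (g : A) (t : ι → A) : gT (cjt g t) ≤ cg g (gT t) := by
  have h := gT_le.1 (le_refl (gT t))
  rw [gT_le]
  intro i
  rw [mem_cg]
  have : g⁻¹ * (cjt g t) i * g = t i := by simp [cjt, mul_assoc]
  rw [this]; exact h i

end TAAux

open DAAux TAAux

theorem gT_cjt (g : A) (t : ι → A) : gT (cjt g t) = cg g (gT t) := by
  apply le_antisymm (gT_cjt_le g t)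
  rw [cg_le_iff]
  have h := gT_cjt_le g⁻¹ (cjt g t)
  have e : cjt g⁻¹ (cjt g t) = t := by
    funext i; simp [cjt, mul_assoc]
  rwa [e] at h

theorem bT_cg {f : (ι → A) → ℤ} (hf : CT f) (g : A) (U : Subgroup A) :
    bT p (cg g U) f = bT p U f := by
  unfold bT
  rw [← finsum_comp_equiv (cE g)]
  apply finsum_congr
  intro t
  have e1 : gT (cE g t) = cg g (gT t) := gT_cjt g t
  have e2 : f (cE g t) = f t := hf g t
  rw [e1, Opr_cg, cg_le_cg_iff, cg_le_cg_iff, e2]

namespace TAAux

open Classical in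
theorem sum_T3 [Fact p.Prime] [Finite A] [Finite ι] {T : Subgroup A} {f : (ι → A) → ℤ} (hf : CT f)
    (h : ∀ U : Subgroup A, U ≤ T → Opr p U = Opr p T → NoP p U →
      (p : ℤ) * (ordProj[p] (Nat.card U) : ℕ) ∣ bT p U f) :
    (p : ℤ) * (ordProj[p] (Nat.card T) : ℕ) ∣
      ∑ᶠ t : ι → A, (if gT t ≤ T ∧ Opr p T ≤ gT t then
        f t * fK p (gT t) else 0) := by
  haveI : Fintype A := Fintype.ofFinite A
  haveI : Fintype ι := Fintype.ofFinite ι
  haveI : Fintype (Subgroup A) := Fintype.ofFinite _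
  -- the sum over the chains
  have key : ∑ᶠ t : ι → A,
      (if gT t ≤ T ∧ Opr p T ≤ gT t then f t * fK p (gT t) else 0) =
      ∑ σ : Finset (Subgroup A), (if IsCh p σ ∧ Opr p T ≤ sN σ then
        (-1) ^ σ.card * bT p (T ⊓ sN σ) f else 0) := by
    rw [finsum_eq_sum_of_fintype]
    have e1 : ∀ t : ι → A,
        (if gT t ≤ T ∧ Opr p T ≤ gT t then f t * fK p (gT t) else 0) =
        ∑ σ : Finset (Subgroup A), (if gT t ≤ T ∧ Opr p T ≤ gT t then
          f t * (if IsCh p σ then (-1) ^ σ.card *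
            (if gT t ≤ sN σ then 1 else 0) else 0)
          else 0) := by
      intro t
      split_ifs with ht
      · rw [← Finset.mul_sum, fK, chS, finsum_eq_sum_of_fintype]
      · rw [Finset.sum_const_zero]
    rw [Finset.sum_congr rfl (fun t _ => e1 t), Finset.sum_comm]
    apply Finset.sum_congr rfl
    intro σ _
    split_ifs with hσ1 hσ2 hσ2
    · obtain ⟨_, hσ2⟩ := hσ2
      have hU : Opr p T ≤ T ⊓ sN σ := le_inf (Opr_le T) hσ2
      have hO : Opr p (T ⊓ sN σ) = Opr p T := Opr_eq_of_le hU inf_le_left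
      rw [bT, finsum_eq_sum_of_fintype, Finset.mul_sum]
      apply Finset.sum_congr rfl
      intro t _
      rw [hO, le_inf_iff]
      by_cases c1 : gT t ≤ T <;> by_cases c2 : Opr p T ≤ gT t <;> by_cases c3 : gT t ≤ sN σ <;>
        simp [c1, c2, c3, mul_comm]
    · apply Finset.sum_eq_zero
      intro t _
      split_ifs with c1 c2
      · exact absurd ⟨hσ1, c1.2.trans c2⟩ hσ2
      · simp
      · rfl
    · exact absurd hσ2.1 hσ1
    · simp
  rw [key]
  -- the chains with a normal p-subgroup cancel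
  have hz : ∀ U : Subgroup A, (Opr p T ≤ U ∧ ¬ NoP p U) → U ≤ T →
      ∑ᶠ x : {x : {σ : Finset (Subgroup A) // IsCh p σ ∧ Opr p T ≤ sN σ} // T ⊓ sN x.1 = U},
        ((-1 : ℤ)) ^ x.1.1.card = 0 := by
    intro U hU hUT
    refine exact_zero (X := {σ : Finset (Subgroup A) // IsCh p σ ∧ Opr p T ≤ sN σ}) T
      (fun x => T ⊓ sN x.1) (fun x => inf_le_left) (fun x => (-1) ^ x.1.card)
      (fun U => Opr p T ≤ U ∧ ¬ NoP p U) ?_ ?_ U hU hUT
    · rintro U U' ⟨h1, h2⟩ h3 h4
      refine ⟨h1.trans h3, fun h5 => h2 ?_⟩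
      refine NoP_up h3 ?_ h5
      rw [Opr_eq_of_le h1 (h3.trans h4), Opr_eq_of_le (h1.trans h3) h4]
    · rintro U ⟨h1, h2⟩ h3
      have h4 : fK p U = 0 := by
        unfold NoP at h2
        push Not at h2
        obtain ⟨R, hR1, hR2, hR3, hR4⟩ := h2
        exact fK_zero hR1 hR2 hR3 hR4
      rw [← h4, fK, chS]
      rw [finsum_sub (fun x : {σ : Finset (Subgroup A) // IsCh p σ ∧ Opr p T ≤ sN σ} =>
        U ≤ T ⊓ sN x.1) (fun x => (-1) ^ x.1.card)]
      rw [finsum_sub (fun σ : Finset (Subgroup A) => IsCh p σ ∧ Opr p T ≤ sN σ)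
        (fun σ => if U ≤ T ⊓ sN σ then (-1) ^ σ.card else 0)]
      apply finsum_congr
      intro σ
      by_cases c1 : IsCh p σ <;> by_cases c2 : U ≤ sN σ
      · have c3 : Opr p T ≤ sN σ := h1.trans c2
        have c4 : U ≤ T ⊓ sN σ := le_inf h3 c2
        simp [c1, c2, c3, c4]
      · have c4 : ¬ U ≤ T ⊓ sN σ := fun c => c2 (c.trans inf_le_right)
        simp [c1, c2, c4]
      · simp [c1]
      · simp [c1]
  have hz' : ∑ σ : Finset (Subgroup A), (if (IsCh p σ ∧ Opr p T ≤ sN σ) ∧ ¬ NoP p (T ⊓ sN σ) then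
        (-1) ^ σ.card * bT p (T ⊓ sN σ) f else 0) = 0 := by
    have e2 : ∑ σ : Finset (Subgroup A), (if (IsCh p σ ∧ Opr p T ≤ sN σ) ∧ ¬ NoP p (T ⊓ sN σ) then
        (-1) ^ σ.card * bT p (T ⊓ sN σ) f else 0) =
        ∑ x : {σ : Finset (Subgroup A) // IsCh p σ ∧ Opr p T ≤ sN σ},
          (if ¬ NoP p (T ⊓ sN x.1) then (-1) ^ x.1.card * bT p (T ⊓ sN x.1) f else 0) := by
      rw [← finsum_eq_sum_of_fintype, ← finsum_eq_sum_of_fintype,
        finsum_sub (fun σ : Finset (Subgroup A) => IsCh p σ ∧ Opr p T ≤ sN σ)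
        (fun σ => if ¬ NoP p (T ⊓ sN σ) then (-1) ^ σ.card * bT p (T ⊓ sN σ) f else 0)]
      apply finsum_congr
      intro σ
      by_cases c1 : IsCh p σ ∧ Opr p T ≤ sN σ
      · by_cases c2 : NoP p (T ⊓ sN σ)
        · rw [if_neg (fun h => h.2 c2), if_pos c1, if_neg (fun h => h c2)]
        · rw [if_pos ⟨c1, c2⟩, if_pos c1, if_pos c2]
      · rw [if_neg (fun h => c1 h.1), if_neg c1]
    rw [e2, ← Finset.sum_fiberwise (s := Finset.univ)
      (g := fun x : {σ : Finset (Subgroup A) // IsCh p σ ∧ Opr p T ≤ sN σ} => T ⊓ sN x.1)]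
    apply Finset.sum_eq_zero
    intro U _
    by_cases hU : (Opr p T ≤ U ∧ ¬ NoP p U) ∧ U ≤ T
    · have h1 := hz U hU.1 hU.2
      rw [finsum_sub (fun x : {σ : Finset (Subgroup A) // IsCh p σ ∧ Opr p T ≤ sN σ} =>
        T ⊓ sN x.1 = U) (fun x => (-1) ^ x.1.card), finsum_eq_sum_of_fintype,
        ← Finset.sum_filter] at h1
      calc _ = ∑ x ∈ Finset.univ.filter (fun x : {σ : Finset (Subgroup A) //
            IsCh p σ ∧ Opr p T ≤ sN σ} => T ⊓ sN x.1 = U), (-1) ^ x.1.card * bT p U f := by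
            apply Finset.sum_congr rfl
            intro x hx
            rw [Finset.mem_filter] at hx
            rw [hx.2, if_pos hU.1.2]
        _ = 0 := by rw [← Finset.sum_mul, h1, zero_mul]
    · apply Finset.sum_eq_zero
      intro x hx
      rw [Finset.mem_filter] at hx
      rw [if_neg]
      intro hn
      apply hU
      rw [← hx.2]
      exact ⟨⟨le_inf (Opr_le T) x.2.2, hn⟩, inf_le_left⟩
  have hs : ∑ σ : Finset (Subgroup A), (if IsCh p σ ∧ Opr p T ≤ sN σ then
        (-1) ^ σ.card * bT p (T ⊓ sN σ) f else 0) =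
      ∑ σ : Finset (Subgroup A), (if (IsCh p σ ∧ Opr p T ≤ sN σ) ∧ NoP p (T ⊓ sN σ) then
        (-1) ^ σ.card * bT p (T ⊓ sN σ) f else 0) := by
    have e3 : ∑ σ : Finset (Subgroup A), (if IsCh p σ ∧ Opr p T ≤ sN σ then
        (-1) ^ σ.card * bT p (T ⊓ sN σ) f else 0) =
      ∑ σ : Finset (Subgroup A), (if (IsCh p σ ∧ Opr p T ≤ sN σ) ∧ NoP p (T ⊓ sN σ) then
        (-1) ^ σ.card * bT p (T ⊓ sN σ) f else 0) +
      ∑ σ : Finset (Subgroup A), (if (IsCh p σ ∧ Opr p T ≤ sN σ) ∧ ¬ NoP p (T ⊓ sN σ) then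
        (-1) ^ σ.card * bT p (T ⊓ sN σ) f else 0) := by
      rw [← Finset.sum_add_distrib]
      apply Finset.sum_congr rfl
      intro σ _
      by_cases c1 : IsCh p σ ∧ Opr p T ≤ sN σ
      · by_cases c2 : NoP p (T ⊓ sN σ)
        · rw [if_pos c1, if_pos ⟨c1, c2⟩, if_neg (fun h => h.2 c2), add_zero]
        · rw [if_pos c1, if_neg (fun h => c2 h.2), if_pos ⟨c1, c2⟩, zero_add]
      · rw [if_neg c1, if_neg (fun h => c1 h.1), if_neg (fun h => c1 h.1), add_zero]
    rw [e3, hz', add_zero]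
  rw [hs]
  -- orbits
  refine @orb_dvd_p p _ T (Finset (Subgroup A)) _ _ (actT T) _ _ ?_ p ?_
  · intro t σ
    change (if (IsCh p (cgF (t : A) σ) ∧ Opr p T ≤ sN (cgF (t : A) σ)) ∧
      NoP p (T ⊓ sN (cgF (t : A) σ)) then (-1) ^ (cgF (t : A) σ).card *
        bT p (T ⊓ sN (cgF (t : A) σ)) f else 0) = _
    have hT : cg (t : A) T = T := cg_mem_self t.2
    have hO : cg (t : A) (Opr p T) = Opr p T := by rw [← Opr_cg, hT]
    have e1 : T ⊓ sN (cgF (t : A) σ) = cg (t : A) (T ⊓ sN σ) := by rw [sN_cgF, cg_inf, hT]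
    have e2 : Opr p T ≤ sN (cgF (t : A) σ) ↔ Opr p T ≤ sN σ := by
      rw [sN_cgF]
      conv_lhs => rw [← hO]
      exact cg_le_cg_iff
    rw [e1, e2, isCh_cgF, noP_cg, card_cgF, bT_cg hf]
  · intro σ
    split_ifs with hσ
    · obtain ⟨⟨c1, c2⟩, c3⟩ := hσ
      rw [card_stab c1]
      apply Dvd.dvd.mul_left
      exact h _ inf_le_left (Opr_eq_of_le (le_inf (Opr_le T) c2) inf_le_left) c3
    · exact dvd_zero _

/-- The action of `N(H)` on the pairs by conjugation. -/
def actP (T : Subgroup A) : MulAction T (ι → A) where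
  smul g t := cjt (g : A) t
  one_smul t := by
    change cjt ((1 : T) : A) t = t
    funext i; simp [cjt]
  mul_smul g h t := by
    change cjt ((g * h : T) : A) t = cjt (g : A) (cjt (h : A) t)
    funext i; simp [cjt, mul_assoc]

theorem cjt_fix {g : A} {t : ι → A} (h : cjt g t = t) {x : A} (hx : x ∈ gT t) :
    x * g = g * x := by
  have h4 : gT t ≤ Subgroup.centralizer ({g} : Set A) := by
    rw [gT_le]
    intro i
    have h1 : g * t i * g⁻¹ = t i := congrFun h i
    rw [Subgroup.mem_centralizer_iff]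
    rintro y rfl
    rw [mul_inv_eq_iff_eq_mul] at h1
    exact h1
  exact ((Subgroup.mem_centralizer_iff.1 (h4 hx)) g rfl).symm

theorem card_stabP [Finite A] (T : Subgroup A) (t : ι → A) :
    Nat.card (@MulAction.stabilizer T (ι → A) _ (actP T) t) ∣
      Nat.card ↥(Subgroup.centralizer (gT t : Set A)) := by
  letI : MulAction T (ι → A) := actP T
  have h1 : ((MulAction.stabilizer T t).map T.subtype) ≤
      Subgroup.centralizer (gT t : Set A) := by
    rintro _ ⟨g, hg, rfl⟩
    rw [Subgroup.mem_centralizer_iff]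
    intro x hx
    have hg' : cjt (g : A) t = t := hg
    exact cjt_fix hg' hx
  have h2 := Subgroup.card_dvd_of_le h1
  rwa [Subgroup.card_map_of_injective (Subgroup.subtype_injective _)] at h2

end TAAux

open DBAux

open Classical in
theorem sum_H3 [Fact p.Prime] [Finite A] [Finite ι] {H : Subgroup A} {f : (ι → A) → ℤ}
    (hf : CT f)
    (h : ∀ U : Subgroup A, Opr p U = H → NoP p U →
      (p : ℤ) * (ordProj[p] (Nat.card U) : ℕ) ∣ bT p U f) :
    (p : ℤ) * (ordProj[p] (Nat.card ↥(Subgroup.normalizer (H : Set A))) : ℕ) ∣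
      ∑ᶠ t : ι → A, (if Opr p (gT t) = H then f t * fK p (gT t) else 0) := by
  haveI : Fintype A := Fintype.ofFinite A
  haveI : Fintype ι := Fintype.ofFinite ι
  haveI : Fintype (Sylow p (NQ H)) := Fintype.ofFinite _
  by_cases hH : Opr p H = H
  swap
  · have h0 : ∀ t : ι → A,
        (if Opr p (gT t) = H then f t * fK p (gT t) else 0) = 0 := by
      intro t
      rw [if_neg]
      intro e
      apply hH
      have h1 : Opr p (Opr p (gT t)) = Opr p (gT t) := Opr_eq_of_le le_rfl (Opr_le _)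
      rwa [e] at h1
    rw [finsum_congr h0, finsum_zero]
    exact dvd_zero _
  rw [finsum_eq_sum_of_fintype]
  -- the groups `upS H P`
  have hO : ∀ P : Sylow p (NQ H), Opr p (upS H P) = H := by
    intro P
    apply le_antisymm
    · exact Opr_le_of_pow (le_upS H P) (upS_le H P) (fun x hx => upS_pow H P hx)
    · conv_lhs => rw [← hH]
      exact Opr_mono (le_upS H P)
  have hP : ∀ P : Sylow p (NQ H),
      (p : ℤ) * (ordProj[p] (Nat.card ↥(Subgroup.normalizer (H : Set A))) : ℕ) ∣
        ∑ t : ι → A, (if gT t ≤ upS H P ∧ H ≤ gT t then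
          f t * fK p (gT t) else 0) := by
    intro P
    have h1 := sum_T3 (T := upS H P) hf (fun U _ hU hU' => h U (hU.trans (hO P)) hU')
    rw [upS_card, hO P, finsum_eq_sum_of_fintype] at h1
    exact h1
  -- the sum over all `P`
  have hS : (p : ℤ) * (ordProj[p] (Nat.card ↥(Subgroup.normalizer (H : Set A))) : ℕ) ∣
      ∑ t : ι → A, (if Opr p (gT t) = H then
        (nP p H (gT t) : ℤ) * (f t * fK p (gT t)) else 0) := by
    have h1 := Finset.dvd_sum (s := Finset.univ) (fun P _ => hP P)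
    rw [Finset.sum_comm] at h1
    have h2 : ∀ t : ι → A, ∑ P : Sylow p (NQ H),
        (if gT t ≤ upS H P ∧ H ≤ gT t then f t * fK p (gT t) else 0) =
        (if Opr p (gT t) = H then
        (nP p H (gT t) : ℤ) * (f t * fK p (gT t)) else 0) := by
      intro t
      split_ifs with ht
      · have h3 : H ≤ gT t := by rw [← ht]; exact Opr_le _
        simp only [h3, and_true]
        rw [← Finset.sum_filter, Finset.sum_const, nP, Nat.card_eq_fintype_card,
          Fintype.card_subtype, nsmul_eq_mul]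
      · apply Finset.sum_eq_zero
        intro P _
        rw [if_neg]
        rintro ⟨h3, h4⟩
        apply ht
        have h5 : Opr p (gT t) = Opr p (upS H P) :=
          Opr_eq_of_le (by rw [hO P]; exact h4) h3
        rw [h5, hO P]
    rw [Finset.sum_congr rfl (fun t _ => h2 t)] at h1
    exact h1
  -- the error term
  have hE : (p : ℤ) * (ordProj[p] (Nat.card ↥(Subgroup.normalizer (H : Set A))) : ℕ) ∣
      ∑ t : ι → A, (if Opr p (gT t) = H then
        ((nP p H (gT t) : ℤ) - 1) * (f t * fK p (gT t)) else 0) := by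
    refine @orb_dvd_p p _ (Subgroup.normalizer (H : Set A)) (ι → A) _ _ (actP _) _ _ ?_ p ?_
    · intro g t
      change (if Opr p (gT (cjt (g : A) t)) = H then
        ((nP p H (gT (cjt (g : A) t)) : ℤ) - 1) *
          (f (cjt (g : A) t) *
          fK p (gT (cjt (g : A) t))) else 0) = _
      have h1 : cg (g : A) H = H := cg_eq_self_iff.2 g.2
      have h2 : cg (g : A) (Opr p (gT t)) = H ↔ Opr p (gT t) = H := by
        constructor
        · intro c
          exact cg_injective (g : A) (c.trans h1.symm)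
        · intro c
          rw [c, h1]
      rw [gT_cjt, Opr_cg, nP_cg g.2, hf (g : A) t, fK_conj]
      by_cases h3 : Opr p (gT t) = H
      · rw [if_pos (h2.2 h3), if_pos h3]
      · rw [if_neg (fun c => h3 (h2.1 c)), if_neg h3]
    · intro t
      split_ifs with ht
      · have h1 : (p : ℤ) ∣ (nP p H (gT t) : ℤ) - 1 := by
          have h2 : nP p H (gT t) ≡ 1 [MOD p] := by
            refine card_upS_over ?_ ?_ ?_
            · rw [← ht]; exact Opr_le _
            · rw [← ht]; exact Opr_normal _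
            · intro x hx
              obtain ⟨n, hn⟩ := Opr_pow (p := p) hx
              rw [ht] at hn
              exact ⟨n, hn⟩
          have h3 := (Nat.modEq_iff_dvd.1 h2.symm)
          simpa using h3
        have h4 : ((ordProj[p] (Nat.card (@MulAction.stabilizer
            (Subgroup.normalizer (H : Set A)) (ι → A) _ (actP _) t)) : ℕ) : ℤ) ∣
            fK p (gT t) := by
          refine dvd_trans ?_ (cent_dvd_fK (gT t))
          exact_mod_cast Nat.ordProj_dvd_ordProj_of_dvd Nat.card_pos.ne' (card_stabP _ t) p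
        exact mul_dvd_mul h1 (Dvd.dvd.mul_left h4 _)
      · exact dvd_zero _
  have hd := dvd_sub hS hE
  rw [← Finset.sum_sub_distrib] at hd
  have hfin : ∀ t : ι → A, (if Opr p (gT t) = H then
      f t * fK p (gT t) else 0) =
      ((if Opr p (gT t) = H then (nP p H (gT t) : ℤ) *
          (f t * fK p (gT t)) else 0) -
        (if Opr p (gT t) = H then
          ((nP p H (gT t) : ℤ) - 1) * (f t * fK p (gT t)) else 0)) := by
    intro t
    split_ifs
    · ring
    · ring
  rw [Finset.sum_congr rfl (fun t _ => hfin t)]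
  exact hd

end Pool.Agent.Lib.P0c8ca5.Gs
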