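import Mathlib
import Pool.Agent.Lib.P0c8ca5V.CB
import Pool.Agent.Lib.P0c8ca5V.DC
import Pool.Agent.Lib.P0c8ca5Gs.TA

/-!
# TC: `eT p f` and the `bT p U f`

PROOF. Copies of P0c8ca5Bx.PC (complete; pairs there) with tuples `t : ι → A` in place of the pairs, `gT t` for `gn t`, `f t` for `f (cmt t.1 t.2)⁻¹`, `bT` for `bQ`, `eT`, `nT` for `eE`, `nE`, `CT f` for `CF f`
(`nT` is defined with `gT t ≤ H`; `gT_cjt`, `bT_cg`, `sum_H3`, `gT_le` from TA). `bT_dn`, `nT_dn`: the map `up U t = fun i => (t i : A)` from `ι → ↥U` to `ι → A` is injective with range `{t | gT t ≤ U}`, `gT (up U t) = (gT t).map U.subtype` (`MonoidHom.map_closure`).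
`bT_of_eT`: induction on the order as in `keyW2` (P0c8ca5V.RelW2, complete) resp. `eE_iff_bQ` (P0c8ca5Bx.PC). `nT_cg`: as `nE_conj`. `eT_dvd`: `chS_dvd` (P0c8ca5V.ChOrb) with `q = 1`. `eT_sub_dvd`: `chS_dvd` with `q`.
`bT_dvd`: `A` acts on the tuples by conjugation, the stabilizer of `t` with `Opr p ⊤ ≤ gT t` is contained in the centralizer of `Opr p ⊤`, whose order is prime to `p` (`NoP p ⊤`; see P0c8ca5V.RotAux / P0c8ca5Bx.RqC, e.g. `norm_trivial`); orbit counting (`orb_dvd_p` style).
-/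

namespace Pool.Agent.Lib.P0c8ca5.Gs

universe u

variable {p : ℕ} {A : Type*} [Group A] {ι : Type*}

namespace TCAux

open DCAux DAAux

/-- the tuple in `A` of a tuple in `U` -/
def up (U : Subgroup A) (t : ι → ↥U) : ι → A := fun i => (t i : A)

theorem up_injective (U : Subgroup A) : Function.Injective (up (ι := ι) U) := by
  intro s t h
  funext i
  exact Subtype.ext (congrFun h i)

theorem gT_up (U : Subgroup A) (t : ι → ↥U) : gT (up U t) = (gT t).map U.subtype := by
  unfold gT
  rw [MonoidHom.map_closure, ← Set.range_comp]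
  rfl

theorem range_up (U : Subgroup A) : Set.range (up (ι := ι) U) = {t | gT t ≤ U} := by
  ext t
  rw [Set.mem_ofPred_eq, gT_le]
  constructor
  · rintro ⟨s, rfl⟩ i
    exact (s i).2
  · intro h
    exact ⟨fun i => ⟨t i, h i⟩, rfl⟩

theorem map_le (U : Subgroup A) (K : Subgroup ↥U) : K.map U.subtype ≤ U := by
  rintro _ ⟨y, -, rfl⟩
  exact y.2

/-- the sum over the tuples in `U` with a property as a sum over the tuples of `U` -/
theorem sum_up (U : Subgroup A) (P : (ι → A) → Prop) (f : (ι → A) → ℤ)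
    [∀ t, Decidable (gT t ≤ U ∧ P t)] [∀ t : ι → ↥U, Decidable (P (up U t))] :
    (∑ᶠ t : ι → ↥U, if P (up U t) then f (up U t) else 0) =
      ∑ᶠ t : ι → A, if gT t ≤ U ∧ P t then f t else 0 := by
  classical
  have h1 : ∀ t : ι → ↥U, (if P (up U t) then f (up U t) else 0) =
      (if gT (up U t) ≤ U ∧ P (up U t) then f (up U t) else 0) := by
    intro t
    have h2 : gT (up U t) ≤ U := by
      rw [gT_up]
      exact map_le U _
    by_cases h3 : P (up U t)
    · rw [if_pos h3, if_pos ⟨h2, h3⟩]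
    · rw [if_neg h3, if_neg (fun h4 => h3 h4.2)]
  rw [finsum_congr h1, ← finsum_mem_range (f := fun t : ι → A =>
    if gT t ≤ U ∧ P t then f t else 0) (up_injective U), range_up, finsum_mem_def]
  refine finsum_congr (fun t => ?_)
  by_cases h : gT t ≤ U
  · rw [Set.indicator_of_mem (show t ∈ {t | gT t ≤ U} from h)]
  · rw [Set.indicator_of_notMem (show t ∉ {t | gT t ≤ U} from h), if_neg (fun h' => h h'.1)]

open Classical in
/-- the sum over the tuples with `O^p(gT t) = H` -/
noncomputable def FHT (p : ℕ) (f : (ι → A) → ℤ) (H : Subgroup A) : ℤ :=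
  ∑ᶠ t : ι → A, (if Opr p (gT t) = H then f t * fK p (gT t) else 0)

/-- conjugation of tuples -/
def cjE (g : A) : (ι → A) ≃ (ι → A) where
  toFun := cjt g
  invFun := cjt g⁻¹
  left_inv t := by
    funext i
    simp [cjt, mul_assoc]
  right_inv t := by
    funext i
    simp [cjt, mul_assoc]

theorem cjE_eq (g : A) (t : ι → A) : cjE g t = cjt g t := rfl

theorem FHT_cg [Fact p.Prime] [Finite A] {f : (ι → A) → ℤ} (hf : CT f) (g : A)
    (H : Subgroup A) : FHT p f (cg g H) = FHT p f H := by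
  classical
  unfold FHT
  rw [← finsum_comp_equiv (cjE g)]
  refine finsum_congr (fun t => ?_)
  rw [cjE_eq, gT_cjt, Opr_cg, hf, fK_conj]
  have h : cg g (Opr p (gT t)) = cg g H ↔ Opr p (gT t) = H := (cg_injective g).eq_iff
  simp only [h]

theorem sum_FHT [Finite A] [Finite ι] (f : (ι → A) → ℤ) :
    ∑ᶠ t : ι → A, f t * fK p (gT t) = ∑ᶠ H : Subgroup A, FHT p f H := by
  classical
  have := Fintype.ofFinite (ι → A)
  have := Fintype.ofFinite (Subgroup A)
  simp only [FHT, finsum_eq_sum_of_fintype]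
  rw [Finset.sum_comm]
  refine Finset.sum_congr rfl (fun t _ => ?_)
  rw [Finset.sum_ite_eq]
  simp

/-- the term `H = O^p(A)` -/
theorem FHT_top [Fact p.Prime] [Finite A] (f : (ι → A) → ℤ) (hA : NoP p (⊤ : Subgroup A)) :
    FHT p f (Opr p ⊤) = bT p (⊤ : Subgroup A) f := by
  classical
  unfold FHT bT
  refine finsum_congr (fun t => ?_)
  have h : Opr p (gT t) = Opr p ⊤ ↔ (gT t ≤ ⊤ ∧ Opr p ⊤ ≤ gT t) := by
    constructor
    · intro h
      exact ⟨le_top, h ▸ Opr_le _⟩
    · rintro ⟨-, h⟩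
      exact Opr_eq_of_le h le_top
  by_cases h1 : Opr p (gT t) = Opr p ⊤
  · rw [if_pos h1, if_pos (h.1 h1), fK_one, mul_one]
    intro R hR hn
    exact norm_trivial hA le_top hR ((h.1 h1).2.trans hn)
  · rw [if_neg h1, if_neg (fun h2 => h1 (h.2 h2))]

/-- conjugation action on tuples -/
@[reducible] def actT (A : Type*) [Group A] (ι : Type*) : MulAction A (ι → A) where
  smul g t := cjt g t
  one_smul t := by
    change cjt 1 t = t
    funext i
    simp [cjt]
  mul_smul g h t := by
    change cjt (g * h) t = cjt g (cjt h t)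
    funext i
    simp only [cjt]
    group

theorem ordProj_one' [Fact p.Prime] {n : ℕ} (h : ¬ p ∣ n) : ordProj[p] n = 1 := by
  rw [Nat.factorization_eq_zero_of_not_dvd h, pow_zero]

end TCAux

open TCAux DCAux DAAux

theorem eT_eq [Finite A] [Finite ι] (p : ℕ) (f : (ι → A) → ℤ) :
    eT p f = ∑ᶠ t : ι → A, f t * fK p (gT t) := by
  classical
  have := Fintype.ofFinite (ι → A)
  have := Fintype.ofFinite (Subgroup A)
  have e1 : eT p f = ∑ σ : Finset (Subgroup A), if IsCh p σ then
      (-1) ^ σ.card * ∑ t : ι → A, (if gT t ≤ sN σ then f t else 0) else 0 := by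
    rw [eT, chS, finsum_eq_sum_of_fintype]
    refine Finset.sum_congr rfl (fun σ _ => ?_)
    by_cases hc : IsCh p σ
    · rw [if_pos hc, if_pos hc, nT, finsum_eq_sum_of_fintype]
    · rw [if_neg hc, if_neg hc]
  rw [e1, finsum_eq_sum_of_fintype]
  have e2 : ∀ t : ι → A, f t * fK p (gT t) = ∑ σ : Finset (Subgroup A),
      if IsCh p σ then (-1) ^ σ.card * (if gT t ≤ sN σ then f t else 0) else 0 := by
    intro t
    rw [fK, chS, finsum_eq_sum_of_fintype, Finset.mul_sum]
    refine Finset.sum_congr rfl (fun σ _ => ?_)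
    by_cases hc : IsCh p σ
    · rw [if_pos hc, if_pos hc]
      by_cases hg : gT t ≤ sN σ
      · rw [if_pos hg, if_pos hg]
        ring
      · rw [if_neg hg, if_neg hg]
        ring
    · rw [if_neg hc, if_neg hc, mul_zero]
  rw [Finset.sum_congr rfl (fun t _ => e2 t), Finset.sum_comm]
  refine Finset.sum_congr rfl (fun σ _ => ?_)
  by_cases hc : IsCh p σ
  · simp only [hc, if_true]
    rw [Finset.mul_sum]
  · simp [hc]

theorem bT_dn (U : Subgroup A) (f : (ι → A) → ℤ) :
    bT p (⊤ : Subgroup ↥U) (rsT U f) = bT p U f := by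
  classical
  have h0 := sum_up U (fun t => Opr p U ≤ gT t) f
  unfold bT
  rw [← h0]
  refine finsum_congr (fun t => ?_)
  have h1 : Opr p U ≤ gT (up U t) ↔ Opr p (⊤ : Subgroup ↥U) ≤ gT t := by
    rw [gT_up, Opr_top U, Subgroup.map_le_map_iff_of_injective U.subtype_injective]
  by_cases h2 : Opr p (⊤ : Subgroup ↥U) ≤ gT t
  · rw [if_pos ⟨le_top, h2⟩, if_pos (h1.2 h2)]
    rfl
  · rw [if_neg (fun h3 => h2 h3.2), if_neg (fun h3 => h2 (h1.1 h3))]

theorem nT_dn (U : Subgroup A) (f : (ι → A) → ℤ) :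
    nT (⊤ : Subgroup ↥U) (rsT U f) = nT U f := by
  classical
  have h0 := sum_up U (fun _ => True) f
  unfold nT
  have h1 : ∀ t : ι → A, (if gT t ≤ U ∧ True then f t else 0) =
      (if gT t ≤ U then f t else 0) := by
    intro t
    by_cases h2 : gT t ≤ U
    · rw [if_pos h2, if_pos ⟨h2, trivial⟩]
    · rw [if_neg h2, if_neg (fun h3 => h2 h3.1)]
  rw [← finsum_congr h1, ← h0]
  refine finsum_congr (fun t => ?_)
  rw [if_pos le_top, if_pos trivial]
  rfl

theorem nT_cg {f : (ι → A) → ℤ} (hf : CT f) (g : A) (U : Subgroup A) :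
    nT (cg g U) f = nT U f := by
  classical
  unfold nT
  rw [← finsum_comp_equiv (cjE g)]
  refine finsum_congr (fun t => ?_)
  rw [cjE_eq, gT_cjt, hf]
  have h : cg g (gT t) ≤ cg g U ↔ gT t ≤ U := cg_le_cg_iff
  simp only [h]

theorem eT_of_bT [Fact p.Prime] [Finite A] [Finite ι] {f : (ι → A) → ℤ} (hf : CT f)
    (h : ∀ U : Subgroup A, NoP p U →
      (p : ℤ) * (ordProj[p] (Nat.card U) : ℕ) ∣ bT p U f) :
    (p : ℤ) * (ordProj[p] (Nat.card A) : ℕ) ∣ eT p f := by
  rw [eT_eq, sum_FHT]
  refine sub_dvd_p _ (fun g U => FHT_cg hf g U) _ (fun K => ?_)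
  exact sum_H3 hf (fun U _ hU2 => h U hU2)

theorem bT_of_eT {ι : Type} [Finite ι] {p : ℕ} [Fact p.Prime]
    {C : ∀ (G : Type u) [Group G], Prop}
    (hC : ∀ (G : Type u) [Group G], C G → ∀ U : Subgroup G, C ↥U)
    {F : ∀ (G : Type u) [Group G], ((ι → G) → ℤ) → Prop}
    (hF : ∀ (G : Type u) [Group G] [Finite G] (f : (ι → G) → ℤ), F G f → CT f ∧
      ∀ U : Subgroup G, F ↥U (rsT U f))
    (H : ∀ (G : Type u) [Group G] [Finite G], C G → ∀ f : (ι → G) → ℤ, F G f →
      (p : ℤ) * (ordProj[p] (Nat.card G) : ℕ) ∣ eT p f)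
    (G : Type u) [Group G] [Finite G] (hCG : C G) (hG : NoP p (⊤ : Subgroup G))
    (f : (ι → G) → ℤ) (hf : F G f) :
    (p : ℤ) * (ordProj[p] (Nat.card G) : ℕ) ∣ bT p (⊤ : Subgroup G) f := by
  have key : ∀ n : ℕ, ∀ (G : Type u) [Group G] [Finite G], Nat.card G = n → C G →
      NoP p (⊤ : Subgroup G) → ∀ f : (ι → G) → ℤ, F G f →
      (p : ℤ) * (ordProj[p] (Nat.card G) : ℕ) ∣ bT p (⊤ : Subgroup G) f := by
    intro n
    induction n using Nat.strong_induction_on with
    | _ n ih =>
    intro G _ _ hn hCG hG f hf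
    classical
    have := Fintype.ofFinite (Subgroup G)
    have hcf : CT f := (hF G f hf).1
    have h1 : (p : ℤ) * (ordProj[p] (Nat.card G) : ℕ) ∣ ∑ᶠ H : Subgroup G, FHT p f H := by
      rw [← sum_FHT, ← eT_eq]
      exact H G hCG f hf
    have h2 : (p : ℤ) * (ordProj[p] (Nat.card G) : ℕ) ∣
        ∑ᶠ H : Subgroup G, (if H = Opr p ⊤ then 0 else FHT p f H) := by
      refine sub_dvd_p _ ?_ _ ?_
      · intro g U
        have h3 : cg g U = Opr p ⊤ ↔ U = Opr p ⊤ := by
          constructor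
          · intro h
            have := congrArg (cg g⁻¹) h
            rwa [cg_cg, inv_mul_cancel, cg_one, cg_Opr_top] at this
          · intro h
            rw [h, cg_Opr_top]
        simp only [h3, FHT_cg hcf]
      · intro K
        split_ifs with hK
        · exact dvd_zero _
        · refine sum_H3 hcf (fun U hU hU2 => ?_)
          have hlt : Nat.card U < n := by
            rw [← hn]
            refine lt_of_le_of_ne (Subgroup.card_le_card_group U) ?_
            intro h
            have : U = ⊤ := Subgroup.eq_top_of_card_eq U h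
            exact hK (by rw [← hU, this])
          have := ih _ hlt (↥U) rfl (hC G hCG U) ((NoP_dn U).2 hU2) (rsT U f)
            ((hF G f hf).2 U)
          rwa [bT_dn] at this
    have h4 : ∑ᶠ H : Subgroup G, FHT p f H =
        (∑ᶠ H : Subgroup G, (if H = Opr p ⊤ then 0 else FHT p f H)) +
          FHT p f (Opr p ⊤) := by
      rw [finsum_eq_sum_of_fintype, finsum_eq_sum_of_fintype,
        ← Finset.sum_erase_add _ _ (Finset.mem_univ (Opr p (⊤ : Subgroup G))),
        ← Finset.sum_erase_add (Finset.univ : Finset (Subgroup G))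
          (fun H => if H = Opr p ⊤ then 0 else FHT p f H)
          (Finset.mem_univ (Opr p (⊤ : Subgroup G)))]
      simp only [if_true, add_zero]
      congr 1
      refine Finset.sum_congr rfl (fun K hK => ?_)
      rw [if_neg (Finset.ne_of_mem_erase hK)]
    rw [h4] at h1
    rw [← FHT_top f hG]
    exact (dvd_add_right h2).1 h1
  exact key _ G rfl hCG hG f hf

theorem eT_dvd [Fact p.Prime] [Finite A] {f : (ι → A) → ℤ} (hf : CT f)
    (h : ∀ H : Subgroup A, (Nat.card H : ℤ) ∣ nT H f) : (Nat.card A : ℤ) ∣ eT p f := by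
  have h1 := chS_dvd (p := p) (fun U : Subgroup A => nT U f) (fun g U => nT_cg hf g U) 1
    (fun σ _ => by rw [one_mul]; exact h (sN σ))
  rwa [one_mul] at h1

theorem bT_dvd [Fact p.Prime] [Finite A] [Finite ι] (hO : NoP p (⊤ : Subgroup A))
    {f : (ι → A) → ℤ} (hf : CT f) :
    ((ordProj[p] (Nat.card A) : ℕ) : ℤ) ∣ bT p (⊤ : Subgroup A) f := by
  classical
  have := Fintype.ofFinite (ι → A)
  unfold bT
  rw [finsum_eq_sum_of_fintype]
  have key := @orb_dvd_p p _ A (ι → A) _ _ (actT A ι) _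
    (fun t => if gT t ≤ (⊤ : Subgroup A) ∧ Opr p (⊤ : Subgroup A) ≤ gT t then f t else 0)
    ?_ 1 ?_
  · rw [one_mul] at key
    exact key
  · intro g t
    have h3 : Opr p (⊤ : Subgroup A) ≤ cg g (gT t) ↔ Opr p (⊤ : Subgroup A) ≤ gT t := by
      conv_lhs => rw [← cg_Opr_top (p := p) g]
      exact cg_le_cg_iff
    change (if gT (cjt g t) ≤ (⊤ : Subgroup A) ∧ Opr p (⊤ : Subgroup A) ≤ gT (cjt g t)
      then f (cjt g t) else 0) = _
    simp only [gT_cjt, hf g t, h3, le_top, true_and]
  · intro t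
    by_cases h : gT t ≤ (⊤ : Subgroup A) ∧ Opr p (⊤ : Subgroup A) ≤ gT t
    · have h1 : ¬ p ∣ Nat.card (@MulAction.stabilizer A (ι → A) _ (actT A ι) t) := by
        intro h2
        obtain ⟨g, hg⟩ := exists_prime_orderOf_dvd_card' p h2
        have h3 : cjt (g : A) t = t := g.2
        have hgo : orderOf (g : A) = p := by rw [Subgroup.orderOf_coe, hg]
        have h4 : gT t ≤ Subgroup.centralizer ((Subgroup.zpowers (g : A) : Subgroup A) : Set A) := by
          rw [gT_le]
          intro i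
          have h5 : (g : A) * t i * (g : A)⁻¹ = t i := congrFun h3 i
          rw [Subgroup.mem_centralizer_iff]
          rintro x ⟨n, rfl⟩
          have h6 : Commute (g : A) (t i) := by
            rw [mul_inv_eq_iff_eq_mul] at h5
            exact h5
          exact (h6.zpow_left n).eq
        have h7 : Subgroup.zpowers (g : A) = ⊥ := by
          refine norm_trivial hO le_top ?_ ?_
          · refine IsPGroup.of_card (n := 1) ?_
            rw [Nat.card_zpowers, hgo, pow_one]
          · refine h.2.trans (h4.trans ?_)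
            exact Subgroup.centralizer_le_normalizer _
        rw [Subgroup.zpowers_eq_bot] at h7
        rw [h7, orderOf_one] at hgo
        exact (Fact.out : p.Prime).one_lt.ne hgo
      rw [ordProj_one' h1]
      simp
    · simp only [if_neg h]
      exact dvd_zero _

end Pool.Agent.Lib.P0c8ca5.Gs
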