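import Mathlib
import Pool.Agent.Lib.P0c8ca5V.TDzB
import Pool.Agent.Lib.P0c8ca5Bx.Sec
import Pool.Agent.Lib.P0c8ca5Bx.Sing
import Pool.Agent.Lib.P0c8ca5Gs.Defs

/-!
# Om: the sum `zel k (om p)` of the `x` with `x ^ p = 1` acts as the sum of the blocks of defect zero

PROOF. Copy `Sec.lean`, `TrS.lean` of P0c8ca5Bx (both complete; there the element `sec p z`). `om_nonDZ`: as `sec_nonDZ` / `hpe_nonDZ` (P0c8ca5V.THpB): otherwise `zel k (om p) * w * f = f` for some `w`, there is a p-subgroup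
`P ≠ 1` with `HasBr P f`; `Br_P (zel k (om p))` has the coefficient `1` at the `x ∈ C(P)` with `x ^ p = 1`; let `q ∈ Z(P)` be of order `p` (`q ≠ 1`, `q ^ p = 1`, `q` commutes with `C(P)` as `q ∈ P`): `(x q) ^ p = x ^ p` for `x ∈ C(P)`
so `Br_P (zel k (om p))` is invariant under multiplication by `q`, so it is killed by `q - 1`, a nilpotent central.. (the same argument as in `sec_nonDZ`, where `Br_P (sec p z)` is invariant under multiplication by `q`).
`om_dz`: `(zel k (om p) - 1)` has coefficient `0` at the p-regular `y` (`y ^ p = 1` and `y` p-regular imply `y = 1`), so `sing_dz` gives `(zel k (om p) - 1) * f = 0`. `trE_om`: as `trE_sec` in TrS.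
-/

namespace Pool.Agent.Lib.P0c8ca5.Gs

open MonoidAlgebra Bx

set_option linter.unusedSectionVars false

section
variable {p : ℕ} {k : Type*} [Field k] {A : Type*} [Group A] [Finite A]
variable [Fact p.Prime] [CharP k p] [IsAlgClosed k]

namespace OmAux

theorem om_conj (g x : A) : om p (g * x * g⁻¹) = om p x := by
  classical
  unfold om
  have h : (g * x * g⁻¹) ^ p = 1 ↔ x ^ p = 1 := by
    rw [conj_pow]
    constructor
    · intro h
      have h1 : g⁻¹ * (g * x ^ p * g⁻¹) * g = g⁻¹ * 1 * g := by rw [h]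
      simpa [mul_assoc] using h1
    · intro h
      rw [h, mul_one, mul_inv_cancel]
  by_cases hx : x ^ p = 1
  · rw [if_pos hx, if_pos (h.2 hx)]
  · rw [if_neg hx, if_neg (fun h' => hx (h.1 h'))]

theorem om_mem : zel k (om p : A → ℤ) ∈ fixAlg k (⊤ : Subgroup A) ⊤ := zel_mem om_conj

theorem res_sq {D : Subgroup A} (hD : IsPGroup p D) (hne : D ≠ ⊥) (hDp : ∀ d ∈ D, d ^ p = 1)
    (hcomm : D ≤ Subgroup.centralizer (D : Set A)) :
    resS (Subgroup.centralizer (D : Set A) : Set A) (zel k (om p : A → ℤ)) *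
      resS (Subgroup.centralizer (D : Set A) : Set A) (zel k (om p : A → ℤ)) = 0 := by
  classical
  cases nonempty_fintype A
  set C := Subgroup.centralizer (D : Set A) with hC
  have hcm : ∀ d ∈ D, ∀ u ∈ C, d * u = u * d := by
    intro d hd u hu
    exact Subgroup.mem_centralizer_iff.1 hu d hd
  have hb : ∀ d ∈ D, ∀ u, (resS (C : Set A) (zel k (om p : A → ℤ))).coeff (d * u) =
      (resS (C : Set A) (zel k (om p : A → ℤ))).coeff u := by
    intro d hd u
    by_cases hu : u ∈ C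
    · have hdu : d * u ∈ C := C.mul_mem (hcomm hd) hu
      have hom : om p (d * u) = om p u := by
        unfold om
        rw [Commute.mul_pow (show Commute d u from hcm d hd u hu), hDp d hd, one_mul]
      rw [coeff_resS_of_mem _ (SetLike.mem_coe.2 hu), coeff_resS_of_mem _ (SetLike.mem_coe.2 hdu),
        zel_coeff, zel_coeff, hom]
    · have hdu : d * u ∉ C := by
        intro h'
        apply hu
        have := C.mul_mem (C.inv_mem (hcomm hd)) h'
        rwa [inv_mul_cancel_left] at this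
      rw [coeff_resS_of_notMem _ (fun h' => hu (SetLike.mem_coe.1 h')),
        coeff_resS_of_notMem _ (fun h' => hdu (SetLike.mem_coe.1 h'))]
  ext y
  rw [coeff_mul_fin]
  rw [sum_eq_sum_fixed (p := p) hD ((MulAction.toPermHom A A).comp D.subtype)
    (fun u => (resS (C : Set A) (zel k (om p : A → ℤ))).coeff u *
      (resS (C : Set A) (zel k (om p : A → ℤ))).coeff (u⁻¹ * y)) ?_ ∅ ?_]
  · rw [Finset.sum_empty]
    rfl
  · intro g u
    change (resS (C : Set A) (zel k (om p : A → ℤ))).coeff ((g : A) * u) *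
      (resS (C : Set A) (zel k (om p : A → ℤ))).coeff (((g : A) * u)⁻¹ * y) = _
    rw [hb g g.2 u]
    by_cases hu : u ∈ C
    · have h1 : ((g : A) * u)⁻¹ * y = (g : A)⁻¹ * (u⁻¹ * y) := by
        rw [hcm g g.2 u hu]
        group
      rw [h1, hb _ (D.inv_mem g.2)]
    · rw [coeff_resS_of_notMem _ (fun h' => hu (SetLike.mem_coe.1 h')), zero_mul, zero_mul]
  · intro x
    constructor
    · intro hx
      exact absurd hx (Finset.notMem_empty x)
    · intro hx
      exfalso
      obtain ⟨d, hd, hd1⟩ := (Subgroup.bot_or_exists_ne_one D).resolve_left hne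
      apply hd1
      have h1 : d * x = x := hx ⟨d, hd⟩
      exact mul_eq_right.1 h1

theorem exists_order_p {P : Subgroup A} (hP : IsPGroup p P) (hne : P ≠ ⊥) :
    ∃ d ∈ P, d ≠ 1 ∧ d ^ p = 1 := by
  have hnt : Nontrivial P := (Subgroup.nontrivial_iff_ne_bot P).2 hne
  obtain ⟨n, hn, hc⟩ := (hP.nontrivial_iff_card).1 hnt
  have hdvd : p ∣ Nat.card P := by
    rw [hc]
    exact dvd_pow_self p (by omega)
  obtain ⟨x, hx⟩ := exists_prime_orderOf_dvd_card' p hdvd
  have hx1 : x ^ p = 1 := by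
    rw [← hx]
    exact pow_orderOf_eq_one x
  have hp1 : p ≠ 1 := (Fact.out : p.Prime).ne_one
  refine ⟨x, x.2, ?_, ?_⟩
  · intro h
    have h2 : x = 1 := Subtype.ext h
    rw [h2, orderOf_one] at hx
    exact hp1 hx.symm
  · have h3 := congrArg Subtype.val hx1
    simpa using h3

end OmAux

theorem om_nonDZ {f : MonoidAlgebra k A} (hf : IsBlock (⊤ : Subgroup A) f)
    (h : ¬ IsDZ p (⊤ : Subgroup A) f) : IsNilpotent (zel k (om p : A → ℤ) * f) := by
  classical
  cases nonempty_fintype A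
  have hh : zel k (om p : A → ℤ) ∈ fixAlg k (⊤ : Subgroup A) ⊤ := OmAux.om_mem
  rcases blk_nilp_or_unit hf hh with h1 | ⟨w, hw, hwf⟩
  · exact h1
  exfalso
  have hex : ∃ P : Subgroup A, IsPGroup p P ∧ HasBr P f ∧ P ≠ ⊥ := by
    by_contra hcon
    apply h
    refine ⟨hf, fun P _ hP hbr => ?_⟩
    by_contra hne
    exact hcon ⟨P, hP, hbr, hne⟩
  obtain ⟨P, hP, ⟨x, hx, hfx⟩, hPne⟩ := hex
  obtain ⟨d, hd, hd1, hdp⟩ := OmAux.exists_order_p (p := p) hP hPne
  have hDP : Subgroup.zpowers d ≤ P := by rwa [Subgroup.zpowers_le]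
  have hD : IsPGroup p (Subgroup.zpowers d) := hP.to_le hDP
  have hDne : Subgroup.zpowers d ≠ ⊥ := by
    rwa [Ne, Subgroup.zpowers_eq_bot]
  have hDp : ∀ d' ∈ Subgroup.zpowers d, d' ^ p = 1 := by
    rintro _ ⟨n, rfl⟩
    have e : (d ^ n) ^ p = (d ^ p) ^ n := by
      rw [← zpow_natCast, ← zpow_natCast, ← zpow_mul, ← zpow_mul, mul_comm]
    change (d ^ n) ^ p = 1
    rw [e, hdp, one_zpow]
  have hcomm : Subgroup.zpowers d ≤
      Subgroup.centralizer ((Subgroup.zpowers d : Subgroup A) : Set A) := by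
    rw [Subgroup.zpowers_le, Subgroup.mem_centralizer_iff]
    rintro _ ⟨n, rfl⟩
    exact ((Commute.refl d).zpow_left n).eq
  have hsq := OmAux.res_sq (p := p) (k := k) hD hDne hDp hcomm
  have hwf' : w * f ∈ fixAlg k (⊤ : Subgroup A) ⊤ := (fixAlg k _ _).mul_mem hw hf.mem
  have hwwf : w * (w * f) ∈ fixAlg k (⊤ : Subgroup A) ⊤ := (fixAlg k _ _).mul_mem hw hwf'
  have hhh : zel k (om p : A → ℤ) * zel k (om p : A → ℤ) ∈ fixAlg k (⊤ : Subgroup A) ⊤ :=
    (fixAlg k _ _).mul_mem hh hh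
  have hfe : zel k (om p : A → ℤ) * zel k (om p : A → ℤ) * (w * (w * f)) = f := by
    have hc : w * zel k (om p : A → ℤ) = zel k (om p : A → ℤ) * w :=
      commute_of (mem_fixAlg.1 hw).1 (mem_fixAlg.1 hh).2
    calc zel k (om p : A → ℤ) * zel k (om p : A → ℤ) * (w * (w * f))
        = zel k (om p : A → ℤ) * (zel k (om p : A → ℤ) * w) * (w * f) := by
          simp only [mul_assoc]
      _ = zel k (om p : A → ℤ) * (w * zel k (om p : A → ℤ)) * (w * f) := by rw [hc]
      _ = zel k (om p : A → ℤ) * w * (zel k (om p : A → ℤ) * w * f) := by simp only [mul_assoc]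
      _ = f := by rw [hwf, hwf]
  have hinv : ∀ a : MonoidAlgebra k A, a ∈ fixAlg k (⊤ : Subgroup A) ⊤ →
      InvBy (Subgroup.zpowers d) a := fun a ha => (mem_fixAlg.1 ha).2.mono le_top
  have h0 : resS (Subgroup.centralizer ((Subgroup.zpowers d : Subgroup A) : Set A) : Set A) f
      = 0 := by
    rw [← hfe, resS_mul hD (hinv _ hhh) (hinv _ hwwf), resS_mul hD (hinv _ hh) (hinv _ hh), hsq,
      zero_mul]
  apply hfx
  have hxC : x ∈ Subgroup.centralizer ((Subgroup.zpowers d : Subgroup A) : Set A) :=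
    Subgroup.centralizer_le (SetLike.coe_subset_coe.2 hDP) hx
  rw [← coeff_resS_of_mem (S := (Subgroup.centralizer
    ((Subgroup.zpowers d : Subgroup A) : Set A) : Set A)) f hxC, h0]
  rfl

theorem om_dz {f : MonoidAlgebra k A} (hf : IsDZ p (⊤ : Subgroup A) f) :
    zel k (om p : A → ℤ) * f = f := by
  classical
  have hone : (1 : MonoidAlgebra k A) ∈ fixAlg k (⊤ : Subgroup A) ⊤ := (fixAlg k _ _).one_mem
  have h2 : (zel k (om p : A → ℤ) - 1) * f = 0 := by
    refine sing_dz (p := p) hf ((fixAlg k (⊤ : Subgroup A) ⊤).sub_mem OmAux.om_mem hone) ?_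
    intro y hy
    rw [coeff_sub, Finsupp.sub_apply, zel_coeff]
    by_cases hy1 : y = 1
    · rw [hy1]
      have h1 : om p (1 : A) = 1 := by
        unfold om
        rw [if_pos (one_pow p)]
      rw [h1]
      simp [one_def]
    · have h1 : om p y = 0 := by
        unfold om
        rw [if_neg]
        intro hyp
        unfold Preg at hy
        have hd : orderOf y ∣ p := orderOf_dvd_of_pow_eq_one hyp
        rcases (Nat.dvd_prime (Fact.out : p.Prime)).1 hd with h3 | h3
        · exact hy1 (orderOf_eq_one_iff.1 h3)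
        · exact hy (by rw [h3])
      rw [h1]
      simp [one_def, Ne.symm hy1]
  rw [sub_mul, one_mul, sub_eq_zero] at h2
  exact h2

end

section
variable {p : ℕ} {k : Type*} [Field k] {A : Type*} [Group A] [Fintype A]
variable [Fact p.Prime] [CharP k p] [IsAlgClosed k]

theorem trE_om {z : MonoidAlgebra k A} (hz : z ∈ fixAlg k (⊤ : Subgroup A) ⊤) :
    trE k (⊤ : Subgroup A) (fun x => (hpe p k A * z).coeff x)
      = trE k (⊤ : Subgroup A) (fun x => (zel k (om p : A → ℤ) * z).coeff x) := by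
  classical
  have hone : (1 : MonoidAlgebra k A) ∈ fixAlg k (⊤ : Subgroup A) ⊤ := (fixAlg k _ _).one_mem
  have hfin : {b : MonoidAlgebra k A | IsBlock (⊤ : Subgroup A) b ∧ b * 1 ≠ 0}.Finite :=
    (finite_isBlock (k := k) (⊤ : Subgroup A)).subset (fun b hb => hb.1)
  have hB : ∀ b, b ∈ hfin.toFinset ↔ IsBlock (⊤ : Subgroup A) b ∧ b * 1 ≠ 0 := by
    intro b
    rw [Set.Finite.mem_toFinset]
    rfl
  generalize hfin.toFinset = B at hB
  have hsum : ∑ b ∈ B, b = 1 := WSumAux.sum_blocks (p := p) hone (one_mul 1) B hB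
  have hom : zel k (om p : A → ℤ) ∈ fixAlg k (⊤ : Subgroup A) ⊤ := OmAux.om_mem
  have e1 : hpe p k A * z = ∑ b ∈ B, hpe p k A * z * b := by
    rw [← Finset.mul_sum, hsum, mul_one]
  have e2 : zel k (om p : A → ℤ) * z = ∑ b ∈ B, zel k (om p : A → ℤ) * z * b := by
    rw [← Finset.mul_sum, hsum, mul_one]
  have key : ∀ b ∈ B, trE k (⊤ : Subgroup A) (fun x => (hpe p k A * z * b).coeff x)
      = trE k (⊤ : Subgroup A) (fun x => (zel k (om p : A → ℤ) * z * b).coeff x) := by
    intro b hb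
    obtain ⟨hb1, _⟩ := (hB b).1 hb
    have hzb : z * b = b * z := commute_of (mem_fixAlg.1 hz).1 (mem_fixAlg.1 hb1.mem).2
    have e3 : hpe p k A * z * b = hpe p k A * b * z := by
      rw [mul_assoc, hzb, ← mul_assoc]
    have e4 : zel k (om p : A → ℤ) * z * b = zel k (om p : A → ℤ) * b * z := by
      rw [mul_assoc, hzb, ← mul_assoc]
    by_cases hdz : IsDZ p (⊤ : Subgroup A) b
    · rw [e3, e4, hpe_mul_dz hdz, om_dz hdz]
    · have hhb : hpe p k A * b ∈ fixAlg k (⊤ : Subgroup A) ⊤ :=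
        (fixAlg k (⊤ : Subgroup A) ⊤).mul_mem hpe_mem hb1.mem
      have hob : zel k (om p : A → ℤ) * b ∈ fixAlg k (⊤ : Subgroup A) ⊤ :=
        (fixAlg k (⊤ : Subgroup A) ⊤).mul_mem hom hb1.mem
      have hm1 : hpe p k A * b * z ∈ fixAlg k (⊤ : Subgroup A) ⊤ :=
        (fixAlg k (⊤ : Subgroup A) ⊤).mul_mem hhb hz
      have hm2 : zel k (om p : A → ℤ) * b * z ∈ fixAlg k (⊤ : Subgroup A) ⊤ :=
        (fixAlg k (⊤ : Subgroup A) ⊤).mul_mem hob hz
      have hc1 : Commute (hpe p k A * b) z :=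
        commute_of (mem_fixAlg.1 hhb).1 (mem_fixAlg.1 hz).2
      have hc2 : Commute (zel k (om p : A → ℤ) * b) z :=
        commute_of (mem_fixAlg.1 hob).1 (mem_fixAlg.1 hz).2
      have hn1 : IsNilpotent (hpe p k A * b * z) := hc1.isNilpotent_mul_right (hpe_nonDZ hb1 hdz)
      have hn2 : IsNilpotent (zel k (om p : A → ℤ) * b * z) :=
        hc2.isNilpotent_mul_right (om_nonDZ hb1 hdz)
      rw [e3, e4, trE_nilpotent (p := p) (mem_fixAlg.1 hm1).1 (mem_fixAlg.1 hm1).2 hn1,
        trE_nilpotent (p := p) (mem_fixAlg.1 hm2).1 (mem_fixAlg.1 hm2).2 hn2]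
  calc trE k (⊤ : Subgroup A) (fun x => (hpe p k A * z).coeff x)
      = trE k (⊤ : Subgroup A) (fun x => (∑ b ∈ B, hpe p k A * z * b).coeff x) := by rw [← e1]
    _ = ∑ b ∈ B, trE k (⊤ : Subgroup A) (fun x => (hpe p k A * z * b).coeff x) :=
        TDzBAux.trE_sum _ _ _
    _ = ∑ b ∈ B, trE k (⊤ : Subgroup A) (fun x => (zel k (om p : A → ℤ) * z * b).coeff x) :=
        Finset.sum_congr rfl key
    _ = trE k (⊤ : Subgroup A) (fun x => (∑ b ∈ B, zel k (om p : A → ℤ) * z * b).coeff x) :=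
        (TDzBAux.trE_sum _ _ _).symm
    _ = trE k (⊤ : Subgroup A) (fun x => (zel k (om p : A → ℤ) * z).coeff x) := by rw [← e2]

end

end Pool.Agent.Lib.P0c8ca5.Gs
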