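import Mathlib
import Pool.Agent.Lib.P0c8ca5V.R2b
import Pool.Agent.Lib.P0c8ca5V.TCnt
import Pool.Agent.Lib.P0c8ca5Gs.Om

/-!
# Cv: convolution and the number of pairs

PROOF. `zel_cvl`: the coefficients of a product in the group algebra (`coeff_mul_fin` or similar; finite sums). `CF_cvl`: substitute `y ↦ g y g⁻¹`. `nE_cvP`: let `k = ZMod p`, `M = MT ⊤ (zel k f)` the matrix of P0c8ca5V.R2b (R2bAux): `trE k ⊤ (coefficients of z) = trace (MT ⊤ z)`
(proof inside `trE_nilpotent`), `MT ⊤ (z ^ n) = (MT ⊤ z) ^ n` (from `MT_pow`, `MT_mulVec` applied to the indicator functions of the classes, see `MT_nilp`), `ZMod.trace_pow_card : trace (M ^ p) = trace M ^ p`, `ZMod.pow_card`. By `nE_trE` (any field `k`)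
`nE ⊤ f = |A| t`, `(t : ZMod p) = trace M`, `nE ⊤ (cvP f p) = |A| t'`, `(t' : ZMod p) = trace (M ^ p) = trace M`, so `p ∣ t' - t` (`ZMod.intCast_eq_intCast_iff_dvd_sub` or `CharP.intCast_eq_zero_iff`).
`nE_om`: `k = AlgebraicClosure (ZMod p)`, `nA_trE` (P0c8ca5V.TCnt), `nE_trE`, `trE_om`, `zel_cvl`; as `nA_pf` in P0c8ca5Bx.ABa.
-/

namespace Pool.Agent.Lib.P0c8ca5.Gs

open MonoidAlgebra Bx

variable {A : Type*} [Group A] [Finite A]

namespace CvAux

theorem cast_sum {ι : Type*} (k : Type*) [Field k] (s : Finset ι) (f : ι → ℤ) :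
    ((∑ i ∈ s, f i : ℤ) : k) = ∑ i ∈ s, ((f i : ℤ) : k) := Int.cast_sum s f

/-- the matrix of a power -/
theorem MT_zpow {k : Type*} [Field k] [Fintype A] {H : Subgroup A}
    [Fintype (Cl H (fun x => x ∈ H))] [DecidableEq (Cl H (fun x => x ∈ H))]
    {z : MonoidAlgebra k A} (hz : SuppIn H z) (hinv : InvBy H z) (n : ℕ)
    (hzn : SuppIn H (z ^ n)) :
    R2bAux.MT H (z ^ n) = (R2bAux.MT H z) ^ n := by
  classical
  ext X Y
  set f : A → k := fun x => if h : x ∈ H then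
    (if (Quotient.mk (clSetoid H (fun x => x ∈ H)) ⟨x, h⟩) = Y then (1 : k) else 0) else 0 with hf
  have hCF : R2bAux.CF H f := by
    refine ⟨fun x hx => dif_neg hx, fun h hh x => ?_⟩
    by_cases hx : x ∈ H
    · have hx' : h * x * h⁻¹ ∈ H := H.mul_mem (H.mul_mem hh hx) (H.inv_mem hh)
      simp only [hf]
      rw [dif_pos hx, dif_pos hx']
      have e : Quotient.mk (clSetoid H (fun x => x ∈ H)) ⟨h * x * h⁻¹, hx'⟩
          = Quotient.mk _ ⟨x, hx⟩ := (Quotient.sound ⟨h, hh, rfl⟩ :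
            Quotient.mk (clSetoid H (fun x => x ∈ H)) ⟨x, hx⟩
              = Quotient.mk _ ⟨h * x * h⁻¹, hx'⟩).symm
      rw [e]
    · have hx' : h * x * h⁻¹ ∉ H := by
        intro h1
        apply hx
        have := H.mul_mem (H.mul_mem (H.inv_mem hh) h1) hh
        have e : h⁻¹ * (h * x * h⁻¹) * h = x := by group
        rwa [e] at this
      simp only [hf]
      rw [dif_neg hx, dif_neg hx']
  have h1 := congrFun (R2bAux.MT_pow hz hinv n hCF) X
  have h3 := congrFun (R2bAux.MT_mulVec hzn hCF) X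
  have h2 : (fun Z : Cl H (fun x => x ∈ H) => f (Z.out : A)) = Pi.single Y 1 := by
    funext Z
    simp only [hf]
    rw [dif_pos Z.out.2]
    have e : Quotient.mk (clSetoid H (fun x => x ∈ H)) ⟨(Z.out : A), Z.out.2⟩ = Z :=
      Quotient.out_eq Z
    rw [e, Pi.single_apply]
  rw [h2, Matrix.mulVec_single_one] at h1 h3
  exact h3.trans h1.symm

open Classical in
theorem trE_MT {k : Type*} [Field k] [Fintype A] (H : Subgroup A)
    [Fintype (Cl H (fun x => x ∈ H))] (z : MonoidAlgebra k A) :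
    trE k H (fun y => z.coeff y) = (R2bAux.MT H z).trace := by
  unfold trE Matrix.trace
  rw [finsum_eq_sum_of_fintype]
  refine Finset.sum_congr rfl fun X _ => ?_
  rw [Matrix.diag_apply]
  unfold R2bAux.MT
  rfl

end CvAux

theorem zel_cvl (k : Type*) [Field k] (f g : A → ℤ) :
    zel k (cvl f g) = zel k f * zel k g := by
  cases nonempty_fintype A
  ext x
  rw [zel_coeff, coeff_mul_fin]
  unfold cvl
  rw [finsum_eq_sum_of_fintype, CvAux.cast_sum]
  refine Finset.sum_congr rfl fun y _ => ?_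
  rw [zel_coeff, zel_coeff, Int.cast_mul]

theorem zel_dl (k : Type*) [Field k] : zel k (dl : A → ℤ) = 1 := by
  classical
  ext x
  rw [zel_coeff, MonoidAlgebra.one_def, coeff_single]
  unfold dl
  by_cases h : x = 1
  · rw [if_pos h, h, Finsupp.single_eq_same, Int.cast_one]
  · rw [if_neg h, Finsupp.single_eq_of_ne h, Int.cast_zero]

theorem zel_cvP (k : Type*) [Field k] (f : A → ℤ) (n : ℕ) :
    zel k (cvP f n) = (zel k f) ^ n := by
  induction n with
  | zero => rw [pow_zero]; exact zel_dl k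
  | succ n ih =>
    rw [pow_succ', ← ih]
    exact zel_cvl k f (cvP f n)

theorem CF_cvl {f g : A → ℤ} (hf : CF f) (hg : CF g) : CF (cvl f g) := by
  intro a x
  cases nonempty_fintype A
  unfold cvl
  rw [finsum_eq_sum_of_fintype, finsum_eq_sum_of_fintype,
    ← Equiv.sum_comp (MulAut.conj a).toEquiv]
  refine Finset.sum_congr rfl fun y _ => ?_
  have e1 : (MulAut.conj a).toEquiv y = a * y * a⁻¹ := rfl
  have e2 : (a * y * a⁻¹)⁻¹ * (a * x * a⁻¹) = a * (y⁻¹ * x) * a⁻¹ := by group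
  rw [e1, e2, hf a, hg a]

theorem CF_dl : CF (dl : A → ℤ) := by
  classical
  intro a x
  unfold dl
  exact if_congr conj_eq_one_iff rfl rfl

theorem CF_cvP {f : A → ℤ} (hf : CF f) (n : ℕ) : CF (cvP f n) := by
  induction n with
  | zero => exact CF_dl
  | succ n ih => exact CF_cvl hf ih

theorem CF_om (p : ℕ) : CF (om p : A → ℤ) := by
  classical
  intro a x
  unfold om
  refine if_congr ?_ rfl rfl
  rw [conj_pow, conj_eq_one_iff]

theorem cvl_dl (f : A → ℤ) : cvl dl f = f := by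
  classical
  funext x
  unfold cvl
  rw [finsum_eq_single _ (1 : A)]
  · unfold dl
    rw [if_pos rfl, one_mul, inv_one, one_mul]
  · intro y hy
    unfold dl
    rw [if_neg hy, zero_mul]

theorem nE_cvP {p : ℕ} [Fact p.Prime] {f : A → ℤ} (hf : CF f) :
    (p : ℤ) * (Nat.card A : ℤ) ∣ nE (⊤ : Subgroup A) (cvP f p) - nE (⊤ : Subgroup A) f := by
  classical
  cases nonempty_fintype A
  let _ : Fintype (Cl (⊤ : Subgroup A) (fun x => x ∈ (⊤ : Subgroup A))) := Fintype.ofFinite _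
  obtain ⟨t, h1, h2⟩ := nE_trE (k := ZMod p) (⊤ : Subgroup A) (m := f) (fun h _ x => hf h x)
  obtain ⟨t', h3, h4⟩ := nE_trE (k := ZMod p) (⊤ : Subgroup A) (m := cvP f p)
    (fun h _ x => CF_cvP hf p h x)
  have hs : SuppIn (⊤ : Subgroup A) (zel (ZMod p) f) := fun x _ => Subgroup.mem_top x
  have hsn : SuppIn (⊤ : Subgroup A) (zel (ZMod p) f ^ p) := fun x _ => Subgroup.mem_top x
  have hi : InvBy (⊤ : Subgroup A) (zel (ZMod p) f) := (mem_fixAlg.1 (zel_mem hf)).2
  have h5 : (t : ZMod p) = (R2bAux.MT (⊤ : Subgroup A) (zel (ZMod p) f)).trace :=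
    h2.trans (CvAux.trE_MT (⊤ : Subgroup A) (zel (ZMod p) f))
  have h6 : (t' : ZMod p) = (R2bAux.MT (⊤ : Subgroup A) (zel (ZMod p) (cvP f p))).trace :=
    h4.trans (CvAux.trE_MT (⊤ : Subgroup A) (zel (ZMod p) (cvP f p)))
  rw [zel_cvP, CvAux.MT_zpow hs hi p hsn, ZMod.trace_pow_card, ZMod.pow_card, ← h5] at h6
  have h7 : (p : ℤ) ∣ t' - t := by
    rw [← ZMod.intCast_zmod_eq_zero_iff_dvd, Int.cast_sub, h6, sub_self]
  obtain ⟨c, hc⟩ := h7
  rw [h1, h3, Subgroup.card_top, ← mul_sub, hc]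
  exact ⟨c, by ring⟩

theorem nE_om {p : ℕ} [Fact p.Prime] {m : A → ℤ} (hm : IsWt p ⊤ m) :
    (p : ℤ) * (Nat.card A : ℤ) ∣ nE (⊤ : Subgroup A) (cvl (om p) m)
      - nA p (⊤ : Subgroup A) m := by
  classical
  cases nonempty_fintype A
  have hc : CF m := CF_of_wt hm
  obtain ⟨t, h1, h2⟩ := nA_trE (k := AlgebraicClosure (ZMod p)) (p := p) hc
  obtain ⟨t', h3, h4⟩ := nE_trE (k := AlgebraicClosure (ZMod p)) (⊤ : Subgroup A)
    (m := cvl (om p) m) (fun h _ x => CF_cvl (CF_om p) hc h x)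
  have h5 := trE_om (p := p) (k := AlgebraicClosure (ZMod p)) (z := zel _ m) (zel_mem hc)
  have h6 : ((t' - t : ℤ) : AlgebraicClosure (ZMod p)) = 0 := by
    rw [Int.cast_sub, h2, h4, h5, sub_eq_zero, ← zel_cvl]
    rfl
  have h7 : (p : ℤ) ∣ t' - t := (CharP.intCast_eq_zero_iff (AlgebraicClosure (ZMod p)) p _).1 h6
  obtain ⟨c, hc'⟩ := h7
  rw [h1, h3, Subgroup.card_top, ← mul_sub, hc']
  exact ⟨c, by ring⟩

end Pool.Agent.Lib.P0c8ca5.Gs
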