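import Mathlib
import Pool.Agent.Lib.P0c8ca5Gs.Cv
import Pool.Agent.Lib.P0c8ca5Gs.TA

/-!
# Tor2: the tuples for `p = 2` and pairs

The tuples with nonzero weight: `t (0, 0) = a`, `t (0, 1) = a⁻¹`, `t (1, 0) = b`, `t (1, 1) = b⁻¹`, `t (2, 0) = c`, `t (2, 1) = c⁻¹`, `t (3, j) = u j`; `N = cvl w m`. For fixed `a, b, c` the sum over `u 0, u 1` is
`N W0⁻¹ * N W1⁻¹` with `W0 = a⁻¹ * b * c⁻¹`, `W1 = a * b⁻¹ * c` (`∑ u, w u * m (V u)⁻¹ = cvl w m V⁻¹`). With `g = b⁻¹ * a`: `W1 * (g * W0 * g⁻¹) = a * b⁻¹ * a⁻¹ * b = cmt a b⁻¹`. So for fixed `a, b` the map `c ↦ z = g * W0⁻¹ * g⁻¹ = b⁻¹ * a * c` is a bijection,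
`z⁻¹ * (cmt a b⁻¹)⁻¹ = W1⁻¹`; `N` is a class function (`CF_cvl`), so the sum over `c` is `cvl N N (cmt a b⁻¹)⁻¹ = cvP N 2 (cmt a b⁻¹)⁻¹` (`cvP N 2 = cvl N (cvl N dl)`, `cvl N dl = N`).
Sum over `a` and `b⁻¹`: `nE ⊤ (cvP N 2)`.
-/

namespace Pool.Agent.Lib.P0c8ca5.Gs

open MonoidAlgebra Bx

variable {A : Type*} [Group A] [Finite A]

namespace Tor2Aux

theorem cvl_dl_right (f : A → ℤ) : cvl f dl = f := by
  classical
  have := Fintype.ofFinite A
  funext x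
  unfold cvl dl
  rw [finsum_eq_sum_of_fintype, Finset.sum_eq_single x]
  · simp
  · intro y _ hy
    have h1 : y⁻¹ * x ≠ 1 := by
      intro h2
      exact hy (inv_mul_eq_one.1 h2)
    rw [if_neg h1, mul_zero]
  · intro h1
    exact absurd (Finset.mem_univ x) h1

theorem cvP_two (f : A → ℤ) : cvP f 2 = cvl f f := by
  have h1 : cvP f 2 = cvl f (cvl f dl) := rfl
  rw [h1, cvl_dl_right]

theorem cvl_sum [Fintype A] (f g : A → ℤ) (x : A) : cvl f g x = ∑ y, f y * g (y⁻¹ * x) := by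
  unfold cvl
  rw [finsum_eq_sum_of_fintype]

theorem prod2 (f : ZMod 2 → ℤ) : ∏ j, f j = f 0 * f 1 := Fin.prod_univ_two f

/-- the tuple with the components `a, a⁻¹, b, b⁻¹, c, c⁻¹, u, v` -/
def tup (s : A × A × A × A × A) : Fin 4 × ZMod 2 → A := fun i =>
  if i.2 = 0 then ![s.1, s.2.1, s.2.2.1, s.2.2.2.1] i.1
  else ![s.1⁻¹, s.2.1⁻¹, s.2.2.1⁻¹, s.2.2.2.2] i.1

omit [Finite A] in
theorem tup_injective : Function.Injective (tup : A × A × A × A × A → Fin 4 × ZMod 2 → A) := by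
  rintro ⟨a, b, c, u, v⟩ ⟨a', b', c', u', v'⟩ h
  have h1 : a = a' := by
    have := congrFun h (0, 0)
    simpa [tup] using this
  have h2 : b = b' := by
    have := congrFun h (1, 0)
    simpa [tup] using this
  have h3 : c = c' := by
    have := congrFun h (2, 0)
    simpa [tup] using this
  have h4 : u = u' := by
    have := congrFun h (3, 0)
    simpa [tup] using this
  have h5 : v = v' := by
    have := congrFun h (3, 1)
    simpa [tup] using this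
  rw [h1, h2, h3, h4, h5]

omit [Finite A] in
theorem tup_surj {t : Fin 4 × ZMod 2 → A} (h : t (0, 0) * t (0, 1) = 1 ∧ t (1, 0) * t (1, 1) = 1 ∧
    t (2, 0) * t (2, 1) = 1) : t ∈ Set.range (tup : A × A × A × A × A → Fin 4 × ZMod 2 → A) := by
  obtain ⟨h0, h1, h2⟩ := h
  refine ⟨(t (0, 0), t (1, 0), t (2, 0), t (3, 0), t (3, 1)), ?_⟩
  have e0 : (t (0, 0))⁻¹ = t (0, 1) := inv_eq_of_mul_eq_one_right h0
  have e1 : (t (1, 0))⁻¹ = t (1, 1) := inv_eq_of_mul_eq_one_right h1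
  have e2 : (t (2, 0))⁻¹ = t (2, 1) := inv_eq_of_mul_eq_one_right h2
  funext ⟨k, j⟩
  unfold tup
  simp only [e0, e1, e2]
  have hj : j = 0 ∨ j = 1 := by
    revert j
    decide
  rcases hj with hj | hj
  · subst hj
    rw [if_pos rfl]
    fin_cases k <;> rfl
  · subst hj
    rw [if_neg (by decide)]
    fin_cases k <;> rfl

omit [Finite A] in
theorem W2_tup (w m : A → ℤ) (a b c u v : A) : W2 w m (tup (a, b, c, u, v)) =
    (w u * m (u⁻¹ * (c * b⁻¹ * a))) * (w v * m (v⁻¹ * (c⁻¹ * b * a⁻¹))) := by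
  have h0 : (1 : ZMod 2) + 1 = 0 := rfl
  have h1 : (0 : ZMod 2) + 1 = 1 := rfl
  have t00 : tup (a, b, c, u, v) (0, 0) = a := by simp [tup]
  have t01 : tup (a, b, c, u, v) (0, 1) = a⁻¹ := by simp [tup]
  have t10 : tup (a, b, c, u, v) (1, 0) = b := by simp [tup]
  have t11 : tup (a, b, c, u, v) (1, 1) = b⁻¹ := by simp [tup]
  have t20 : tup (a, b, c, u, v) (2, 0) = c := by simp [tup]
  have t21 : tup (a, b, c, u, v) (2, 1) = c⁻¹ := by simp [tup]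
  have t30 : tup (a, b, c, u, v) (3, 0) = u := by simp [tup]
  have t31 : tup (a, b, c, u, v) (3, 1) = v := by simp [tup]
  unfold W2
  rw [prod2, h0, h1, t00, t01, t10, t11, t20, t21, t30, t31]
  rw [if_pos ⟨mul_inv_cancel a, mul_inv_cancel b, mul_inv_cancel c⟩]
  have e1 : (a⁻¹ * b * c⁻¹ * u)⁻¹ = u⁻¹ * (c * b⁻¹ * a) := by group
  have e2 : (a * b⁻¹ * c * v)⁻¹ = v⁻¹ * (c⁻¹ * b * a⁻¹) := by group
  rw [e1, e2]

end Tor2Aux

open Tor2Aux

theorem nT_W2 {w m : A → ℤ} (hw : CF w) (hm : CF m) :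
    nT (⊤ : Subgroup A) (W2 w m) = nE (⊤ : Subgroup A) (cvP (cvl w m) 2) := by
  classical
  have := Fintype.ofFinite A
  have hN : CF (cvl w m) := CF_cvl hw hm
  have hL : nT (⊤ : Subgroup A) (W2 w m) =
      ∑ a : A, ∑ b : A, ∑ c : A, cvl w m (c * b⁻¹ * a) * cvl w m (c⁻¹ * b * a⁻¹) := by
    unfold nT
    rw [finsum_eq_sum_of_fintype]
    have h1 : ∀ t : Fin 4 × ZMod 2 → A,
        (if gT t ≤ (⊤ : Subgroup A) then W2 w m t else 0) = W2 w m t := fun t => if_pos le_top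
    simp only [h1]
    rw [← Fintype.sum_of_injective tup tup_injective
      (fun s : A × A × A × A × A => W2 w m (tup s)) (fun t => W2 w m t) ?_ (fun _ => rfl)]
    · simp only [Fintype.sum_prod_type]
      refine Finset.sum_congr rfl (fun a _ => Finset.sum_congr rfl (fun b _ =>
        Finset.sum_congr rfl (fun c _ => ?_)))
      rw [cvl_sum, cvl_sum, Finset.sum_mul_sum]
      refine Finset.sum_congr rfl (fun u _ => Finset.sum_congr rfl (fun v _ => ?_))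
      rw [W2_tup]
    · intro t ht
      unfold W2
      rw [if_neg (fun h2 => ht (tup_surj h2))]
  have hR : nE (⊤ : Subgroup A) (cvP (cvl w m) 2) =
      ∑ x : A, ∑ y : A, ∑ z : A, cvl w m z * cvl w m (z⁻¹ * (cmt x y)⁻¹) := by
    unfold nE
    rw [finsum_eq_sum_of_fintype, Fintype.sum_prod_type]
    refine Finset.sum_congr rfl (fun x _ => Finset.sum_congr rfl (fun y _ => ?_))
    rw [if_pos ⟨Subgroup.mem_top _, Subgroup.mem_top _⟩, cvP_two, cvl_sum]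
  rw [hL, hR]
  refine Finset.sum_congr rfl (fun a _ => ?_)
  rw [← Equiv.sum_comp (Equiv.inv A)
    (fun y => ∑ z : A, cvl w m z * cvl w m (z⁻¹ * (cmt a y)⁻¹))]
  refine Finset.sum_congr rfl (fun b _ => ?_)
  rw [← Equiv.sum_comp (Equiv.mulLeft (b⁻¹ * a))
    (fun z => cvl w m z * cvl w m (z⁻¹ * (cmt a ((Equiv.inv A) b))⁻¹))]
  refine Finset.sum_congr rfl (fun c _ => ?_)
  have e1 : cvl w m (c * b⁻¹ * a) = cvl w m (b⁻¹ * a * c) := by
    rw [← hN (b⁻¹ * a) (c * b⁻¹ * a)]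
    congr 1
    group
  have e2 : c⁻¹ * b * a⁻¹ = (b⁻¹ * a * c)⁻¹ * (cmt a b⁻¹)⁻¹ := by
    unfold cmt
    group
  rw [e1, e2]
  rfl

end Pool.Agent.Lib.P0c8ca5.Gs
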