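import Mathlib
import Pool.Agent.Lib.P0c8ca5Gs.Cv
import Pool.Agent.Lib.P0c8ca5Gs.TA

/-!
# Tor3: the tuples for `p = 3` and pairs

PROOF. Write `A j = t (0, j)`, `B j = t (1, j)`, `u j = t (2, j)`; `A 0 * A 1 * A 2 = 1 = B 0 * B 1 * B 2`, `N = cvl w m`. For fixed `A, B` the sum over `u` of the product is `∏ j, N (V j)⁻¹` with `V j = A (j + 1) * B (j + 2)`
(`Finset.prod_univ_sum` / distributivity over the three values; `∑ u, w u * m (V u)⁻¹ = cvl w m V⁻¹` by definition). With `W0 = V 2 = A 0 * B 1`, `W1 = V 0 = A 1 * B 2`, `W2 = V 1 = A 2 * B 0` and `B 1 = (B 0)⁻¹ (B 2)⁻¹`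
one has `W0 * (g W1 g⁻¹) * (h W2 h⁻¹) = (B 2 * B 0 * (B 2)⁻¹ * (B 0)⁻¹)⁻¹` with `g = B 2 * B 0`, `h = B 2 * B 0 * (B 2)⁻¹` (use `A 0 A 1 A 2 = 1`). So for fixed `a = B 0`, `b = B 2` the map `(A 0, A 1) ↦ (x2, x1) = (W0⁻¹, (g W1 g⁻¹)⁻¹)`
is a bijection of `A × A`, and with `x0 = (h W2 h⁻¹)⁻¹`: `x0 * x1 * x2 = B 2 * B 0 * (B 2)⁻¹ * (B 0)⁻¹ = (cmt a b)⁻¹`; `N` is a class function (`CF_cvl`), so the product is `N x0 * N x1 * N x2`, and the sum over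
`(x1, x2)` is `cvP N 3 (cmt a b)⁻¹` (expand `cvP N 3 = cvl N (cvl N (cvl N dl))`, reindex; `cvl N dl = N`). Sum over `a, b`: `nE ⊤ (cvP N 3)`.
-/

namespace Pool.Agent.Lib.P0c8ca5.Gs

open MonoidAlgebra Bx

variable {A : Type*} [Group A] [Finite A]

namespace Tor3Aux

theorem cvl_eq [Fintype A] (f g : A → ℤ) (x : A) :
    cvl f g x = ∑ y : A, f y * g (y⁻¹ * x) := by
  unfold cvl
  rw [finsum_eq_sum_of_fintype]

theorem cvl_dl_right (f : A → ℤ) : cvl f dl = f := by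
  have : Fintype A := Fintype.ofFinite A
  classical
  funext x
  rw [cvl_eq]
  unfold dl
  rw [Finset.sum_eq_single x]
  · simp
  · intro y _ hy
    rw [if_neg, mul_zero]
    intro h
    exact hy (inv_mul_eq_one.1 h)
  · intro h
    exact absurd (Finset.mem_univ x) h

/-- three values -/
def e3 (A : Type*) : (ZMod 3 → A) ≃ A × A × A where
  toFun f := (f 0, f 1, f 2)
  invFun p := (![p.1, p.2.1, p.2.2] : Fin 3 → A)
  left_inv f := by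
    funext j
    change (![f 0, f 1, f 2] : Fin 3 → A) j = f j
    revert j
    change ∀ j : Fin 3, (![f 0, f 1, f 2] : Fin 3 → A) j = f j
    intro j
    fin_cases j <;> rfl
  right_inv p := by
    obtain ⟨x, y, z⟩ := p
    rfl

/-- three tuples -/
def eT (A : Type*) : (Fin 3 × ZMod 3 → A) ≃ (ZMod 3 → A) × (ZMod 3 → A) × (ZMod 3 → A) where
  toFun t := (fun j => t (0, j), fun j => t (1, j), fun j => t (2, j))
  invFun p := fun i => (![p.1, p.2.1, p.2.2] : Fin 3 → ZMod 3 → A) i.1 i.2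
  left_inv t := by
    funext i
    obtain ⟨i, j⟩ := i
    fin_cases i <;> rfl
  right_inv p := by
    obtain ⟨x, y, z⟩ := p
    rfl

theorem prod3 (f : ZMod 3 → ℤ) : ∏ j : ZMod 3, f j = f 0 * f 1 * f 2 :=
  Fin.prod_univ_three f

/-- the sum over the last components -/
theorem sum_u [Fintype A] (w m : A → ℤ) (V : ZMod 3 → A) :
    ∑ u : ZMod 3 → A, ∏ j : ZMod 3, (w (u j) * m (V j * u j)⁻¹) =
      ∏ j : ZMod 3, cvl w m (V j)⁻¹ := by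
  classical
  have h := (Finset.prod_univ_sum (fun _ : ZMod 3 => (Finset.univ : Finset A))
    (fun j x => w x * m (V j * x)⁻¹)).symm
  rw [Fintype.piFinset_univ] at h
  rw [h]
  refine Finset.prod_congr rfl fun j _ => ?_
  rw [cvl_eq]
  refine Finset.sum_congr rfl fun x _ => ?_
  rw [mul_inv_rev]

/-- the sum over `A 0`, `A 1` for fixed `a = B 0`, `b = B 2` -/
theorem sum_ab [Fintype A] {N : A → ℤ} (hN : CF N) (a b : A) :
    ∑ x : A, ∑ y : A, (N (y * b)⁻¹ * N ((x * y)⁻¹ * a)⁻¹ * N (x * (a⁻¹ * b⁻¹))⁻¹) =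
      cvP N 3 (cmt a b)⁻¹ := by
  classical
  have e1 : cvP N 3 (cmt a b)⁻¹ = ∑ y1 : A, ∑ y2 : A,
      N y1 * (N y2 * N (y2⁻¹ * (y1⁻¹ * (cmt a b)⁻¹))) := by
    have h0 : cvP N 3 = cvl N (cvl N (cvl N dl)) := rfl
    rw [h0, cvl_dl_right, cvl_eq]
    refine Finset.sum_congr rfl fun y1 _ => ?_
    rw [cvl_eq, Finset.mul_sum]
  rw [e1, Finset.sum_comm, Finset.sum_comm (f := fun y1 y2 : A =>
    N y1 * (N y2 * N (y2⁻¹ * (y1⁻¹ * (cmt a b)⁻¹))))]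
  -- the bijection for `y`
  refine Fintype.sum_equiv (((Equiv.inv A).trans (Equiv.mulLeft (b * a * b⁻¹))).trans
    (Equiv.mulRight (a⁻¹ * b⁻¹))) _ _ fun y => ?_
  refine Fintype.sum_equiv (((Equiv.mulRight y).trans (Equiv.mulLeft (b * a * b⁻¹ * a⁻¹))).trans
    (Equiv.mulRight (b * a⁻¹ * b⁻¹))) _ _ fun x => ?_
  simp only [Equiv.trans_apply, Equiv.inv_apply, Equiv.coe_mulLeft, Equiv.coe_mulRight]
  have h1 : N (y * b)⁻¹ = N (b * a * b⁻¹ * y⁻¹ * (a⁻¹ * b⁻¹)) := by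
    rw [← hN (b * a) (y * b)⁻¹]
    congr 1
    group
  have h2 : N ((x * y)⁻¹ * a)⁻¹ = N (b * a * b⁻¹ * a⁻¹ * (x * y) * (b * a⁻¹ * b⁻¹)) := by
    rw [← hN (b * a * b⁻¹) ((x * y)⁻¹ * a)⁻¹]
    congr 1
    group
  have h3 : (x * (a⁻¹ * b⁻¹))⁻¹ = (b * a * b⁻¹ * y⁻¹ * (a⁻¹ * b⁻¹))⁻¹ *
      ((b * a * b⁻¹ * a⁻¹ * (x * y) * (b * a⁻¹ * b⁻¹))⁻¹ * (cmt a b)⁻¹) := by
    unfold cmt
    group
  rw [h1, h2, ← h3]
  ring

end Tor3Aux

open Tor3Aux in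
theorem nT_W3 {w m : A → ℤ} (hw : CF w) (hm : CF m) :
    nT (⊤ : Subgroup A) (W3 w m) = nE (⊤ : Subgroup A) (cvP (cvl w m) 3) := by
  have : Fintype A := Fintype.ofFinite A
  classical
  have hN : CF (cvl w m) := CF_cvl hw hm
  unfold nT nE
  rw [finsum_eq_sum_of_fintype, finsum_eq_sum_of_fintype]
  -- left hand side
  have l1 : ∑ t : Fin 3 × ZMod 3 → A, (if gT t ≤ (⊤ : Subgroup A) then W3 w m t else 0) =
      ∑ p : (ZMod 3 → A) × (ZMod 3 → A) × (ZMod 3 → A), (if p.1 0 * p.1 1 * p.1 2 = 1 ∧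
        p.2.1 0 * p.2.1 1 * p.2.1 2 = 1 then
          ∏ j : ZMod 3, (w (p.2.2 j) * m (p.1 (j + 1) * p.2.1 (j + 2) * p.2.2 j)⁻¹) else 0) := by
    refine Fintype.sum_equiv (Tor3Aux.eT A) _ _ fun t => ?_
    rw [if_pos le_top]
    rfl
  have l2 : ∀ f : (ZMod 3 → A) × (ZMod 3 → A) → (ZMod 3 → A) → ℤ,
      ∑ p : (ZMod 3 → A) × (ZMod 3 → A) × (ZMod 3 → A), f (p.1, p.2.1) p.2.2 =
        ∑ α : ZMod 3 → A, ∑ β : ZMod 3 → A, ∑ u : ZMod 3 → A, f (α, β) u := by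
    intro f
    rw [Fintype.sum_prod_type]
    refine Finset.sum_congr rfl fun α _ => ?_
    rw [Fintype.sum_prod_type]
  rw [l1, l2 (fun q u => if q.1 0 * q.1 1 * q.1 2 = 1 ∧ q.2 0 * q.2 1 * q.2 2 = 1 then
    ∏ j : ZMod 3, (w (u j) * m (q.1 (j + 1) * q.2 (j + 2) * u j)⁻¹) else 0)]
  have l3 : ∀ α β : ZMod 3 → A, (∑ u : ZMod 3 → A,
      if α 0 * α 1 * α 2 = 1 ∧ β 0 * β 1 * β 2 = 1 then
        ∏ j : ZMod 3, (w (u j) * m (α (j + 1) * β (j + 2) * u j)⁻¹) else 0) =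
      if α 0 * α 1 * α 2 = 1 ∧ β 0 * β 1 * β 2 = 1 then
        cvl w m (α 1 * β 2)⁻¹ * cvl w m (α 2 * β 0)⁻¹ * cvl w m (α 0 * β 1)⁻¹ else 0 := by
    intro α β
    by_cases hc : α 0 * α 1 * α 2 = 1 ∧ β 0 * β 1 * β 2 = 1
    · simp only [if_pos hc]
      rw [sum_u w m (fun j => α (j + 1) * β (j + 2)), prod3]
      rfl
    · simp only [if_neg hc, Finset.sum_const_zero]
  simp only [l3]
  -- reindex
  have l4 : (∑ α : ZMod 3 → A, ∑ β : ZMod 3 → A,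
      if α 0 * α 1 * α 2 = 1 ∧ β 0 * β 1 * β 2 = 1 then
        cvl w m (α 1 * β 2)⁻¹ * cvl w m (α 2 * β 0)⁻¹ * cvl w m (α 0 * β 1)⁻¹ else 0) =
      ∑ x : A × A × A, ∑ y : A × A × A,
      if x.1 * x.2.1 * x.2.2 = 1 ∧ y.1 * y.2.1 * y.2.2 = 1 then
        cvl w m (x.2.1 * y.2.2)⁻¹ * cvl w m (x.2.2 * y.1)⁻¹ * cvl w m (x.1 * y.2.1)⁻¹ else 0 := by
    refine Fintype.sum_equiv (e3 A) _ _ fun α => ?_
    exact Fintype.sum_equiv (e3 A) _ _ fun β => rfl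
  rw [l4]
  simp only [Fintype.sum_prod_type]
  have l5 : ∀ x0 x1 : A, (∑ x2 : A, ∑ y0 : A, ∑ y1 : A, ∑ y2 : A,
      if x0 * x1 * x2 = 1 ∧ y0 * y1 * y2 = 1 then
        cvl w m (x1 * y2)⁻¹ * cvl w m (x2 * y0)⁻¹ * cvl w m (x0 * y1)⁻¹ else 0) =
      ∑ y0 : A, ∑ y2 : A, cvl w m (x1 * y2)⁻¹ * cvl w m ((x0 * x1)⁻¹ * y0)⁻¹ *
        cvl w m (x0 * (y0⁻¹ * y2⁻¹))⁻¹ := by
    intro x0 x1
    rw [Finset.sum_eq_single (x0 * x1)⁻¹]
    · refine Finset.sum_congr rfl fun y0 _ => ?_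
      rw [Finset.sum_comm]
      refine Finset.sum_congr rfl fun y2 _ => ?_
      rw [Finset.sum_eq_single (y0⁻¹ * y2⁻¹)]
      · rw [if_pos]
        constructor
        · group
        · group
      · intro y1 _ hy
        rw [if_neg]
        rintro ⟨-, h2⟩
        apply hy
        have h3 : y1 = y0⁻¹ * (y0 * y1 * y2) * y2⁻¹ := by group
        rw [h3, h2, mul_one]
      · intro h
        exact absurd (Finset.mem_univ _) h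
    · intro x2 _ hx
      refine Finset.sum_eq_zero fun y0 _ => Finset.sum_eq_zero fun y1 _ =>
        Finset.sum_eq_zero fun y2 _ => ?_
      rw [if_neg]
      rintro ⟨h1, -⟩
      exact hx (eq_inv_of_mul_eq_one_right h1)
    · intro h
      exact absurd (Finset.mem_univ _) h
  simp only [l5]
  -- exchange the sums
  have l6 : (∑ x0 : A, ∑ x1 : A, ∑ y0 : A, ∑ y2 : A, cvl w m (x1 * y2)⁻¹ *
      cvl w m ((x0 * x1)⁻¹ * y0)⁻¹ * cvl w m (x0 * (y0⁻¹ * y2⁻¹))⁻¹) =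
      ∑ y0 : A, ∑ y2 : A, ∑ x0 : A, ∑ x1 : A, cvl w m (x1 * y2)⁻¹ *
      cvl w m ((x0 * x1)⁻¹ * y0)⁻¹ * cvl w m (x0 * (y0⁻¹ * y2⁻¹))⁻¹ := by
    calc _ = ∑ x0 : A, ∑ y0 : A, ∑ x1 : A, ∑ y2 : A, cvl w m (x1 * y2)⁻¹ *
          cvl w m ((x0 * x1)⁻¹ * y0)⁻¹ * cvl w m (x0 * (y0⁻¹ * y2⁻¹))⁻¹ :=
        Finset.sum_congr rfl fun x0 _ => Finset.sum_comm
      _ = ∑ y0 : A, ∑ x0 : A, ∑ x1 : A, ∑ y2 : A, cvl w m (x1 * y2)⁻¹ *
          cvl w m ((x0 * x1)⁻¹ * y0)⁻¹ * cvl w m (x0 * (y0⁻¹ * y2⁻¹))⁻¹ := Finset.sum_comm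
      _ = ∑ y0 : A, ∑ x0 : A, ∑ y2 : A, ∑ x1 : A, cvl w m (x1 * y2)⁻¹ *
          cvl w m ((x0 * x1)⁻¹ * y0)⁻¹ * cvl w m (x0 * (y0⁻¹ * y2⁻¹))⁻¹ :=
        Finset.sum_congr rfl fun y0 _ => Finset.sum_congr rfl fun x0 _ => Finset.sum_comm
      _ = _ := Finset.sum_congr rfl fun y0 _ => Finset.sum_comm
  rw [l6]
  refine Finset.sum_congr rfl fun a _ => Finset.sum_congr rfl fun b _ => ?_
  rw [sum_ab hN a b]
  simp

end Pool.Agent.Lib.P0c8ca5.Gs
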