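import Mathlib
import Pool.Agent.Lib.P0c8ca5Gs.Cv
import Pool.Agent.Lib.P0c8ca5Gs.TA

/-!
# Wt: properties of the weights of the tuples

PROOF. `CT`: conjugation by `g` of all components: the conditions are invariant, `w (g x g⁻¹) = w x`, the arguments of `m` are conjugated. `shf`: the conditions: `x * y * z = 1 ↔ y * z * x = 1`; the product over `j` is reindexed by `j ↦ j + 1`
(`Equiv.addRight`, `Fintype.prod_equiv`). `rsT`: coercions from `↥U` to `A`. `om`, `dl` restrict to `om`, `dl`. `S3_eq`, `S2_eq`: on the tuples with `t (2, j) = 1` for all `j` both weights agree (`om p 1 = 1 = dl 1`); otherwise `W3 dl m t = 0`.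
-/

namespace Pool.Agent.Lib.P0c8ca5.Gs

open MonoidAlgebra Bx

variable {A : Type*} [Group A]

namespace WtAux

theorem wcj3 (g a b c : A) :
    g * a * g⁻¹ * (g * b * g⁻¹) * (g * c * g⁻¹) = g * (a * b * c) * g⁻¹ := by group

theorem wcj3i (g a b c : A) :
    (g * a * g⁻¹ * (g * b * g⁻¹) * (g * c * g⁻¹))⁻¹ = g * (a * b * c)⁻¹ * g⁻¹ := by group

theorem wcj2 (g a b : A) : g * a * g⁻¹ * (g * b * g⁻¹) = g * (a * b) * g⁻¹ := by group

theorem wcj4i (g a b c d : A) :
    (g * a * g⁻¹ * (g * b * g⁻¹) * (g * c * g⁻¹) * (g * d * g⁻¹))⁻¹ =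
      g * (a * b * c * d)⁻¹ * g⁻¹ := by group

theorem CF_om' (p : ℕ) : CF (om p : A → ℤ) := by
  classical
  intro g x
  unfold om
  refine if_congr ?_ rfl rfl
  rw [conj_pow, conj_eq_one_iff]

theorem CF_dl' : CF (dl : A → ℤ) := by
  classical
  intro g x
  unfold dl
  exact if_congr conj_eq_one_iff rfl rfl

theorem ite_cg {P Q : Prop} {dP : Decidable P} {dQ : Decidable Q} (h : P ↔ Q) {a b c : ℤ}
    (hab : a = b) : @ite ℤ P dP a c = @ite ℤ Q dQ b c := by
  by_cases h1 : Q
  · rw [if_pos h1, if_pos (h.2 h1), hab]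
  · rw [if_neg h1, if_neg (fun h2 => h1 (h.1 h2))]

theorem rot3 (a b c : A) : b * c * a = 1 ↔ a * b * c = 1 := by
  constructor
  · intro h
    have h1 : a * b * c = a * (b * c * a) * a⁻¹ := by group
    rw [h1, h, mul_one, mul_inv_cancel]
  · intro h
    have h1 : b * c * a = a⁻¹ * (a * b * c) * a := by group
    rw [h1, h, mul_one, inv_mul_cancel]

theorem rot2 (a b : A) : b * a = 1 ↔ a * b = 1 := by
  constructor
  · intro h
    have h1 : a * b = a * (b * a) * a⁻¹ := by group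
    rw [h1, h, mul_one, mul_inv_cancel]
  · intro h
    have h1 : b * a = a⁻¹ * (a * b) * a := by group
    rw [h1, h, mul_one, inv_mul_cancel]

theorem W3_shf (w m : A → ℤ) (t : Fin 3 × ZMod 3 → A) : W3 w m (shf t) = W3 w m t := by
  classical
  have e0 : (0 : ZMod 3) + 1 = 1 := rfl
  have e1 : (1 : ZMod 3) + 1 = 2 := rfl
  have e2 : (2 : ZMod 3) + 1 = 0 := rfl
  unfold W3 shf
  refine if_congr ?_ ?_ rfl
  · simp only [e0, e1, e2]
    exact and_congr (rot3 _ _ _) (rot3 _ _ _)
  · refine Fintype.prod_equiv (Equiv.addRight (1 : ZMod 3)) _ _ fun j => ?_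
    simp only [Equiv.coe_addRight]
    rw [add_right_comm j 2 1]

theorem W2_shf (w m : A → ℤ) (t : Fin 4 × ZMod 2 → A) : W2 w m (shf t) = W2 w m t := by
  classical
  have e0 : (0 : ZMod 2) + 1 = 1 := rfl
  have e1 : (1 : ZMod 2) + 1 = 0 := rfl
  unfold W2 shf
  refine if_congr ?_ ?_ rfl
  · simp only [e0, e1]
    exact and_congr (rot2 _ _) (and_congr (rot2 _ _) (rot2 _ _))
  · refine Fintype.prod_equiv (Equiv.addRight (1 : ZMod 2)) _ _ fun j => ?_
    simp only [Equiv.coe_addRight]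

end WtAux

open WtAux

theorem CT_W3 {w m : A → ℤ} (hw : CF w) (hm : CF m) : CT (W3 w m) := by
  classical
  intro g t
  unfold W3 cjt
  refine if_congr ?_ ?_ rfl
  · rw [wcj3, wcj3, conj_eq_one_iff, conj_eq_one_iff]
  · refine Finset.prod_congr rfl fun j _ => ?_
    rw [wcj3i, hw, hm]

theorem CT_W2 {w m : A → ℤ} (hw : CF w) (hm : CF m) : CT (W2 w m) := by
  classical
  intro g t
  unfold W2 cjt
  refine if_congr ?_ ?_ rfl
  · rw [wcj2, wcj2, wcj2, conj_eq_one_iff, conj_eq_one_iff, conj_eq_one_iff]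
  · refine Finset.prod_congr rfl fun j _ => ?_
    rw [wcj4i, hw, hm]

theorem CT_S3 {m : A → ℤ} (hm : CF m) : CT (S3 m) := by
  intro g t
  unfold S3
  rw [CT_W3 (CF_om' 3) hm g t, CT_W3 CF_dl' hm g t]

theorem CT_S2 {m : A → ℤ} (hm : CF m) : CT (S2 m) := by
  intro g t
  unfold S2
  rw [CT_W2 (CF_om' 2) hm g t, CT_W2 CF_dl' hm g t]

theorem S3_shf (m : A → ℤ) (t : Fin 3 × ZMod 3 → A) : S3 m (shf t) = S3 m t := by
  unfold S3
  rw [W3_shf, W3_shf]

theorem S2_shf (m : A → ℤ) (t : Fin 4 × ZMod 2 → A) : S2 m (shf t) = S2 m t := by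
  unfold S2
  rw [W2_shf, W2_shf]

theorem rsT_W3 (U : Subgroup A) (w m : A → ℤ) :
    rsT U (W3 w m) = W3 (fun x : ↥U => w x) (fun x : ↥U => m x) := by
  classical
  funext t
  unfold rsT W3
  refine ite_cg ?_ ?_
  · simp only [← Subgroup.coe_mul, OneMemClass.coe_eq_one]
  · refine Finset.prod_congr rfl fun j _ => ?_
    simp only [Subgroup.coe_mul, Subgroup.coe_inv]

theorem rsT_W2 (U : Subgroup A) (w m : A → ℤ) :
    rsT U (W2 w m) = W2 (fun x : ↥U => w x) (fun x : ↥U => m x) := by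
  classical
  funext t
  unfold rsT W2
  refine ite_cg ?_ ?_
  · simp only [← Subgroup.coe_mul, OneMemClass.coe_eq_one]
  · refine Finset.prod_congr rfl fun j _ => ?_
    simp only [Subgroup.coe_mul, Subgroup.coe_inv]

theorem om_coe (p : ℕ) (U : Subgroup A) : (fun x : ↥U => om p (x : A)) = om p := by
  classical
  funext x
  unfold om
  refine ite_cg ?_ rfl
  rw [← Subgroup.coe_pow, OneMemClass.coe_eq_one]

theorem dl_coe (U : Subgroup A) : (fun x : ↥U => dl (x : A)) = dl := by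
  classical
  funext x
  unfold dl
  exact ite_cg OneMemClass.coe_eq_one rfl

theorem rsT_S3 (U : Subgroup A) (m : A → ℤ) : rsT U (S3 m) = S3 (fun x : ↥U => m x) := by
  funext t
  have h1 := congrFun (rsT_W3 U (om 3) m) t
  have h2 := congrFun (rsT_W3 U dl m) t
  rw [om_coe] at h1
  rw [dl_coe] at h2
  unfold S3
  rw [← h1, ← h2]
  rfl

theorem rsT_S2 (U : Subgroup A) (m : A → ℤ) : rsT U (S2 m) = S2 (fun x : ↥U => m x) := by
  funext t
  have h1 := congrFun (rsT_W2 U (om 2) m) t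
  have h2 := congrFun (rsT_W2 U dl m) t
  rw [om_coe] at h1
  rw [dl_coe] at h2
  unfold S2
  rw [← h1, ← h2]
  rfl

open Classical in
theorem S3_eq (m : A → ℤ) (t : Fin 3 × ZMod 3 → A) :
    S3 m t = if ∀ j, t (2, j) = 1 then 0 else W3 (om 3) m t := by
  unfold S3
  split_ifs with h
  · unfold W3 om dl
    simp only [h, one_pow, if_true, sub_self]
  · have h1 : W3 dl m t = 0 := by
      unfold W3
      split_ifs
      · obtain ⟨j, hj⟩ := not_forall.1 h
        refine Finset.prod_eq_zero (Finset.mem_univ j) ?_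
        unfold dl
        rw [if_neg hj, zero_mul]
      · rfl
    rw [h1, sub_zero]

open Classical in
theorem S2_eq (m : A → ℤ) (t : Fin 4 × ZMod 2 → A) :
    S2 m t = if ∀ j, t (3, j) = 1 then 0 else W2 (om 2) m t := by
  unfold S2
  split_ifs with h
  · unfold W2 om dl
    simp only [h, one_pow, if_true, sub_self]
  · have h1 : W2 dl m t = 0 := by
      unfold W2
      split_ifs
      · obtain ⟨j, hj⟩ := not_forall.1 h
        refine Finset.prod_eq_zero (Finset.mem_univ j) ?_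
        unfold dl
        rw [if_neg hj, zero_mul]
      · rfl
    rw [h1, sub_zero]

end Pool.Agent.Lib.P0c8ca5.Gs
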