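import Mathlib
import Pool.Agent.Lib.P0c8ca5Bx.ABb
import Pool.Agent.Lib.P0c8ca5Gs.TC
import Pool.Agent.Lib.P0c8ca5Gs.Wt
import Pool.Agent.Lib.P0c8ca5Gs.Tor2
import Pool.Agent.Lib.P0c8ca5Gs.Tor3

/-! # X: the chain sums of the tuples and of the triples -/

namespace Pool.Agent.Lib.P0c8ca5.Gs

open MonoidAlgebra Bx

variable {A : Type*} [Group A] [Finite A]

theorem nT_sub {ι : Type*} [Finite ι] (H : Subgroup A) (f g : (ι → A) → ℤ) :
    nT H (fun t => f t - g t) = nT H f - nT H g := by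
  classical
  unfold nT
  rw [← finsum_sub_distrib (Set.toFinite _) (Set.toFinite _)]
  refine finsum_congr fun t => ?_
  split_ifs <;> simp

theorem chS_sub' (p : ℕ) (F G : Subgroup A → ℤ) :
    chS p F - chS p G = chS p (fun U => F U - G U) := by
  classical
  unfold chS
  rw [← finsum_sub_distrib (Set.toFinite _) (Set.toFinite _)]
  refine finsum_congr fun σ => ?_
  split_ifs <;> ring

theorem CF_coe {m : A → ℤ} (hm : CF m) (U : Subgroup A) : CF (fun x : ↥U => m x) := by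
  intro g x
  exact hm (g : A) (x : A)

/-- passage from the group-level congruence to the chain sums -/
theorem eT_of_nT {ι : Type*} [Finite ι] {p : ℕ} [Fact p.Prime] {m : A → ℤ} (hm : IsWt p ⊤ m)
    {S : (ι → A) → ℤ} (hS : CT S)
    (h : ∀ U : Subgroup A, (p : ℤ) * (Nat.card U : ℤ) ∣ nT U S - (nA p U m - nE U m)) :
    (p : ℤ) * (Nat.card A : ℤ) ∣ eT p S - (eA p m - eE p m) := by
  have e : eT p S - (eA p m - eE p m) = chS p (fun U => nT U S - (nA p U m - nE U m)) := by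
    unfold eT eA eE
    rw [chS_sub', chS_sub']
  rw [e]
  refine chS_dvd _ (fun g U => ?_) (p : ℤ) (fun σ _ => h _)
  have hc : ∀ g x, m (g * x * g⁻¹) = m x := fun g x => hm.conj g (Subgroup.mem_top g) x
  rw [nT_cg hS, nA_conj U g (hc g), nE_conj U g (hc g)]

theorem nT_S3_top {m : A → ℤ} (hm : IsWt 3 ⊤ m) :
    (3 : ℤ) * (Nat.card A : ℤ) ∣ nT (⊤ : Subgroup A) (S3 m)
      - (nA 3 (⊤ : Subgroup A) m - nE (⊤ : Subgroup A) m) := by
  have : Fact (Nat.Prime 3) := ⟨Nat.prime_three⟩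
  have hc : CF m := CF_of_wt hm
  have e : nT (⊤ : Subgroup A) (S3 m) = nT (⊤ : Subgroup A) (W3 (om 3) m)
      - nT (⊤ : Subgroup A) (W3 dl m) := by
    rw [← nT_sub]
    rfl
  rw [e, nT_W3 (CF_om 3) hc, nT_W3 CF_dl hc, cvl_dl]
  have h1 := nE_cvP (p := 3) (CF_cvl (CF_om 3) hc)
  have h2 := nE_om (p := 3) hm
  have h3 := nE_cvP (p := 3) hc
  have h4 := dvd_sub (dvd_add h1 h2) h3
  have e2 : nE (⊤ : Subgroup A) (cvP (cvl (om 3) m) 3) - nE (⊤ : Subgroup A) (cvP m 3)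
      - (nA 3 (⊤ : Subgroup A) m - nE (⊤ : Subgroup A) m)
      = nE (⊤ : Subgroup A) (cvP (cvl (om 3) m) 3) - nE (⊤ : Subgroup A) (cvl (om 3) m)
        + (nE (⊤ : Subgroup A) (cvl (om 3) m) - nA 3 (⊤ : Subgroup A) m)
        - (nE (⊤ : Subgroup A) (cvP m 3) - nE (⊤ : Subgroup A) m) := by ring
  rw [e2]
  exact_mod_cast h4

theorem nT_S2_top {m : A → ℤ} (hm : IsWt 2 ⊤ m) :
    (2 : ℤ) * (Nat.card A : ℤ) ∣ nT (⊤ : Subgroup A) (S2 m)
      - (nA 2 (⊤ : Subgroup A) m - nE (⊤ : Subgroup A) m) := by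
  have : Fact (Nat.Prime 2) := ⟨Nat.prime_two⟩
  have hc : CF m := CF_of_wt hm
  have e : nT (⊤ : Subgroup A) (S2 m) = nT (⊤ : Subgroup A) (W2 (om 2) m)
      - nT (⊤ : Subgroup A) (W2 dl m) := by
    rw [← nT_sub]
    rfl
  rw [e, nT_W2 (CF_om 2) hc, nT_W2 CF_dl hc, cvl_dl]
  have h1 := nE_cvP (p := 2) (CF_cvl (CF_om 2) hc)
  have h2 := nE_om (p := 2) hm
  have h3 := nE_cvP (p := 2) hc
  have h4 := dvd_sub (dvd_add h1 h2) h3
  have e2 : nE (⊤ : Subgroup A) (cvP (cvl (om 2) m) 2) - nE (⊤ : Subgroup A) (cvP m 2)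
      - (nA 2 (⊤ : Subgroup A) m - nE (⊤ : Subgroup A) m)
      = nE (⊤ : Subgroup A) (cvP (cvl (om 2) m) 2) - nE (⊤ : Subgroup A) (cvl (om 2) m)
        + (nE (⊤ : Subgroup A) (cvl (om 2) m) - nA 2 (⊤ : Subgroup A) m)
        - (nE (⊤ : Subgroup A) (cvP m 2) - nE (⊤ : Subgroup A) m) := by ring
  rw [e2]
  exact_mod_cast h4

theorem eT_S3 {m : A → ℤ} (hm : IsWt 3 ⊤ m) :
    ((3 : ℕ) : ℤ) * (Nat.card A : ℤ) ∣ eT 3 (S3 m) - (eA 3 m - eE 3 m) := by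
  have : Fact (Nat.Prime 3) := ⟨Nat.prime_three⟩
  refine eT_of_nT hm (CT_S3 (CF_of_wt hm)) (fun U => ?_)
  have h := nT_S3_top (IsWt_dn U hm)
  rw [← rsT_S3, nT_dn, nA_dn, nE_dn] at h
  exact_mod_cast h

theorem eT_S2 {m : A → ℤ} (hm : IsWt 2 ⊤ m) :
    ((2 : ℕ) : ℤ) * (Nat.card A : ℤ) ∣ eT 2 (S2 m) - (eA 2 m - eE 2 m) := by
  have : Fact (Nat.Prime 2) := ⟨Nat.prime_two⟩
  refine eT_of_nT hm (CT_S2 (CF_of_wt hm)) (fun U => ?_)
  have h := nT_S2_top (IsWt_dn U hm)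
  rw [← rsT_S2, nT_dn, nA_dn, nE_dn] at h
  exact_mod_cast h

end Pool.Agent.Lib.P0c8ca5.Gs
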