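import Mathlib
import Pool.Agent.Lib.P0c8ca5V.RelW
import Pool.Agent.Lib.P0c8ca5V.RelW2
import Pool.Agent.Lib.P0c8ca5Gs.X

/-! # RelS: classes of groups, families of weights and tuples -/

namespace Pool.Agent.Lib.P0c8ca5.Gs

open MonoidAlgebra Bx

universe u v

/-- a weight `S G m` of the tuples in `G` for every class function `m` -/
structure TW (p : ℕ) {ι : Type} (S : ∀ (G : Type u) [Group G], (G → ℤ) → (ι → G) → ℤ) : Prop where
  ct : ∀ (G : Type u) [Group G] [Finite G] (m : G → ℤ), CF m → CT (S G m)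
  rs : ∀ (G : Type u) [Group G] [Finite G] (U : Subgroup G) (m : G → ℤ),
    rsT U (S G m) = S ↥U (fun x => m x)
  eT : ∀ (G : Type u) [Group G] [Finite G] (m : G → ℤ), IsWt p ⊤ m →
    (p : ℤ) * (Nat.card G : ℤ) ∣ eT p (S G m) - (eA p m - eE p m)

theorem fullS {p : ℕ} [Fact p.Prime] {A : Type*} [Group A] [Finite A] {x : ℤ}
    (h1 : (p : ℤ) * (ordProj[p] (Nat.card A) : ℕ) ∣ x)
    (h2 : (Nat.card A : ℤ) ∣ x) : (p : ℤ) * (Nat.card A : ℤ) ∣ x := by
  have h3 : ((ordCompl[p] (Nat.card A) : ℕ) : ℤ) ∣ x :=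
    dvd_trans (by exact_mod_cast Nat.ordCompl_dvd (Nat.card A) p) h2
  have h4 : IsCoprime ((p : ℤ) * (ordProj[p] (Nat.card A) : ℕ))
      ((ordCompl[p] (Nat.card A) : ℕ) : ℤ) := by
    have h5 : Nat.Coprime (p * ordProj[p] (Nat.card A)) (ordCompl[p] (Nat.card A)) := by
      have h6 := Nat.coprime_ordCompl (Fact.out : p.Prime) (Nat.card_pos (α := A)).ne'
      rw [Nat.coprime_mul_iff_left]
      exact ⟨h6, h6.pow_left _⟩
    have := h5.isCoprime
    exact_mod_cast this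
  have h7 := h4.mul_dvd h1 h3
  have h8 : (p : ℤ) * (ordProj[p] (Nat.card A) : ℕ) * ((ordCompl[p] (Nat.card A) : ℕ) : ℤ)
      = (p : ℤ) * (Nat.card A : ℤ) := by
    rw [mul_assoc]
    congr 1
    exact_mod_cast Nat.ordProj_mul_ordCompl_eq_self (Nat.card A) p
  rwa [h8] at h7

section
variable {C : ∀ (G : Type u) [Group G], Prop} {W : ∀ (G : Type u) [Group G], (G → ℤ) → Prop}
  {p : ℕ} {ι : Type} {S : ∀ (G : Type u) [Group G], (G → ℤ) → (ι → G) → ℤ}

open RelAux RelWAux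

/-- from the tuples to the triples, one group -/
theorem eA_of_bT [Finite ι] [Fact p.Prime] (hS : TW p S) {G : Type u} [Group G] [Finite G]
    {m : G → ℤ} (hm : IsWt p ⊤ m)
    (h : ∀ U : Subgroup G, NoP p U →
      (p : ℤ) * (ordProj[p] (Nat.card U) : ℕ) ∣ bT p U (S G m)) :
    (p : ℤ) * (Nat.card G : ℤ) ∣ eA p m - eE p m := by
  have h1 := eT_of_bT (hS.ct G m (CF_of_wt hm)) h
  have h2 := hS.eT G m hm
  have h3 : (Nat.card G : ℤ) ∣ eT p (S G m) := by
    have h4 : (Nat.card G : ℤ) ∣ eT p (S G m) - (eA p m - eE p m) :=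
      dvd_trans (dvd_mul_left _ _) h2
    have h5 : (Nat.card G : ℤ) ∣ eA p m - eE p m := dvd_sub (eA_dvd hm) (eE_dvd hm)
    have h6 := dvd_add h4 h5
    rwa [sub_add_cancel] at h6
  have h7 := fullS h1 h3
  exact (dvd_sub_right h7).1 h2

/-- **Classes of groups, families of weights and tuples.** -/
theorem relS [Finite ι] [Fact p.Prime] (hC : SecCl C) (hW : WFam p W) (hS : TW p S) :
    (∀ (G : Type u) [Group G] [Finite G], C G → ∀ (m : G → ℤ), W G m →
      (p : ℤ) * (Nat.card G : ℤ) ∣ nL p (⊤ : Subgroup G) m - wS p m) ↔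
    (∀ (G : Type u) [Group G] [Finite G], C G → NoP p (⊤ : Subgroup G) → ∀ (m : G → ℤ),
      W G m → (p : ℤ) * (ordProj[p] (Nat.card G) : ℕ) ∣ bT p (⊤ : Subgroup G) (S G m)) := by
  constructor
  · intro h G _ _ hCG hG m hWm
    refine bT_of_eT (p := p) (C := C) (fun G _ hCG U => cSub hC hCG U)
      (F := fun G _ f => Finite G ∧ ∃ m : G → ℤ, W G m ∧ f = S G m)
      (fun G _ _ f hf => ?_) (fun G _ _ hCG f hf => ?_) G hCG hG (S G m) ⟨inferInstance, m, hWm, rfl⟩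
    · obtain ⟨_, m, hWm, rfl⟩ := hf
      refine ⟨hS.ct G m (CF_of_wt (hW.wt G m hWm)), fun U => ⟨inferInstance, fun x => m x,
        hW.sub G m hWm U, hS.rs G U m⟩⟩
    · obtain ⟨_, m, hWm, rfl⟩ := hf
      have hm := hW.wt G m hWm
      have e3 := forthW hC hW h _ G rfl hCG m hWm
      have e1 := eE_eL (p := p) hm
      have e2 := nA_eA (p := p) hm
      have e4 : eA p m - eE p m
          = -((nA p (⊤ : Subgroup G) m - eA p m) + (eE p m - eL p m)
            + (eL p m - nA p (⊤ : Subgroup G) m)) := by ring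
      have e5 : (p : ℤ) * (Nat.card G : ℤ) ∣ eA p m - eE p m := by
        rw [e4, dvd_neg]
        exact dvd_add (dvd_add e2 e1) e3
      have e6 := dvd_add (hS.eT G m hm) e5
      rw [sub_add_cancel] at e6
      refine dvd_trans (mul_dvd_mul_left _ ?_) e6
      exact_mod_cast Nat.ordProj_dvd (Nat.card G) p
  · intro h G _ _ hCG m hWm
    have hm := hW.wt G m hWm
    rw [CCAux.diff_eq hm]
    refine sub_dvd (CCAux.FF p m) (fun g U => CCAux.FF_cg hm g U) (p : ℤ) fun Q => ?_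
    refine CCAux.FF_dvd Q fun hQ => ?_
    have hWQ := hW.mb G m hWm Q hQ
    have h1 : IsWt p (⊤ : Subgroup (NQ Q)) (mb Q m) := hW.wt _ _ hWQ
    refine LocAux.eL_of_eA (NQ Q) h1 (eA_of_bT hS h1 fun U hU => ?_)
    rw [← bT_dn, hS.rs]
    exact h ↥U (cSub hC (cNQ hC hCG Q) U) ((NoP_dn U).2 hU) _ (hW.sub _ _ hWQ U)

end

theorem TW_S3 : TW 3 (fun (G : Type u) [Group G] => S3 (A := G)) where
  ct _ _ _ _ hm := CT_S3 hm
  rs _ _ _ U m := rsT_S3 U m
  eT _ _ _ _ hm := eT_S3 hm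

theorem TW_S2 : TW 2 (fun (G : Type u) [Group G] => S2 (A := G)) where
  ct _ _ _ _ hm := CT_S2 hm
  rs _ _ _ U m := rsT_S2 U m
  eT _ _ _ _ hm := eT_S2 hm

end Pool.Agent.Lib.P0c8ca5.Gs
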