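
import Mathlib
import Pool.Agent.Lib.P0c8ca5Bx.TrS
import Pool.Agent.Lib.P0c8ca5Bx.ABb
import Pool.Agent.Lib.P0c8ca5V.TCnt
import Pool.Agent.Lib.P0c8ca5V.R2b

/-!
# Sx: pairs with the p-part of the commutator of order p

`sx p m`: `y ↦ m (y_{p'})` on the `y` with p-part of order exactly `p`.

PROOF. `nE_sx` is `nA_pf` (P0c8ca5Bx.ABa, complete) with `y ↦ m (y_{p'})` restricted to the `y` with `(y_p) ^ p = 1`. For a central element `z` of the group algebra over `k = AlgebraicClosure (ZMod p)` let `sec1 z` have the coefficient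
`z (y_{p'})` at the `y` with `(y * (pr p y)⁻¹) ^ p = 1` and `0` elsewhere (compare `sec p z`, P0c8ca5Bx.Defs). Copy P0c8ca5Bx.Sec (`sec_nonDZ`: `Br_P (sec p z)` is invariant under multiplication by an element `q` of order `p` of `Z(P)`; the same holds for
`sec1 z`: for `x ∈ C(P)` `pr p (x q) = pr p x` and the p-part of `x q` is `x_p q`, `(x_p q) ^ p = x_p ^ p`) to get `IsNilpotent (sec1 z * f)` for blocks `f` not of defect zero; `(sec1 z - z) * f = 0` for `f` of defect zero by `sing_dz` (P0c8ca5Bx.Sing: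
the coefficient of `sec1 z - z` at a p-regular `y` is `0`: `pr p y = y`); so `trE (hpe * z) = trE (sec1 z)` as in P0c8ca5Bx.TrS, and `nA_trE`, `nE_trE` give `p |A| ∣ nA p ⊤ m - nE ⊤ (m' )`, `m' y = if (y * (pr p y)⁻¹) ^ p = 1 then m (pr p y) else 0`.
Finally `m' = sx p m + m` because `m` vanishes outside the p-regular elements (as `sf_eq`), and `nE` is additive.
-/

namespace Pool.Agent.Lib.P0c8ca5.Gs

open MonoidAlgebra Bx

variable {p : ℕ} {A : Type*} [Group A]

open Classical in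
/-- `y ↦ m (y_{p'})` on the `y` with p-part of order exactly `p` -/
noncomputable def sx (p : ℕ) (m : A → ℤ) : A → ℤ := fun y =>
  if (y * (pr p y)⁻¹) ^ p = 1 ∧ ¬ Preg p y then m (pr p y) else 0

namespace SxAux

theorem pp_conj (g y : A) :
    (g * y * g⁻¹) * (pr p (g * y * g⁻¹))⁻¹ = g * (y * (pr p y)⁻¹) * g⁻¹ := by
  rw [pr_conj]
  group

theorem pp_pow_conj (g y : A) :
    ((g * y * g⁻¹) * (pr p (g * y * g⁻¹))⁻¹) ^ p = 1 ↔ (y * (pr p y)⁻¹) ^ p = 1 := by
  rw [pp_conj, conj_pow, conj_eq_one_iff]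

open Classical in
/-- the element with the coefficients of `z` at the p'-parts, restricted to the elements with
p-part of order `1` or `p` -/
noncomputable def sec1 (p : ℕ) {k : Type*} [Field k] [Finite A] (z : MonoidAlgebra k A) :
    MonoidAlgebra k A :=
  MonoidAlgebra.ofCoeff (Finsupp.equivFunOnFinite.symm fun y =>
    if (y * (pr p y)⁻¹) ^ p = 1 then z.coeff (pr p y) else 0)

open Classical in
theorem sec1_coeff (p : ℕ) {k : Type*} [Field k] [Finite A] (z : MonoidAlgebra k A) (y : A) :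
    (sec1 p z).coeff y = if (y * (pr p y)⁻¹) ^ p = 1 then z.coeff (pr p y) else 0 := rfl

open Classical in
/-- `sx p m + m` for the weights `m` -/
noncomputable def m1 (p : ℕ) (m : A → ℤ) : A → ℤ := fun y =>
  if (y * (pr p y)⁻¹) ^ p = 1 then m (pr p y) else 0

theorem sec1_mem [Fact p.Prime] {k : Type*} [Field k] [Finite A] {z : MonoidAlgebra k A}
    (hz : z ∈ fixAlg k (⊤ : Subgroup A) ⊤) : sec1 p z ∈ fixAlg k (⊤ : Subgroup A) ⊤ := by
  classical
  rw [mem_fixAlg] at hz ⊢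
  refine ⟨fun x _ => Subgroup.mem_top x, fun g hg x => ?_⟩
  rw [sec1_coeff, sec1_coeff]
  refine if_congr (pp_pow_conj g x) ?_ rfl
  rw [pr_conj, hz.2 g hg]

theorem CF_m1 {m : A → ℤ} (hm : CF m) : CF (m1 p m) := by
  classical
  intro g x
  unfold m1
  refine if_congr (pp_pow_conj g x) ?_ rfl
  rw [pr_conj, hm]

theorem sec1_zel {k : Type*} [Field k] [Finite A] (m : A → ℤ) :
    sec1 p (zel k m) = zel k (m1 p m) := by
  ext y
  have h1 : (zel k (m1 p m)).coeff y = ((m1 p m y : ℤ) : k) := zel_coeff _ _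
  rw [sec1_coeff, h1]
  unfold m1
  by_cases h : (y * (pr p y)⁻¹) ^ p = 1
  · rw [if_pos h, if_pos h, zel_coeff]
  · rw [if_neg h, if_neg h, Int.cast_zero]

section
variable {k : Type*} [Field k] [Finite A]
variable [Fact p.Prime] [CharP k p] [IsAlgClosed k]

omit [IsAlgClosed k] in
theorem res_sq {z : MonoidAlgebra k A} {D : Subgroup A} (hD : IsPGroup p D) (hne : D ≠ ⊥)
    (hDp : ∀ d ∈ D, d ^ p = 1) (hcomm : D ≤ Subgroup.centralizer (D : Set A)) :
    resS (Subgroup.centralizer (D : Set A) : Set A) (sec1 p z) *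
      resS (Subgroup.centralizer (D : Set A) : Set A) (sec1 p z) = 0 := by
  classical
  cases nonempty_fintype A
  set C := Subgroup.centralizer (D : Set A) with hC
  have hcm : ∀ d ∈ D, ∀ u ∈ C, d * u = u * d := by
    intro d hd u hu
    exact Subgroup.mem_centralizer_iff.1 hu d hd
  have hpr : ∀ d ∈ D, pr p d = 1 := by
    intro d hd
    obtain ⟨n, hn⟩ := hD ⟨d, hd⟩
    exact pr_of_pow (n := n) (by simpa using congrArg Subtype.val hn)
  have hb : ∀ d ∈ D, ∀ u, (resS (C : Set A) (sec1 p z)).coeff (d * u) =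
      (resS (C : Set A) (sec1 p z)).coeff u := by
    intro d hd u
    by_cases hu : u ∈ C
    · have hdu : d * u ∈ C := C.mul_mem (hcomm hd) hu
      have h1 : pr p (d * u) = pr p u := by
        rw [pr_mul (show Commute d u from hcm d hd u hu), hpr d hd, one_mul]
      have h2 : (d * u * (pr p u)⁻¹) ^ p = (u * (pr p u)⁻¹) ^ p := by
        have h3 : Commute d (u * (pr p u)⁻¹) := by
          have h4 : Commute d u := hcm d hd u hu
          exact h4.mul_right (commute_pr h4).inv_right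
        rw [mul_assoc, h3.mul_pow, hDp d hd, one_mul]
      rw [coeff_resS_of_mem _ (SetLike.mem_coe.2 hu), coeff_resS_of_mem _ (SetLike.mem_coe.2 hdu),
        sec1_coeff, sec1_coeff, h1, h2]
    · have hdu : d * u ∉ C := by
        intro h'
        apply hu
        have := C.mul_mem (C.inv_mem (hcomm hd)) h'
        rwa [inv_mul_cancel_left] at this
      rw [coeff_resS_of_notMem _ (fun h' => hu (SetLike.mem_coe.1 h')),
        coeff_resS_of_notMem _ (fun h' => hdu (SetLike.mem_coe.1 h'))]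
  ext y
  rw [coeff_mul_fin]
  rw [sum_eq_sum_fixed (p := p) hD ((MulAction.toPermHom A A).comp D.subtype)
    (fun u => (resS (C : Set A) (sec1 p z)).coeff u *
      (resS (C : Set A) (sec1 p z)).coeff (u⁻¹ * y)) ?_ ∅ ?_]
  · rw [Finset.sum_empty]
    rfl
  · intro g u
    change (resS (C : Set A) (sec1 p z)).coeff ((g : A) * u) *
      (resS (C : Set A) (sec1 p z)).coeff (((g : A) * u)⁻¹ * y) = _
    rw [hb g g.2 u]
    by_cases hu : u ∈ C
    · have h1 : ((g : A) * u)⁻¹ * y = (g : A)⁻¹ * (u⁻¹ * y) := by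
        rw [hcm g g.2 u hu]
        group
      rw [h1, hb _ (D.inv_mem g.2)]
    · rw [coeff_resS_of_notMem _ (fun h' => hu (SetLike.mem_coe.1 h')), zero_mul, zero_mul]
  · intro x
    constructor
    · intro hx
      exact absurd hx (Finset.notMem_empty x)
    · intro hx
      exfalso
      obtain ⟨d, hd, hd1⟩ := (Subgroup.bot_or_exists_ne_one D).resolve_left hne
      apply hd1
      have h1 : d * x = x := hx ⟨d, hd⟩
      exact mul_eq_right.1 h1

omit [CharP k p] [IsAlgClosed k] [Field k] in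
/-- an element of order `p` -/
theorem exists_ord {P : Subgroup A} (hP : IsPGroup p P) (hPne : P ≠ ⊥) :
    ∃ d ∈ P, d ^ p = 1 ∧ d ≠ 1 := by
  obtain ⟨x, hx, hx1⟩ := (Subgroup.bot_or_exists_ne_one P).resolve_left hPne
  have hnt : Nontrivial P := ⟨⟨⟨x, hx⟩, 1, fun h => hx1 (congrArg Subtype.val h)⟩⟩
  obtain ⟨n, hn0, hn⟩ := hP.nontrivial_iff_card.1 hnt
  have hdvd : p ∣ Nat.card P := by
    rw [hn]
    exact dvd_pow_self p hn0.ne'
  obtain ⟨d, hd⟩ := exists_prime_orderOf_dvd_card' p hdvd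
  refine ⟨(d : A), d.2, ?_, ?_⟩
  · rw [← hd, ← Subgroup.coe_pow, pow_orderOf_eq_one, Subgroup.coe_one]
  · intro h
    have h1 : d = 1 := Subtype.ext h
    rw [h1, orderOf_one] at hd
    exact (Fact.out : p.Prime).one_lt.ne hd

theorem sec1_nonDZ {f z : MonoidAlgebra k A} (hf : IsBlock (⊤ : Subgroup A) f)
    (h : ¬ IsDZ p (⊤ : Subgroup A) f) (hz : z ∈ fixAlg k (⊤ : Subgroup A) ⊤) :
    IsNilpotent (sec1 p z * f) := by
  classical
  cases nonempty_fintype A
  have hh : sec1 p z ∈ fixAlg k (⊤ : Subgroup A) ⊤ := sec1_mem hz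
  rcases blk_nilp_or_unit hf hh with h1 | ⟨w, hw, hwf⟩
  · exact h1
  exfalso
  have hex : ∃ P : Subgroup A, IsPGroup p P ∧ HasBr P f ∧ P ≠ ⊥ := by
    by_contra hcon
    apply h
    refine ⟨hf, fun P _ hP hbr => ?_⟩
    by_contra hne
    exact hcon ⟨P, hP, hbr, hne⟩
  obtain ⟨P, hP, ⟨x, hx, hfx⟩, hPne⟩ := hex
  obtain ⟨d, hd, hdp, hd1⟩ := exists_ord hP hPne
  have hDP : Subgroup.zpowers d ≤ P := by rwa [Subgroup.zpowers_le]
  have hD : IsPGroup p (Subgroup.zpowers d) := hP.to_le hDP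
  have hDne : Subgroup.zpowers d ≠ ⊥ := by
    rwa [Ne, Subgroup.zpowers_eq_bot]
  have hDp : ∀ e ∈ Subgroup.zpowers d, e ^ p = 1 := by
    rintro _ ⟨n, rfl⟩
    change (d ^ n) ^ p = 1
    rw [← zpow_natCast, ← zpow_mul, mul_comm, zpow_mul, zpow_natCast, hdp, one_zpow]
  have hcomm : Subgroup.zpowers d ≤
      Subgroup.centralizer ((Subgroup.zpowers d : Subgroup A) : Set A) := by
    rw [Subgroup.zpowers_le, Subgroup.mem_centralizer_iff]
    rintro _ ⟨n, rfl⟩
    exact ((Commute.refl d).zpow_left n).eq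
  have hsq := res_sq (p := p) (k := k) (z := z) hD hDne hDp hcomm
  have hwf' : w * f ∈ fixAlg k (⊤ : Subgroup A) ⊤ := (fixAlg k _ _).mul_mem hw hf.mem
  have hwwf : w * (w * f) ∈ fixAlg k (⊤ : Subgroup A) ⊤ := (fixAlg k _ _).mul_mem hw hwf'
  have hhh : sec1 p z * sec1 p z ∈ fixAlg k (⊤ : Subgroup A) ⊤ := (fixAlg k _ _).mul_mem hh hh
  have hfe : sec1 p z * sec1 p z * (w * (w * f)) = f := by
    have hc : w * sec1 p z = sec1 p z * w :=
      commute_of (mem_fixAlg.1 hw).1 (mem_fixAlg.1 hh).2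
    calc sec1 p z * sec1 p z * (w * (w * f)) = sec1 p z * (sec1 p z * w) * (w * f) := by
          simp only [mul_assoc]
      _ = sec1 p z * (w * sec1 p z) * (w * f) := by rw [hc]
      _ = sec1 p z * w * (sec1 p z * w * f) := by simp only [mul_assoc]
      _ = f := by rw [hwf, hwf]
  have hinv : ∀ a : MonoidAlgebra k A, a ∈ fixAlg k (⊤ : Subgroup A) ⊤ →
      InvBy (Subgroup.zpowers d) a := fun a ha => (mem_fixAlg.1 ha).2.mono le_top
  have h0 : resS (Subgroup.centralizer ((Subgroup.zpowers d : Subgroup A) : Set A) : Set A) f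
      = 0 := by
    rw [← hfe, resS_mul hD (hinv _ hhh) (hinv _ hwwf), resS_mul hD (hinv _ hh) (hinv _ hh), hsq,
      zero_mul]
  apply hfx
  have hxC : x ∈ Subgroup.centralizer ((Subgroup.zpowers d : Subgroup A) : Set A) :=
    Subgroup.centralizer_le (SetLike.coe_subset_coe.2 hDP) hx
  rw [← coeff_resS_of_mem (S := (Subgroup.centralizer
    ((Subgroup.zpowers d : Subgroup A) : Set A) : Set A)) f hxC, h0]
  rfl

theorem trE_sec1 [Fintype A] {z : MonoidAlgebra k A} (hz : z ∈ fixAlg k (⊤ : Subgroup A) ⊤) :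
    trE k (⊤ : Subgroup A) (fun x => (hpe p k A * z).coeff x)
      = trE k (⊤ : Subgroup A) (fun x => (sec1 p z).coeff x) := by
  classical
  have hone : (1 : MonoidAlgebra k A) ∈ fixAlg k (⊤ : Subgroup A) ⊤ := (fixAlg k _ _).one_mem
  have hfin : {b : MonoidAlgebra k A | IsBlock (⊤ : Subgroup A) b ∧ b * 1 ≠ 0}.Finite :=
    (finite_isBlock (k := k) (⊤ : Subgroup A)).subset (fun b hb => hb.1)
  have hB : ∀ b, b ∈ hfin.toFinset ↔ IsBlock (⊤ : Subgroup A) b ∧ b * 1 ≠ 0 := by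
    intro b
    rw [Set.Finite.mem_toFinset]
    rfl
  generalize hfin.toFinset = B at hB
  have hsum : ∑ b ∈ B, b = 1 := WSumAux.sum_blocks (p := p) hone (one_mul 1) B hB
  have hsec : sec1 p z ∈ fixAlg k (⊤ : Subgroup A) ⊤ := sec1_mem hz
  have e1 : hpe p k A * z = ∑ b ∈ B, hpe p k A * z * b := by
    rw [← Finset.mul_sum, hsum, mul_one]
  have e2 : sec1 p z = ∑ b ∈ B, sec1 p z * b := by
    rw [← Finset.mul_sum, hsum, mul_one]
  have key : ∀ b ∈ B, trE k (⊤ : Subgroup A) (fun x => (hpe p k A * z * b).coeff x)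
      = trE k (⊤ : Subgroup A) (fun x => (sec1 p z * b).coeff x) := by
    intro b hb
    obtain ⟨hb1, _⟩ := (hB b).1 hb
    have hzb : z * b = b * z := commute_of (mem_fixAlg.1 hz).1 (mem_fixAlg.1 hb1.mem).2
    have e3 : hpe p k A * z * b = hpe p k A * b * z := by
      rw [mul_assoc, hzb, ← mul_assoc]
    by_cases hdz : IsDZ p (⊤ : Subgroup A) b
    · have h1 : hpe p k A * z * b = z * b := by
        rw [e3, hpe_mul_dz hdz, hzb]
      have h2 : (sec1 p z - z) * b = 0 := by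
        refine sing_dz (p := p) hdz ((fixAlg k (⊤ : Subgroup A) ⊤).sub_mem hsec hz) ?_
        intro y hy
        rw [coeff_sub, Finsupp.sub_apply, sec1_coeff, pr_eq_self hy, mul_inv_cancel, one_pow,
          if_pos rfl, sub_self]
      have h3 : sec1 p z * b = z * b := by
        rw [sub_mul, sub_eq_zero] at h2
        exact h2
      rw [h1, h3]
    · have hhb : hpe p k A * b ∈ fixAlg k (⊤ : Subgroup A) ⊤ :=
        (fixAlg k (⊤ : Subgroup A) ⊤).mul_mem hpe_mem hb1.mem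
      have hm1 : hpe p k A * z * b ∈ fixAlg k (⊤ : Subgroup A) ⊤ := by
        rw [e3]
        exact (fixAlg k (⊤ : Subgroup A) ⊤).mul_mem hhb hz
      have hm2 : sec1 p z * b ∈ fixAlg k (⊤ : Subgroup A) ⊤ :=
        (fixAlg k (⊤ : Subgroup A) ⊤).mul_mem hsec hb1.mem
      have hc : Commute (hpe p k A * b) z :=
        commute_of (mem_fixAlg.1 hhb).1 (mem_fixAlg.1 hz).2
      have hn1 : IsNilpotent (hpe p k A * z * b) := by
        rw [e3]
        exact hc.isNilpotent_mul_right (hpe_nonDZ hb1 hdz)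
      rw [trE_nilpotent (p := p) (mem_fixAlg.1 hm1).1 (mem_fixAlg.1 hm1).2 hn1,
        trE_nilpotent (p := p) (mem_fixAlg.1 hm2).1 (mem_fixAlg.1 hm2).2
          (sec1_nonDZ hb1 hdz hz)]
  calc trE k (⊤ : Subgroup A) (fun x => (hpe p k A * z).coeff x)
      = trE k (⊤ : Subgroup A) (fun x => (∑ b ∈ B, hpe p k A * z * b).coeff x) := by rw [← e1]
    _ = ∑ b ∈ B, trE k (⊤ : Subgroup A) (fun x => (hpe p k A * z * b).coeff x) :=
        TDzBAux.trE_sum _ _ _
    _ = ∑ b ∈ B, trE k (⊤ : Subgroup A) (fun x => (sec1 p z * b).coeff x) :=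
        Finset.sum_congr rfl key
    _ = trE k (⊤ : Subgroup A) (fun x => (∑ b ∈ B, sec1 p z * b).coeff x) :=
        (TDzBAux.trE_sum _ _ _).symm
    _ = trE k (⊤ : Subgroup A) (fun x => (sec1 p z).coeff x) := by rw [← e2]

end

theorem nA_m1 [Fact p.Prime] [Finite A] {m : A → ℤ} (hm : IsWt p ⊤ m) :
    (p : ℤ) * (Nat.card A : ℤ) ∣ nA p (⊤ : Subgroup A) m - nE (⊤ : Subgroup A) (m1 p m) := by
  classical
  cases nonempty_fintype A
  have hc : CF m := CF_of_wt hm
  obtain ⟨t, h1, h2⟩ := nA_trE (k := AlgebraicClosure (ZMod p)) (p := p) hc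
  obtain ⟨t', h3, h4⟩ := nE_trE (k := AlgebraicClosure (ZMod p)) (⊤ : Subgroup A) (m := m1 p m)
    (fun h _ x => CF_m1 hc h x)
  have h5 := trE_sec1 (p := p) (k := AlgebraicClosure (ZMod p)) (z := zel _ m) (zel_mem hc)
  have h6 : ((t - t' : ℤ) : AlgebraicClosure (ZMod p)) = 0 := by
    rw [Int.cast_sub, h2, h4, h5, sub_eq_zero, sec1_zel]
    rfl
  have h7 : (p : ℤ) ∣ t - t' := (CharP.intCast_eq_zero_iff (AlgebraicClosure (ZMod p)) p _).1 h6
  obtain ⟨c, hc'⟩ := h7
  rw [h1, h3, Subgroup.card_top, ← mul_sub, hc']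
  exact ⟨c, by ring⟩

theorem m1_eq [Fact p.Prime] [Finite A] {m : A → ℤ} (hm : IsWt p ⊤ m) (y : A) :
    m1 p m y = sx p m y + m y := by
  classical
  unfold m1 sx
  by_cases h : Preg p y
  · rw [if_neg (fun h' : (y * (pr p y)⁻¹) ^ p = 1 ∧ ¬ Preg p y => h'.2 h), pr_eq_self h,
      mul_inv_cancel, one_pow, if_pos rfl, zero_add]
  · have h1 : m y = 0 := by
      by_contra h2
      exact h (hm.reg y h2)
    rw [h1, add_zero]
    by_cases h2 : (y * (pr p y)⁻¹) ^ p = 1
    · rw [if_pos h2, if_pos ⟨h2, h⟩]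
    · rw [if_neg h2, if_neg (fun h' => h2 h'.1)]

theorem nE_m1 [Fact p.Prime] [Finite A] {m : A → ℤ} (hm : IsWt p ⊤ m) (U : Subgroup A) :
    nE U (m1 p m) = nE U (sx p m) + nE U m := by
  classical
  cases nonempty_fintype A
  unfold nE
  rw [finsum_eq_sum_of_fintype, finsum_eq_sum_of_fintype, finsum_eq_sum_of_fintype,
    ← Finset.sum_add_distrib]
  refine Finset.sum_congr rfl fun t _ => ?_
  split_ifs
  · exact m1_eq hm _
  · rw [add_zero]

end SxAux

theorem order_pp [Fact p.Prime] [Finite A] (y : A) :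
    orderOf (y * (pr p y)⁻¹) = p ↔ (y * (pr p y)⁻¹) ^ p = 1 ∧ ¬ Preg p y := by
  constructor
  · intro h
    refine ⟨?_, fun h1 => ?_⟩
    · conv_lhs => rw [← h]
      rw [h]
      nth_rewrite 2 [← h]
      exact pow_orderOf_eq_one _
    · rw [pr_eq_self h1, mul_inv_cancel, orderOf_one] at h
      exact (Fact.out : p.Prime).one_lt.ne h
  · rintro ⟨h1, h2⟩
    refine orderOf_eq_prime h1 (fun h3 => h2 ?_)
    have h4 : y = pr p y := mul_inv_eq_one.1 h3
    rw [h4]
    exact preg_pr y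

theorem CF_sx [Fact p.Prime] [Finite A] {m : A → ℤ} (hm : CF m) : CF (sx p m) := by
  intro g x
  have h := and_congr (SxAux.pp_pow_conj (p := p) g x) (not_congr (preg_cj (p := p) g x))
  unfold sx
  by_cases h2 : (x * (pr p x)⁻¹) ^ p = 1 ∧ ¬ Preg p x
  · rw [if_pos h2, if_pos (h.2 h2), pr_conj, hm]
  · rw [if_neg h2, if_neg (fun h3 => h2 (h.1 h3))]

theorem sx_dn [Fact p.Prime] [Finite A] (H : Subgroup A) (m : A → ℤ) :
    sx p (fun x : ↥H => m x) = fun x : ↥H => sx p m x := by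
  funext x
  have h : ((x : A) * (pr p (x : A))⁻¹) ^ p = 1 ↔ (x * (pr p x)⁻¹) ^ p = 1 := by
    rw [QuoAux.pr_coe' x, ← Subgroup.coe_inv, ← Subgroup.coe_mul, ← Subgroup.coe_pow,
      OneMemClass.coe_eq_one]
  have h1 := and_congr h (not_congr (DCAux.preg_coe (p := p) x))
  unfold sx
  by_cases h2 : (x * (pr p x)⁻¹) ^ p = 1 ∧ ¬ Preg p x
  · rw [if_pos h2, if_pos (h1.2 h2), QuoAux.pr_coe' x]
  · rw [if_neg h2, if_neg (fun h3 => h2 (h1.1 h3))]

theorem nE_sx [Fact p.Prime] [Finite A] {m : A → ℤ} (hm : IsWt p ⊤ m) :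
    (p : ℤ) * (Nat.card A : ℤ) ∣ nE (⊤ : Subgroup A) (sx p m)
      - (nA p (⊤ : Subgroup A) m - nE (⊤ : Subgroup A) m) := by
  have h := (dvd_neg.2 (SxAux.nA_m1 hm) : (p : ℤ) * (Nat.card A : ℤ) ∣ _)
  rw [SxAux.nE_m1 hm] at h
  have e : -(nA p (⊤ : Subgroup A) m - (nE (⊤ : Subgroup A) (sx p m) + nE (⊤ : Subgroup A) m)) =
      nE (⊤ : Subgroup A) (sx p m) - (nA p (⊤ : Subgroup A) m - nE (⊤ : Subgroup A) m) := by
    ring
  rwa [e] at h

end Pool.Agent.Lib.P0c8ca5.Gs
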