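import Mathlib
import Pool.Agent.Lib.P0c8ca5Gs.RelS
import Pool.Agent.Lib.P0c8ca5Gs.Sx
import Pool.Agent.Lib.P0c8ca5Bx.ClsB

/-!
# PrT: pairs as tuples

PROOF. `TW_Pt`: `ct`: `cmt` of the conjugated entries is the conjugated commutator, `CF_sx`. `rs`: `sx_dn`. `eT`: `eT_of_nT` (X): for `U ≤ G`: `nT U (Pt p m) = nE U (sx p m)` (pairs `(t 0, t 1)`: `gT t ≤ U` iff `t 0, t 1 ∈ U`, reindex by `finTwoArrowEquiv` or `piFinTwoEquiv`), and for the
group `↥U` `nE_sx` with `nT_dn`, `nE_dn`, `nA_dn` (P0c8ca5Bx.ABb), as `eT_S3` in X.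
`Pt_cls`: as `bQ_cls` (P0c8ca5Bx.ClsB, complete) with `order_pp`: `→`: for p-regular `c` the weight `m x = if IsConj c⁻¹ x then 1 else 0`; `pr p y⁻¹ = (pr p y)⁻¹`, the p-part of `y⁻¹` is the inverse of the p-part of `y`; so `bT p ⊤ (Pt p m)` is the number for `c`.
`←`: sum over the conjugacy classes of the p-regular elements. `Opr p ⊤ ≤ gT t` iff all p-regular `w` are in `closure {t 0, t 1}`.
-/

namespace Pool.Agent.Lib.P0c8ca5.Gs

open MonoidAlgebra Bx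

universe u

/-- pairs, weighted by `m` at the inverse of the p'-part of the commutator if its p-part has order `p` -/
noncomputable def Pt (p : ℕ) {A : Type*} [Group A] (m : A → ℤ) (t : Fin 2 → A) : ℤ :=
  sx p m (cmt (t 0) (t 1))⁻¹

namespace PrTAux

section
variable {A : Type*} [Group A]

theorem gT_two (y : A × A) :
    gT ((finTwoArrowEquiv A).symm y) = Subgroup.closure ({y.1, y.2} : Set A) := by
  unfold gT
  congr 1
  ext x
  simp only [Set.mem_range, Set.mem_insert_iff, Set.mem_singleton_iff]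
  constructor
  · rintro ⟨i, rfl⟩
    fin_cases i
    · exact Or.inl rfl
    · exact Or.inr rfl
  · rintro (rfl | rfl)
    · exact ⟨0, rfl⟩
    · exact ⟨1, rfl⟩

theorem clo_le {y : A × A} {U : Subgroup A} :
    Subgroup.closure ({y.1, y.2} : Set A) ≤ U ↔ y.1 ∈ U ∧ y.2 ∈ U := by
  rw [Subgroup.closure_le, Set.insert_subset_iff, Set.singleton_subset_iff]
  exact Iff.rfl

theorem Pt_two (p : ℕ) (m : A → ℤ) (y : A × A) :
    Pt p m ((finTwoArrowEquiv A).symm y) = sx p m (cmt y.1 y.2)⁻¹ := rfl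

theorem nT_Pt (p : ℕ) (m : A → ℤ) (U : Subgroup A) : nT U (Pt p m) = nE U (sx p m) := by
  classical
  unfold nT nE
  rw [← finsum_comp_equiv (finTwoArrowEquiv A).symm]
  refine finsum_congr fun y => ?_
  rw [gT_two, Pt_two]
  exact if_congr clo_le rfl rfl

theorem CT_Pt {p : ℕ} [Fact p.Prime] [Finite A] {m : A → ℤ} (hm : CF m) : CT (Pt p m) := by
  intro g t
  have h1 : cmt (cjt g t 0) (cjt g t 1) = g * cmt (t 0) (t 1) * g⁻¹ :=
    ChOrbAux.cmt_conj g (t 0) (t 1)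
  have h2 : (cmt (cjt g t 0) (cjt g t 1))⁻¹ = g * (cmt (t 0) (t 1))⁻¹ * g⁻¹ := by
    rw [h1]
    group
  unfold Pt
  rw [h2]
  exact CF_sx hm g _

theorem rsT_Pt (p : ℕ) [Fact p.Prime] [Finite A] (U : Subgroup A) (m : A → ℤ) :
    rsT U (Pt p m) = Pt p (fun x : ↥U => m x) := by
  funext t
  unfold rsT Pt
  rw [sx_dn]
  have h1 : (((cmt (t 0) (t 1))⁻¹ : ↥U) : A) = (cmt (t 0 : A) (t 1 : A))⁻¹ := by
    simp [cmt]
  exact congrArg (sx p m) h1.symm

theorem pr_inv (p : ℕ) (x : A) : pr p x⁻¹ = (pr p x)⁻¹ := by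
  unfold pr
  rw [inv_pow]

theorem order_inv (p : ℕ) (x : A) :
    orderOf (x⁻¹ * (pr p x⁻¹)⁻¹) = orderOf (x * (pr p x)⁻¹) := by
  have hc : Commute x (pr p x) := by
    unfold pr
    exact (Commute.refl x).pow_right _
  have h1 : x⁻¹ * (pr p x⁻¹)⁻¹ = (x * (pr p x)⁻¹)⁻¹ := by
    rw [pr_inv, inv_inv, mul_inv_rev, inv_inv]
    exact hc.inv_left.eq
  rw [h1, orderOf_inv]

theorem sx_inv {p : ℕ} [Fact p.Prime] [Finite A] (m : A → ℤ) (x : A) :
    (orderOf (x * (pr p x)⁻¹) = p → sx p m x⁻¹ = m (pr p x)⁻¹) ∧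
      (orderOf (x * (pr p x)⁻¹) ≠ p → sx p m x⁻¹ = 0) := by
  classical
  unfold sx
  rw [← order_inv, pr_inv]
  have h := order_pp (p := p) x⁻¹
  rw [pr_inv] at h
  constructor
  · intro h1
    rw [if_pos (h.1 h1)]
  · intro h1
    rw [if_neg (fun h2 => h1 (h.2 h2))]

end

end PrTAux

open PrTAux

theorem TW_Pt (p : ℕ) [Fact p.Prime] :
    TW p (fun (G : Type u) [Group G] => Pt p (A := G)) where
  ct _ _ _ _ hm := CT_Pt hm
  rs _ _ _ U m := rsT_Pt p U m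
  eT G _ _ m hm := by
    refine eT_of_nT hm (CT_Pt (CF_of_wt hm)) (fun U => ?_)
    have h := nE_sx (IsWt_dn U hm)
    rw [sx_dn, nE_dn, nA_dn, nE_dn, ← nT_Pt] at h
    exact h

theorem Pt_cls {p : ℕ} [Fact p.Prime] {G : Type*} [Group G] [Finite G] (D : ℤ) :
    (∀ m : G → ℤ, IsWt p ⊤ m → D ∣ bT p (⊤ : Subgroup G) (Pt p m)) ↔
    (∀ c : G, Preg p c → D ∣ (Nat.card {y : G × G //
      orderOf (cmt y.1 y.2 * (pr p (cmt y.1 y.2))⁻¹) = p ∧ IsConj c (pr p (cmt y.1 y.2)) ∧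
      ∀ w : G, Preg p w → w ∈ Subgroup.closure ({y.1, y.2} : Set G)} : ℤ)) := by
  classical
  have : Fintype G := Fintype.ofFinite G
  obtain ⟨P, hP⟩ : ∃ P : G × G → Prop, ∀ y, P y ↔
    Opr p (⊤ : Subgroup G) ≤ Subgroup.closure ({y.1, y.2} : Set G) ∧
      orderOf (cmt y.1 y.2 * (pr p (cmt y.1 y.2))⁻¹) = p := ⟨_, fun _ => Iff.rfl⟩
  have h1 : ∀ m : G → ℤ, bT p (⊤ : Subgroup G) (Pt p m)
      = ∑ y : G × G, if P y then m (pr p (cmt y.1 y.2) ^ p ^ 0)⁻¹ else 0 := by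
    intro m
    unfold bT
    rw [← finsum_comp_equiv (finTwoArrowEquiv G).symm, finsum_eq_sum_of_fintype]
    refine Finset.sum_congr rfl fun y _ => ?_
    rw [gT_two, Pt_two, pow_zero, pow_one]
    obtain ⟨s1, s2⟩ := sx_inv (p := p) m (cmt y.1 y.2)
    by_cases a1 : Opr p (⊤ : Subgroup G) ≤ Subgroup.closure ({y.1, y.2} : Set G)
    · rw [if_pos ⟨le_top, a1⟩]
      by_cases a2 : orderOf (cmt y.1 y.2 * (pr p (cmt y.1 y.2))⁻¹) = p
      · rw [s1 a2, if_pos ((hP y).2 ⟨a1, a2⟩)]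
      · rw [s2 a2, if_neg (fun h => a2 ((hP y).1 h).2)]
    · rw [if_neg (fun h => a1 h.2), if_neg (fun h => a1 ((hP y).1 h).1)]
  have h2 := ClsBAux.gen_cls (p := p) P (fun y => pr p (cmt y.1 y.2)) (fun y => preg_pr _) 0 D
  simp only [h1]
  rw [h2]
  refine forall_congr' fun c => forall_congr' fun _ => ?_
  have h3 : Nat.card {y : G × G // P y ∧ IsConj c (pr p (cmt y.1 y.2))} =
      Nat.card {y : G × G // orderOf (cmt y.1 y.2 * (pr p (cmt y.1 y.2))⁻¹) = p ∧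
      IsConj c (pr p (cmt y.1 y.2)) ∧
      ∀ w : G, Preg p w → w ∈ Subgroup.closure ({y.1, y.2} : Set G)} := by
    refine Nat.card_congr ((Equiv.refl _).subtypeEquiv fun y => ?_)
    rw [Equiv.refl_apply, ← ClsFAux.opr_le_iff, hP y]
    tauto
  rw [h3]

end Pool.Agent.Lib.P0c8ca5.Gs
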