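import Mathlib
import Pool.Agent.Lib.P0c8ca5Gs.TA

/-!
# Cls: weights and classes
-/

namespace Pool.Agent.Lib.P0c8ca5.Gs

open MonoidAlgebra Bx

namespace ClsAux

variable {p : ℕ} {G : Type*} [Group G]

theorem opr_le (K : Subgroup G) :
    Opr p (⊤ : Subgroup G) ≤ K ↔ ∀ y : G, Preg p y → y ∈ K := by
  unfold Opr
  rw [Subgroup.closure_le]
  constructor
  · intro h y hy
    exact h ⟨Subgroup.mem_top y, hy⟩
  · rintro h y ⟨_, hy⟩
    exact h y hy

theorem conj_inv {x y : G} (h : IsConj x y) : IsConj x⁻¹ y⁻¹ := by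
  obtain ⟨c, hc⟩ := isConj_iff.1 h
  refine isConj_iff.2 ⟨c, ?_⟩
  rw [← hc]
  group

theorem conj_inv_iff {x y : G} : IsConj x⁻¹ y⁻¹ ↔ IsConj x y :=
  ⟨fun h => by have := conj_inv h; rwa [inv_inv, inv_inv] at this, conj_inv⟩

theorem preg_inv {y : G} : Preg p y⁻¹ ↔ Preg p y := by
  unfold Preg
  rw [orderOf_inv]

theorem preg_isConj {x y : G} (h : IsConj x y) (hx : Preg p x) : Preg p y := by
  obtain ⟨c, hc⟩ := isConj_iff.1 h
  rw [← hc]
  unfold Preg at hx ⊢
  have e1 : orderOf (c * x * c⁻¹) = orderOf x := by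
    have := orderOf_injective (MulAut.conj c).toMonoidHom (MulAut.conj c).injective x
    simpa using this
  rwa [e1]

open Classical in
/-- the indicator of the conjugacy class of `c` -/
noncomputable def ind (c x : G) : ℤ := if IsConj c x then 1 else 0

theorem ind_pos {c x : G} (h : IsConj c x) : ind c x = 1 := by
  unfold ind
  exact if_pos h

theorem ind_neg {c x : G} (h : ¬ IsConj c x) : ind c x = 0 := by
  unfold ind
  exact if_neg h

theorem isWt_ind {c : G} (hc : Preg p c) :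
    IsWt p (⊤ : Subgroup G) (ind c⁻¹) := by
  refine ⟨fun g _ y => ?_, fun y hy => ?_⟩
  · have h1 : IsConj y (g * y * g⁻¹) := isConj_iff.2 ⟨g, rfl⟩
    by_cases h2 : IsConj c⁻¹ y
    · rw [ind_pos h2, ind_pos (h2.trans h1)]
    · rw [ind_neg h2, ind_neg (fun h3 => h2 (h3.trans h1.symm))]
  · have h2 : IsConj c⁻¹ y := by
      by_contra h
      exact hy (ind_neg h)
    exact preg_isConj h2 (preg_inv.2 hc)

theorem gen_cls [Finite G] {ι : Type*} [Fintype ι] (P : ι → Prop) [DecidablePred P]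
    (ψ : ι → G) {q : ℕ}
    (hq : q ≠ 0) (d : ℤ) :
    (∀ m : G → ℤ, IsWt p ⊤ m → d ∣ ∑ y, if P y then (m (ψ y)⁻¹) ^ q else 0) ↔
    ∀ c : G, Preg p c → d ∣ (Nat.card {y : ι // P y ∧ IsConj c (ψ y)} : ℤ) := by
  classical
  have : Fintype G := Fintype.ofFinite G
  have hcard : ∀ c : G, (Nat.card {y : ι // P y ∧ IsConj c (ψ y)} : ℤ)
      = ∑ y, if P y then ind c (ψ y) else 0 := by
    intro c
    rw [Nat.card_eq_fintype_card, Fintype.card_subtype, Finset.card_filter]
    push_cast
    refine Finset.sum_congr rfl fun y _ => ?_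
    by_cases h1 : P y
    · by_cases h2 : IsConj c (ψ y)
      · rw [if_pos ⟨h1, h2⟩, if_pos h1, ind_pos h2]
      · rw [if_neg (fun h => h2 h.2), if_pos h1, ind_neg h2]
    · rw [if_neg (fun h => h1 h.1), if_neg h1]
  constructor
  · intro h c hc
    have h1 := h (ind c⁻¹) (isWt_ind hc)
    rw [hcard]
    refine h1.trans (dvd_of_eq (Finset.sum_congr rfl fun y _ => ?_))
    by_cases h2 : P y
    · rw [if_pos h2, if_pos h2]
      by_cases h3 : IsConj c (ψ y)
      · rw [ind_pos (conj_inv_iff.2 h3), ind_pos h3, one_pow]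
      · rw [ind_neg (fun h => h3 (conj_inv_iff.1 h)), ind_neg h3, zero_pow hq]
    · rw [if_neg h2, if_neg h2]
  · intro h m hm
    have key : (∑ y, if P y then (m (ψ y)⁻¹) ^ q else 0)
        = ∑ X : ConjClasses G, (m (Quotient.out X)⁻¹) ^ q *
            (Nat.card {y : ι // P y ∧ IsConj (Quotient.out X) (ψ y)} : ℤ) := by
      simp only [hcard, Finset.mul_sum]
      rw [Finset.sum_comm]
      refine Finset.sum_congr rfl (fun y _ => ?_)
      by_cases hg : P y
      · simp only [if_pos hg]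
        rw [Finset.sum_eq_single (ConjClasses.mk (ψ y))]
        · have h1 : IsConj (Quotient.out (ConjClasses.mk (ψ y))) (ψ y) :=
            ConjClasses.mk_eq_mk_iff_isConj.1 (Quotient.out_eq _)
          rw [ind_pos h1, mul_one]
          obtain ⟨c, hc⟩ := isConj_iff.1 (conj_inv h1)
          have h2 := hm.conj c (Subgroup.mem_top c)
            (Quotient.out (ConjClasses.mk (ψ y)))⁻¹
          rw [hc] at h2
          rw [h2]
        · intro X _ hX
          rw [ind_neg, mul_zero]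
          intro h1
          apply hX
          have h2 := ConjClasses.mk_eq_mk_iff_isConj.2 h1
          rw [← h2]
          exact (Quotient.out_eq X).symm
        · intro h1
          exact absurd (Finset.mem_univ _) h1
      · simp only [if_neg hg, mul_zero, Finset.sum_const_zero]
    rw [key]
    refine Finset.dvd_sum (fun X _ => ?_)
    by_cases hX : Preg p (Quotient.out X)
    · exact Dvd.dvd.mul_left (h _ hX) _
    · have h0 : m (Quotient.out X)⁻¹ = 0 := by
        by_contra h1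
        exact hX (preg_inv.1 (hm.reg _ h1))
      rw [h0, zero_pow hq, zero_mul]
      exact dvd_zero _

end ClsAux

open ClsAux

theorem tX_cls {p : ℕ} [Fact p.Prime] {G : Type*} [Group G] [Finite G] (D : ℤ) (N : ℕ) {q : ℕ}
    (hq : q ≠ 0) :
    (∀ m : G → ℤ, IsWt p ⊤ m → D ∣ tX p N (fun x => (m x⁻¹) ^ q)) ↔
    (∀ c : G, Preg p c → D ∣ (Nat.card {x : Fin N → G // (∀ i, x i ^ p = 1 ∧ x i ≠ 1) ∧
      IsConj c (List.ofFn x).prod ∧
      ∀ w : G, Preg p w → w ∈ Subgroup.closure (Set.range x)} : ℤ)) := by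
  classical
  have : Fintype G := Fintype.ofFinite G
  obtain ⟨P, hP⟩ : ∃ P : (Fin N → G) → Prop, ∀ x, P x ↔
      ((∀ i, x i ^ p = 1 ∧ x i ≠ 1) ∧ Opr p (⊤ : Subgroup G) ≤ gT x) :=
    ⟨_, fun _ => Iff.rfl⟩
  have h1 : ∀ m : G → ℤ, tX p N (fun x => (m x⁻¹) ^ q) =
      ∑ x : Fin N → G, if P x then (m ((List.ofFn x).prod)⁻¹) ^ q else 0 := by
    intro m
    unfold tX
    rw [finsum_eq_sum_of_fintype]
    refine Finset.sum_congr rfl fun x _ => ?_
    by_cases h2 : P x
    · rw [if_pos h2, if_pos ((hP x).1 h2)]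
    · rw [if_neg h2, if_neg (fun h3 => h2 ((hP x).2 h3))]
  simp only [h1]
  rw [gen_cls (p := p) P (fun x => (List.ofFn x).prod) hq D]
  refine forall_congr' fun c => forall_congr' fun _ => ?_
  have h3 : Nat.card {x : Fin N → G // P x ∧ IsConj c (List.ofFn x).prod} =
      Nat.card {x : Fin N → G // (∀ i, x i ^ p = 1 ∧ x i ≠ 1) ∧
      IsConj c (List.ofFn x).prod ∧
      ∀ w : G, Preg p w → w ∈ Subgroup.closure (Set.range x)} := by
    refine Nat.card_congr (Equiv.subtypeEquivRight fun x => ?_)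
    rw [hP x, opr_le]
    unfold gT
    tauto
  rw [h3]

end Pool.Agent.Lib.P0c8ca5.Gs
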