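import Mathlib
import Pool.Agent.Lib.P0c8ca5Bx.RqC
import Pool.Agent.Lib.P0c8ca5Gs.TC

/-!
# RtA: the rotation of the tuples

`nYT p t`: the number of the `y` with `y ^ p = 1` and `shf t = y t y⁻¹`.

PROOF. Copy of P0c8ca5Bx.RqC (`rotq_congr`; complete) with tuples `t : κ × ZMod p → A` for the pairs, `E = shf` (`shf (cjt g t) = cjt g (shf t)`, `shf^[p] t = t` because `p = 0` in `ZMod p`, `gT (shf t) = gT t` because
`i ↦ (i.1, i.2 + 1)` is a bijection), `r = 1`, and `1` in place of the commutator; `f t` for `f (cmt t.1 t.2)⁻¹`. The set `Y t` of the `y` with `shf t = y t y⁻¹`, `y ^ p = 1`: if `shf t = x t x⁻¹` for some `x`, then `x ^ p` is in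
`C = centralizer of gT t`, a group of order prime to `p` (`NoP p ⊤`, `Opr p ⊤ ≤ gT t`) normalized by `x`, and `Y t` is the set of the elements of `x C` with `y ^ p = 1`; its number is `1` modulo `p` (see RqC).
-/

namespace Pool.Agent.Lib.P0c8ca5.Gs

variable {κ : Type*} {p : ℕ} {A : Type*} [Group A]

/-- the number of the `y` with `y ^ p = 1` and `shf t = y t y⁻¹` -/
noncomputable def nYT (p : ℕ) {κ : Type*} {A : Type*} [Group A] (t : κ × ZMod p → A) : ℕ :=
  Nat.card {y : A // shf t = cjt y t ∧ y ^ p = 1}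

namespace RtAAux

theorem cj_one {ι : Type*} (t : ι → A) : cjt 1 t = t := by
  funext i
  simp [cjt]

theorem cj_mul {ι : Type*} (g h : A) (t : ι → A) : cjt (g * h) t = cjt g (cjt h t) := by
  funext i
  simp only [cjt, mul_inv_rev, mul_assoc]

/-- conjugation by `g` as a permutation -/
def cjP {ι : Type*} (g : A) : Equiv.Perm (ι → A) where
  toFun := cjt g
  invFun := cjt g⁻¹
  left_inv t := by rw [← cj_mul, inv_mul_cancel, cj_one]
  right_inv t := by rw [← cj_mul, mul_inv_cancel, cj_one]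

/-- conjugation as a homomorphism -/
def cjH {ι : Type*} : A →* Equiv.Perm (ι → A) where
  toFun := cjP
  map_one' := Equiv.ext cj_one
  map_mul' g h := Equiv.ext (cj_mul g h)

theorem gT_cj {ι : Type*} (g : A) (t : ι → A) :
    gT (cjt g t) = (gT t).map (MulAut.conj g).toMonoidHom := by
  unfold gT
  rw [MonoidHom.map_closure, ← Set.range_comp]
  rfl

theorem opr_gT_cj {ι : Type*} (g : A) (t : ι → A) :
    Opr p (⊤ : Subgroup A) ≤ gT (cjt g t) ↔ Opr p (⊤ : Subgroup A) ≤ gT t := by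
  rw [gT_cj]
  conv_lhs => rw [← RotAux.map_Opr_top (p := p) g]
  exact Subgroup.map_le_map_iff_of_injective (MulAut.conj g).injective

theorem cent_fix {ι : Type*} {z : A} {t : ι → A} (h : cjt z t = t) {x : A} (hx : x ∈ gT t) :
    z * x = x * z := by
  have h4 : gT t ≤ Subgroup.centralizer {z} := by
    unfold gT
    rw [Subgroup.closure_le]
    rintro y ⟨i, rfl⟩
    have h1 : z * t i * z⁻¹ = t i := congrFun h i
    rw [mul_inv_eq_iff_eq_mul] at h1
    exact Subgroup.mem_centralizer_singleton_iff.2 h1.symm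
  exact (Subgroup.mem_centralizer_singleton_iff.1 (h4 hx)).symm

theorem no_cent {ι : Type*} [Fact p.Prime] [Finite A] (hO : NoP p (⊤ : Subgroup A)) {t : ι → A}
    (ht : Opr p (⊤ : Subgroup A) ≤ gT t) {z : A} (hz : cjt z t = t) : ¬ p ∣ orderOf z := by
  intro hp
  have hp0 : 0 < p := (Fact.out : p.Prime).pos
  obtain ⟨n, hn⟩ := hp
  have hn0 : n ≠ 0 := by
    rintro rfl
    rw [mul_zero] at hn
    exact (orderOf_pos z).ne' hn
  have h1 : orderOf (z ^ n) = p := by
    rw [orderOf_pow' z hn0, hn, Nat.gcd_eq_right (Dvd.intro_left p rfl),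
      Nat.mul_div_cancel _ (Nat.pos_of_ne_zero hn0)]
  have h2 : Subgroup.zpowers (z ^ n) = ⊥ := by
    refine norm_trivial hO le_top (IsPGroup.of_card (n := 1) (by
      rw [Nat.card_zpowers, h1, pow_one])) ?_
    intro x hx
    have h3 : z ^ n * x = x * z ^ n := by
      have h4 : Commute z x := cent_fix hz (ht hx)
      exact (h4.pow_left n).eq
    have h5 : x ∈ Subgroup.centralizer (Subgroup.zpowers (z ^ n) : Set A) := by
      rw [Subgroup.mem_centralizer_iff]
      rintro y ⟨k, rfl⟩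
      have h6 : Commute (z ^ n) x := h3
      exact (h6.zpow_left k).eq
    exact Subgroup.centralizer_le_normalizer _ h5
  rw [Subgroup.zpowers_eq_bot] at h2
  rw [h2, orderOf_one] at h1
  exact (Fact.out : p.Prime).one_lt.ne h1

theorem shf_cj (g : A) (t : κ × ZMod p → A) : shf (cjt g t) = cjt g (shf t) := rfl

theorem shf_iter (n : ℕ) (t : κ × ZMod p → A) (i : κ × ZMod p) :
    shf^[n] t i = t (i.1, i.2 + n) := by
  induction n generalizing t i with
  | zero => simp
  | succ n ih =>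
    rw [Function.iterate_succ_apply, ih]
    change t (i.1, i.2 + n + 1) = _
    rw [Nat.cast_succ, add_assoc]

theorem shf_p (t : κ × ZMod p → A) : shf^[p] t = t := by
  funext i
  rw [shf_iter, ZMod.natCast_self, add_zero]

theorem shf_inj : Function.Injective (shf : (κ × ZMod p → A) → (κ × ZMod p → A)) := by
  intro s t hst
  funext i
  have h := congrFun hst (i.1, i.2 - 1)
  change s (i.1, i.2 - 1 + 1) = t (i.1, i.2 - 1 + 1) at h
  rw [sub_add_cancel] at h
  exact h

theorem gT_shf (t : κ × ZMod p → A) : gT (shf t) = gT t := by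
  unfold gT
  have h : Set.range (shf t) = Set.range t := by
    ext x
    constructor
    · rintro ⟨i, rfl⟩
      exact ⟨(i.1, i.2 + 1), rfl⟩
    · rintro ⟨i, rfl⟩
      refine ⟨(i.1, i.2 - 1), ?_⟩
      change t (i.1, i.2 - 1 + 1) = t i
      rw [sub_add_cancel]
  rw [h]

theorem cj_inj {ι : Type*} (g : A) {s t : ι → A} (h : cjt g s = cjt g t) : s = t :=
  (cjP g).injective h

theorem iter_fix {h : A} {t : κ × ZMod p → A} (ht : shf t = cjt h t) (n : ℕ) :
    shf^[n] t = cjt (h ^ n) t := by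
  induction n with
  | zero => rw [pow_zero, cj_one]; rfl
  | succ n ih =>
    rw [Function.iterate_succ_apply', ih, shf_cj, ht, ← cj_mul, pow_succ]

theorem fix_pow {ι : Type*} {g : A} {t : ι → A} (hg : cjt g t = t) (n : ℕ) :
    cjt (g ^ n) t = t := by
  induction n with
  | zero => rw [pow_zero, cj_one]
  | succ n ih => rw [pow_succ, cj_mul, hg, ih]

theorem fix_inv {ι : Type*} {g : A} {t : ι → A} (hg : cjt g t = t) : cjt g⁻¹ t = t := by
  conv_lhs => rw [← hg]
  rw [← cj_mul, inv_mul_cancel, cj_one]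

/-- an element `x₀` with `shf t = x₀ t x₀⁻¹` and `x₀ ^ p = 1` -/
theorem exists_root [Fact p.Prime] [Finite A]
    (hO : NoP p (⊤ : Subgroup A)) {t : κ × ZMod p → A} (ht : Opr p (⊤ : Subgroup A) ≤ gT t)
    {h : A} (hh : shf t = cjt h t) : ∃ x : A, shf t = cjt x t ∧ x ^ p = 1 := by
  have hp : p.Prime := Fact.out
  have h2 : cjt (h ^ p) t = t := by
    rw [← iter_fix hh, shf_p]
  have hzi : cjt (h ^ p)⁻¹ t = t := fix_inv h2
  have h3 := no_cent hO ht hzi
  have h6 : p.Coprime (orderOf (h ^ p)⁻¹) := (Nat.Prime.coprime_iff_not_dvd hp).2 h3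
  obtain ⟨m, hm⟩ := exists_pow_eq_self_of_coprime h6
  refine ⟨h * (h ^ p)⁻¹ ^ m, ?_, ?_⟩
  · rw [cj_mul, fix_pow hzi, hh]
  · have h7 : Commute h ((h ^ p)⁻¹ ^ m) :=
      (((Commute.refl h).pow_right p).inv_right).pow_right m
    rw [h7.mul_pow, ← pow_mul, mul_comm m, pow_mul, hm, mul_inv_cancel]

theorem nYT_mod [Fact p.Prime] [Finite A]
    (hO : NoP p (⊤ : Subgroup A)) {t : κ × ZMod p → A} (ht : Opr p (⊤ : Subgroup A) ≤ gT t)
    {h : A} (hh : shf t = cjt h t) : (p : ℤ) ∣ 1 - (nYT p t : ℤ) := by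
  classical
  have hp : p.Prime := Fact.out
  have : Fintype A := Fintype.ofFinite A
  obtain ⟨x0, hx0t, hx0q⟩ := exists_root hO ht hh
  have hcent : ∀ x : A, shf t = cjt x t → cjt (x0⁻¹ * x) t = t := by
    intro x hxt
    rw [cj_mul, ← hxt, hx0t, ← cj_mul, inv_mul_cancel, cj_one]
  have hstab : ∀ x : A, shf t = cjt x t ∧ x ^ p = 1 →
      shf t = cjt (x0 * x * x0⁻¹) t ∧ (x0 * x * x0⁻¹) ^ p = 1 := by
    rintro x ⟨hxt, hx⟩
    refine ⟨?_, ?_⟩
    · have hc := hcent x hxt
      have hs : shf (cjt x0⁻¹ t) = t := by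
        rw [shf_cj, hx0t, ← cj_mul, inv_mul_cancel, cj_one]
      have hcs : cjt (x0⁻¹ * x) (cjt x0⁻¹ t) = cjt x0⁻¹ t := by
        apply shf_inj
        rw [shf_cj, hs, hc]
      have e1 : x0 * x * x0⁻¹ = x0 * (x0 * (x0⁻¹ * x) * x0⁻¹) := by group
      rw [e1, cj_mul, cj_mul (x0 * (x0⁻¹ * x)), cj_mul x0 (x0⁻¹ * x), hcs, ← cj_mul x0 x0⁻¹,
        mul_inv_cancel, cj_one, hx0t]
    · rw [conj_pow, hx, mul_one, mul_inv_cancel]
  let S := {x : A // shf t = cjt x t ∧ x ^ p = 1}
  let f : Function.End S := fun s => ⟨x0 * s.1 * x0⁻¹, hstab s.1 s.2⟩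
  have hf1 : ∀ (n : ℕ) (s : S), ((f ^ n) s : A) = x0 ^ n * s.1 * (x0 ^ n)⁻¹ := by
    intro n
    induction n with
    | zero =>
      intro s
      rw [pow_zero, pow_zero, one_mul, inv_one, mul_one]
      rfl
    | succ n ih =>
      intro s
      have h6 : (f ^ (n + 1)) s = f ((f ^ n) s) := by rw [pow_succ']; rfl
      rw [h6]
      change x0 * ((f ^ n) s : A) * x0⁻¹ = _
      rw [ih, pow_succ']
      group
  have hf : f ^ p ^ 1 = 1 := by
    rw [pow_one]
    funext s
    apply Subtype.ext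
    rw [hf1, hx0q]
    change 1 * (s : A) * 1⁻¹ = (s : A)
    rw [one_mul, inv_one, mul_one]
  have h6 := Equiv.Perm.card_fixedPoints_modEq hf
  have h7 : Fintype.card (Function.fixedPoints f) = 1 := by
    rw [Fintype.card_eq_one_iff]
    have hx0S : shf t = cjt x0 t ∧ x0 ^ p = 1 := ⟨hx0t, hx0q⟩
    refine ⟨⟨⟨x0, hx0S⟩, ?_⟩, ?_⟩
    · apply Subtype.ext
      change x0 * x0 * x0⁻¹ = x0
      group
    · rintro ⟨⟨x, hxt, hx⟩, hfx⟩
      have h8 : x0 * x * x0⁻¹ = x := congrArg Subtype.val hfx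
      have h9 : Commute x0 x := mul_inv_eq_iff_eq_mul.1 h8
      have h10 := no_cent hO ht (hcent x hxt)
      have h11 : (x0⁻¹ * x) ^ p = 1 := by
        rw [h9.inv_left.mul_pow, inv_pow, hx0q, hx, inv_one, mul_one]
      have h12 : orderOf (x0⁻¹ * x) = 1 := by
        have h13 : Nat.Coprime (orderOf (x0⁻¹ * x)) p :=
          ((Nat.Prime.coprime_iff_not_dvd hp).2 h10).symm
        exact Nat.dvd_one.1 (h13 ▸ Nat.dvd_gcd dvd_rfl (orderOf_dvd_of_pow_eq_one h11))
      rw [orderOf_eq_one_iff] at h12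
      apply Subtype.ext
      apply Subtype.ext
      exact (inv_mul_eq_one.1 h12).symm
  rw [h7] at h6
  have h8 : nYT p t = Fintype.card S := by
    unfold nYT
    rw [Nat.card_eq_fintype_card]
  rw [h8]
  exact (Nat.modEq_iff_dvd).1 h6

theorem nYT_shf (t : κ × ZMod p → A) : nYT p (shf t) = nYT p t := by
  unfold nYT
  refine Nat.card_congr (Equiv.subtypeEquivRight fun x => ?_)
  refine and_congr ?_ Iff.rfl
  rw [← shf_cj]
  exact ⟨fun h => shf_inj h, fun h => congrArg shf h⟩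

theorem nYT_cj (g : A) (t : κ × ZMod p → A) : nYT p (cjt g t) = nYT p t := by
  unfold nYT
  refine (Nat.card_congr (Equiv.subtypeEquiv (MulAut.conj g).toEquiv fun x => ?_)).symm
  change _ ↔ shf (cjt g t) = cjt (g * x * g⁻¹) (cjt g t) ∧ (g * x * g⁻¹) ^ p = 1
  rw [shf_cj, ← cj_mul, conj_pow]
  have h1 : g * x * g⁻¹ * g = g * x := by group
  rw [h1, cj_mul]
  refine and_congr ⟨fun h => congrArg _ h, fun h => (cjP g).injective h⟩ ?_
  constructor
  · intro h
    rw [h, mul_one, mul_inv_cancel]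
  · intro h
    rwa [mul_inv_eq_one, mul_eq_left] at h

open Classical in
/-- the weight of a tuple -/
noncomputable def wT (p : ℕ) {ι : Type*} (f : (ι → A) → ℤ) (t : ι → A) : ℤ :=
  if Opr p (⊤ : Subgroup A) ≤ gT t then f t else 0

theorem wT_shf {f : (κ × ZMod p → A) → ℤ} (hs : ∀ t, f (shf t) = f t) (t : κ × ZMod p → A) :
    wT p f (shf t) = wT p f t := by
  unfold wT
  rw [gT_shf, hs]

theorem wT_cj {ι : Type*} {f : (ι → A) → ℤ} (hf : CT f) (g : A) (t : ι → A) :
    wT p f (cjt g t) = wT p f t := by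
  classical
  unfold wT
  rw [hf g t]
  exact if_congr (opr_gT_cj g t) rfl rfl

end RtAAux

open Classical in
theorem rot_congr [Fact p.Prime] [Finite A] [Finite κ] (hO : NoP p (⊤ : Subgroup A))
    {f : (κ × ZMod p → A) → ℤ} (hf : CT f) (hs : ∀ t, f (shf t) = f t) :
    (p : ℤ) * (ordProj[p] (Nat.card A) : ℕ) ∣ bT p (⊤ : Subgroup A) f -
      ∑ᶠ t : κ × ZMod p → A, (if Opr p (⊤ : Subgroup A) ≤ gT t then f t else 0)
        * (nYT p t : ℤ) := by
  classical
  have hp : p.Prime := Fact.out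
  have : Fintype A := Fintype.ofFinite A
  have : Fintype κ := Fintype.ofFinite κ
  have : NeZero p := ⟨hp.ne_zero⟩
  have hinj := RtAAux.shf_inj (κ := κ) (p := p) (A := A)
  let F : Equiv.Perm (κ × ZMod p → A) :=
    Equiv.ofBijective shf (Finite.injective_iff_bijective.1 hinj)
  have hFE : ∀ t, F t = shf t := fun t => rfl
  let C : Subgroup (Equiv.Perm (κ × ZMod p → A)) := Subgroup.zpowers F
  have hcomm : ∀ (g : A) (c : ↥C), Commute (RtAAux.cjH g) (C.subtype c) := by
    rintro g ⟨c, k, rfl⟩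
    refine Commute.zpow_right ?_ k
    exact Equiv.ext fun t => (RtAAux.shf_cj g t).symm
  let Ψ : A × ↥C →* Equiv.Perm (κ × ZMod p → A) :=
    MonoidHom.noncommCoprod RtAAux.cjH C.subtype hcomm
  let _ : MulAction (A × ↥C) (κ × ZMod p → A) := MulAction.compHom _ Ψ
  have hsm : ∀ (g : A) (c : ↥C) (t : κ × ZMod p → A),
      ((g, c) : A × ↥C) • t = cjt g ((c : Equiv.Perm (κ × ZMod p → A)) t) := fun _ _ _ => rfl
  have hwF : ∀ (k : ℤ) (t : κ × ZMod p → A),
      RtAAux.wT p f ((F ^ k) t) = RtAAux.wT p f t := by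
    have h1 : ∀ (n : ℕ) (t : κ × ZMod p → A),
        RtAAux.wT p f ((F ^ n) t) = RtAAux.wT p f t := by
      intro n
      induction n with
      | zero => intro t; rfl
      | succ n ih =>
        intro t
        rw [pow_succ, Equiv.Perm.mul_apply, ih, hFE, RtAAux.wT_shf hs]
    intro k t
    obtain ⟨n, rfl | rfl⟩ := k.eq_nat_or_neg
    · rw [zpow_natCast, h1]
    · rw [← h1 n ((F ^ (-(n : ℤ))) t), ← Equiv.Perm.mul_apply, zpow_neg, zpow_natCast,
        mul_inv_cancel]
      rfl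
  have hnF : ∀ (k : ℤ) (t : κ × ZMod p → A), nYT p ((F ^ k) t) = nYT p t := by
    have h1 : ∀ (n : ℕ) (t : κ × ZMod p → A), nYT p ((F ^ n) t) = nYT p t := by
      intro n
      induction n with
      | zero => intro t; rfl
      | succ n ih =>
        intro t
        rw [pow_succ, Equiv.Perm.mul_apply, ih, hFE, RtAAux.nYT_shf]
    intro k t
    obtain ⟨n, rfl | rfl⟩ := k.eq_nat_or_neg
    · rw [zpow_natCast, h1]
    · rw [← h1 n ((F ^ (-(n : ℤ))) t), ← Equiv.Perm.mul_apply, zpow_neg, zpow_natCast,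
        mul_inv_cancel]
      rfl
  have key := orb_dvd_p (p := p) (T := A × ↥C) (X := κ × ZMod p → A)
    (fun t => ((ordProj[p] (Nat.card C) : ℕ) : ℤ) *
      (RtAAux.wT p f t * (1 - (nYT p t : ℤ)))) ?_ (p : ℤ) ?_
  · rw [← Finset.mul_sum, Nat.card_prod, Nat.ordProj_mul p Nat.card_pos.ne' Nat.card_pos.ne'] at key
    have h1 : (((ordProj[p] (Nat.card C) : ℕ) : ℤ)) ≠ 0 := by
      exact_mod_cast (Nat.ordProj_pos (Nat.card C) p).ne'
    have h2 : (p : ℤ) * ((ordProj[p] (Nat.card A) * ordProj[p] (Nat.card C) : ℕ) : ℤ)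
        = ((ordProj[p] (Nat.card C) : ℕ) : ℤ) * ((p : ℤ) * (ordProj[p] (Nat.card A) : ℕ)) := by
      push_cast
      ring
    rw [h2] at key
    have h3 := (mul_dvd_mul_iff_left h1).1 key
    have h4 : bT p (⊤ : Subgroup A) f -
        ∑ᶠ t : κ × ZMod p → A, (if Opr p (⊤ : Subgroup A) ≤ gT t then f t else 0)
          * (nYT p t : ℤ)
        = ∑ t : κ × ZMod p → A, RtAAux.wT p f t * (1 - (nYT p t : ℤ)) := by
      unfold bT
      rw [finsum_eq_sum_of_fintype, finsum_eq_sum_of_fintype, ← Finset.sum_sub_distrib]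
      refine Finset.sum_congr rfl fun t _ => ?_
      unfold RtAAux.wT
      by_cases h5 : Opr p (⊤ : Subgroup A) ≤ gT t
      · rw [if_pos ⟨le_top, h5⟩, if_pos h5]
        ring
      · rw [if_neg (fun h6 => h5 h6.2), if_neg h5]
        ring
    rw [h4]
    exact h3
  · rintro ⟨g, c, k, rfl⟩ t
    simp only [hsm]
    rw [RtAAux.wT_cj hf, hwF, RtAAux.nYT_cj, hnF]
  · intro t
    by_cases hw : Opr p (⊤ : Subgroup A) ≤ gT t
    swap
    · have hw0 : RtAAux.wT p f t = 0 := if_neg hw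
      simp only [hw0, zero_mul, mul_zero]
      exact dvd_zero _
    let St : Subgroup (A × ↥C) := MulAction.stabilizer (A × ↥C) t
    let π : ↥St →* ↥C := (MonoidHom.snd A ↥C).comp St.subtype
    have hπ : ∀ s : ↥St, π s = (s : A × ↥C).2 := fun s => rfl
    have hker : ¬ p ∣ Nat.card π.ker := by
      intro h1
      obtain ⟨s, hs⟩ := exists_prime_orderOf_dvd_card' p h1
      have h2 : ((s : ↥St) : A × ↥C).2 = 1 := s.2
      have h3 : (((s : ↥St) : A × ↥C)) • t = t := (s : ↥St).2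
      have h4 : cjt ((s : ↥St) : A × ↥C).1 t = t := by
        have h5 := hsm ((s : ↥St) : A × ↥C).1 ((s : ↥St) : A × ↥C).2 t
        rw [h2] at h5
        rw [← Prod.mk.eta (p := ((s : ↥St) : A × ↥C)), h2] at h3
        exact h5.symm.trans h3
      refine RtAAux.no_cent hO hw h4 ?_
      have h5 : ((s : ↥St) : A × ↥C).1 ^ p = 1 := by
        have h6 : s ^ p = 1 := orderOf_dvd_iff_pow_eq_one.1 (dvd_of_eq hs)
        have h7 := congrArg (fun s : ↥π.ker => ((s : ↥St) : A × ↥C).1) h6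
        simpa using h7
      have h6 : ((s : ↥St) : A × ↥C).1 ≠ 1 := by
        intro h7
        have h8 : s = 1 := Subtype.ext (Subtype.ext (Prod.ext h7 h2))
        rw [h8, orderOf_one] at hs
        exact hp.one_lt.ne hs
      rw [orderOf_eq_prime h5 h6]
    let E0 : ↥C := ⟨F, Subgroup.mem_zpowers F⟩
    have hcm : ∀ a b : ↥C, a * b = b * a := by
      rintro ⟨a, i, rfl⟩ ⟨b, j, rfl⟩
      apply Subtype.ext
      exact zpow_mul_comm F i j
    have hN : π.range.Normal := ⟨fun n hn g => by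
      rw [hcm g n, mul_inv_cancel_right]
      exact hn⟩
    have h1 : Nat.card ↥St = Nat.card π.ker * Nat.card π.range := by
      rw [← Subgroup.index_ker, Subgroup.card_mul_index]
    by_cases hfix : ∃ h : A, shf t = cjt h t
    · obtain ⟨h, hh⟩ := hfix
      obtain ⟨q, hq⟩ := RtAAux.nYT_mod hO hw hh
      have h2 := RotPAux.arith' hp h1 hker π.range.index_ne_zero_of_finite Nat.card_pos.ne'
      rw [Subgroup.card_mul_index] at h2
      obtain ⟨i, hi⟩ := h2
      refine ⟨(i : ℤ) * (RtAAux.wT p f t * q), ?_⟩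
      rw [hq, hi]
      push_cast
      ring
    refine Dvd.dvd.mul_right ?_ _
    have hidx : p ∣ π.range.index := by
      have h1 : E0 ^ p ∈ π.range := by
        refine ⟨⟨(1, E0 ^ p), ?_⟩, rfl⟩
        change cjt 1 ((F ^ p) t) = t
        rw [← Equiv.Perm.iterate_eq_pow]
        change cjt 1 (shf^[p] t) = t
        rw [RtAAux.shf_p, RtAAux.cj_one]
      have h2 : E0 ∉ π.range := by
        rintro ⟨s, hs⟩
        rw [hπ] at hs
        have h3 : ((s : A × ↥C)) • t = t := s.2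
        have h4 := hsm (s : A × ↥C).1 (s : A × ↥C).2 t
        rw [Prod.mk.eta, h3, hs] at h4
        have h5 : t = cjt (s : A × ↥C).1 (shf t) := h4
        refine hfix ⟨((s : A × ↥C).1)⁻¹, ?_⟩
        conv_rhs => rw [h5]
        rw [← RtAAux.cj_mul, inv_mul_cancel, RtAAux.cj_one]
      have h3 : (QuotientGroup.mk E0 : ↥C ⧸ π.range) ^ p = 1 := by
        rw [← QuotientGroup.mk_pow, QuotientGroup.eq_one_iff]
        exact h1
      have h4 : (QuotientGroup.mk E0 : ↥C ⧸ π.range) ≠ 1 := by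
        intro hj
        rw [QuotientGroup.eq_one_iff] at hj
        exact h2 hj
      have h5 : orderOf (QuotientGroup.mk E0 : ↥C ⧸ π.range) = p := orderOf_eq_prime h3 h4
      exact (dvd_of_eq h5.symm).trans (orderOf_dvd_natCard _)
    have h2 := RotAux.arith hp h1 hker hidx Nat.card_pos.ne' π.range.index_ne_zero_of_finite
    rw [Subgroup.card_mul_index] at h2
    exact_mod_cast h2

end Pool.Agent.Lib.P0c8ca5.Gs
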