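import Mathlib
import Pool.Agent.Lib.P0c8ca5Gs.RtA

/-!
# RtB: the fixed orbits of the rotation

PROOF. `tsy s y (i, j) = y ^ j s i y ^ (-j)` (`j.val`). For `y ^ p = 1`: `shf (tsy s y) = cjt y (tsy s y)` [`(j + 1).val` is `j.val + 1` or `0`, and `y ^ p = 1`], and `shf t = cjt y t` implies `t = tsy s y` with `s i = t (i, 0)`
[induction on `j.val`]. So `(t, y) ↦ (fun i => t (i, 0), y)` is a bijection from the pairs `(t, y)` with `shf t = cjt y t`, `y ^ p = 1` onto the pairs `(s, y)` with `y ^ p = 1`; write `nYT` as a sum over `y` and reindex.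
`gen_tsy`: `K = closure (insert y (range s))`, `T = gT (tsy s y) ≤ K`, `y` normalizes `T` (`cjt y (tsy s y) = shf (tsy s y)` has the same entries), `K = T ⊔ zpowers y`, and every element of `K` has its `p`-th power.. in fact `x ^ p ∈ T` for
`x ∈ K` (`K / T` is cyclic of order dividing `p`), so a p-regular `x ∈ K` is in `T` (`x` is a power of `x ^ p`): `Opr p ⊤ ≤ K → Opr p ⊤ ≤ T` (`Opr p ⊤` is the closure of the p-regular elements). See also P0c8ca5Bx.RqB / RqA, `Opr_le_of_pow` (P0c8ca5V.DB).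
-/

namespace Pool.Agent.Lib.P0c8ca5.Gs

variable {κ : Type*} {p : ℕ} {A : Type*} [Group A]

namespace RtBAux

open RtAAux

theorem tsy_zero [Fact p.Prime] (s : κ → A) (y : A) (a : κ) : tsy (p := p) s y (a, 0) = s a := by
  unfold tsy
  simp only [ZMod.val_zero, pow_zero, one_mul, inv_one, mul_one]

theorem shf_tsy [Fact p.Prime] (s : κ → A) {y : A} (hy : y ^ p = 1) :
    shf (tsy (p := p) s y) = cjt y (tsy (p := p) s y) := by
  funext i
  change y ^ (i.2 + 1).val * s i.1 * (y ^ (i.2 + 1).val)⁻¹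
    = y * (y ^ i.2.val * s i.1 * (y ^ i.2.val)⁻¹) * y⁻¹
  have h1 : y ^ (i.2 + 1).val = y * y ^ i.2.val := by
    rw [ZMod.val_add, ZMod.val_one_eq_one_mod, Nat.add_mod_mod, ← pow_eq_pow_mod _ hy, pow_succ']
  rw [h1]
  group

theorem eq_tsy [Fact p.Prime] {t : κ × ZMod p → A} {y : A} (h : shf t = cjt y t) :
    tsy (p := p) (fun a => t (a, 0)) y = t := by
  funext i
  obtain ⟨a, j⟩ := i
  have h1 := congrFun (iter_fix h j.val) (a, 0)
  rw [shf_iter] at h1
  change t (a, 0 + ((j.val : ℕ) : ZMod p)) = y ^ j.val * t (a, 0) * (y ^ j.val)⁻¹ at h1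
  rw [ZMod.natCast_zmod_val, zero_add] at h1
  rw [h1]
  rfl

theorem tsy_inj [Fact p.Prime] {s s' : κ → A} {y : A}
    (h : tsy (p := p) s y = tsy (p := p) s' y) : s = s' := by
  funext a
  rw [← tsy_zero (p := p) s y a, h, tsy_zero]

theorem norm_gT [Fact p.Prime] (s : κ → A) {y : A} (hy : y ^ p = 1) :
    y ∈ Subgroup.normalizer (gT (tsy (p := p) s y) : Set A) := by
  have h1 : (gT (tsy (p := p) s y)).map (MulAut.conj y).toMonoidHom = gT (tsy (p := p) s y) := by
    rw [← gT_cj, ← shf_tsy s hy, gT_shf]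
  rw [Subgroup.mem_normalizer_iff]
  intro z
  constructor
  · intro hz
    rw [← h1]
    exact ⟨z, hz, rfl⟩
  · intro hz
    rw [← h1] at hz
    obtain ⟨z', hz', h2⟩ := hz
    have h3 : y * z' * y⁻¹ = y * z * y⁻¹ := h2
    have h4 : z' = z := by simpa using h3
    rw [← h4]
    exact hz'

end RtBAux

open RtBAux RtAAux ParAux

theorem gen_tsy [Fact p.Prime] [Finite A] (s : κ → A) {y : A} (hy : y ^ p = 1) :
    Opr p (⊤ : Subgroup A) ≤ gT (tsy (p := p) s y) ↔
      Opr p (⊤ : Subgroup A) ≤ Subgroup.closure (insert y (Set.range s)) := by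
  constructor
  · intro h
    refine h.trans ?_
    unfold gT
    rw [Subgroup.closure_le]
    rintro z ⟨i, rfl⟩
    have h1 : y ∈ Subgroup.closure (insert y (Set.range s)) :=
      Subgroup.subset_closure (Set.mem_insert _ _)
    have h2 : s i.1 ∈ Subgroup.closure (insert y (Set.range s)) :=
      Subgroup.subset_closure (Set.mem_insert_of_mem _ ⟨i.1, rfl⟩)
    change y ^ i.2.val * s i.1 * (y ^ i.2.val)⁻¹ ∈ Subgroup.closure (insert y (Set.range s))
    exact mul_mem (mul_mem (pow_mem h1 _) h2) (inv_mem (pow_mem h1 _))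
  · intro h
    have hn := norm_gT (p := p) s hy
    have h1 : Subgroup.closure (insert y (Set.range s)) ≤ ext (gT (tsy (p := p) s y)) y hn := by
      rw [Subgroup.closure_le]
      rintro z (rfl | ⟨a, rfl⟩)
      · exact ⟨-1, by simp⟩
      · refine ⟨0, ?_⟩
        rw [zpow_zero, mul_one]
        exact Subgroup.subset_closure ⟨(a, 0), tsy_zero s y a⟩
    have h2 : Opr p (⊤ : Subgroup A) =
        Subgroup.closure {z | z ∈ (⊤ : Subgroup A) ∧ Preg p z} := rfl
    rw [h2, Subgroup.closure_le]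
    rintro z ⟨_, hz⟩
    have h3 : z ∈ Opr p (⊤ : Subgroup A) := Subgroup.subset_closure ⟨Subgroup.mem_top z, hz⟩
    obtain ⟨i, hi⟩ := h1 (h h3)
    have h4 := pow_mem_of hn hi (p ^ 1)
    have h5 : y ^ (i * ((p ^ 1 : ℕ) : ℤ)) = 1 := by
      rw [pow_one, mul_comm, zpow_mul, zpow_natCast, hy, one_zpow]
    rw [h5, mul_one] at h4
    exact mem_of_preg hz h4

open Classical in
theorem sum_tsy [Fact p.Prime] [Finite A] [Finite κ] (f : (κ × ZMod p → A) → ℤ) :
    ∑ᶠ t : κ × ZMod p → A, (if Opr p (⊤ : Subgroup A) ≤ gT t then f t else 0) * (nYT p t : ℤ)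
      = ∑ᶠ x : (κ → A) × A, if x.2 ^ p = 1 ∧
          Opr p (⊤ : Subgroup A) ≤ Subgroup.closure (insert x.2 (Set.range x.1))
          then f (tsy (p := p) x.1 x.2) else 0 := by
  have : Fintype A := Fintype.ofFinite A
  have : Fintype κ := Fintype.ofFinite κ
  rw [finsum_eq_sum_of_fintype, finsum_eq_sum_of_fintype]
  have h1 : ∀ t : κ × ZMod p → A,
      (if Opr p (⊤ : Subgroup A) ≤ gT t then f t else 0) * (nYT p t : ℤ)
      = ∑ y : A, if shf t = cjt y t ∧ y ^ p = 1 then
        (if Opr p (⊤ : Subgroup A) ≤ gT t then f t else 0) else 0 := by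
    intro t
    rw [← Finset.sum_filter, Finset.sum_const, nsmul_eq_mul, mul_comm]
    congr 2
    unfold nYT
    rw [Nat.card_eq_fintype_card, Fintype.card_subtype]
  rw [Finset.sum_congr rfl (fun t _ => h1 t), Finset.sum_comm, Fintype.sum_prod_type_right]
  refine Finset.sum_congr rfl fun y _ => ?_
  set F : (κ × ZMod p → A) → ℤ := fun t => if shf t = cjt y t ∧ y ^ p = 1 then
        (if Opr p (⊤ : Subgroup A) ≤ gT t then f t else 0) else 0 with hF
  by_cases hy : y ^ p = 1
  · have h2 : ∀ s : κ → A, (if y ^ p = 1 ∧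
        Opr p (⊤ : Subgroup A) ≤ Subgroup.closure (insert y (Set.range s))
        then f (tsy (p := p) s y) else 0) = F (tsy (p := p) s y) := by
      intro s
      simp only [hF]
      rw [if_pos (show shf (tsy (p := p) s y) = cjt y (tsy (p := p) s y) ∧ y ^ p = 1 from
        ⟨shf_tsy s hy, hy⟩)]
      have h4 := gen_tsy (p := p) s hy
      by_cases h6 : Opr p (⊤ : Subgroup A) ≤ Subgroup.closure (insert y (Set.range s))
      · rw [if_pos ⟨hy, h6⟩, if_pos (h4.2 h6)]
      · rw [if_neg (fun h => h6 h.2), if_neg (fun h => h6 (h4.1 h))]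
    have h8 : ∑ s : κ → A, F (tsy (p := p) s y)
        = ∑ t ∈ (Finset.univ : Finset (κ → A)).image (fun s => tsy (p := p) s y), F t :=
      (Finset.sum_image (fun s _ s' _ h => tsy_inj h)).symm
    refine Eq.trans ?_ (Finset.sum_congr rfl (fun s _ => h2 s)).symm
    rw [h8]
    symm
    refine Finset.sum_subset (Finset.subset_univ _) fun t _ ht => ?_
    by_contra h3
    have h4 : shf t = cjt y t ∧ y ^ p = 1 := by
      by_contra h5
      exact h3 (if_neg h5)
    exact ht (Finset.mem_image.2 ⟨fun a => t (a, 0), Finset.mem_univ _, eq_tsy h4.1⟩)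
  · rw [Finset.sum_eq_zero, Finset.sum_eq_zero]
    · intro s _
      exact if_neg (fun h => hy h.1)
    · intro t _
      exact if_neg (fun h => hy h.2)

end Pool.Agent.Lib.P0c8ca5.Gs
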