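import Mathlib
import Pool.Agent.Lib.P0c8ca5Gs.RtB
import Pool.Agent.Lib.P0c8ca5Gs.Wt

/-!
# Par: the fixed orbits for `p = 3` and `p = 2`

PROOF. `p = 3`: let `y ^ 3 = 1`, `s0, s1, s2 = s 0, s 1, s 2`, `t = tsy s y`. `t (0, 0) * t (0, 1) * t (0, 2) = s0 * (y s0 y⁻¹) * (y² s0 y⁻²) = (s0 * y) ^ 3` (as `y ^ 3 = 1`); the same for `s1`. `t (2, j) ^ 3 = 1` iff `s2 ^ 3 = 1`; all `t (2, j) = 1` iff `s2 = 1`.
`t (0, j + 1) * t (1, j + 2) * t (2, j) = y ^ j * (y * (s0 * y) * (s1 * y) * s2) * y ^ (-j)` for `j = 0, 1, 2` (use `y ^ 3 = 1`; e.g. `j = 0`: `y s0 y⁻¹ y² s1 y⁻² s2 = y s0 y s1 y⁻² s2`), so by `S3_eq` the weight of `t` is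
`(m (y * (s0 y) * (s1 y) * s2)⁻¹) ^ 3` if `(s0 y) ^ 3 = (s1 y) ^ 3 = s2 ^ 3 = 1`, `s2 ≠ 1`, and `0` otherwise. Reindex: `(s, y) ↦ x = ![y, s 0 * y, s 1 * y, s 2]` is a bijection from `(Fin 3 → A) × A` to `Fin 4 → A`,
`closure (insert y (range s)) = gT x`, `(List.ofFn x).prod = x 0 * x 1 * x 2 * x 3`, `Fin.last 3 = 3`, and `sX 3 3 g` is the sum over the `x` with `x i ^ 3 = 1`, `x 3 ≠ 1`.
`p = 2`: the same with `x = ![y, s 0 * y, s 1 * y, s 2 * y, s 3]`: `t (0, 0) * t (0, 1) = s0 * y s0 y⁻¹ = (s0 * y) ^ 2` (`y² = 1`, `y⁻¹ = y`), `t (0, 1) * t (1, 0) * t (2, 1) * t (3, 0) = y s0 y⁻¹ s1 y s2 y⁻¹ s3 = y (s0 y) (s1 y) (s2 y) s3`, and for `j = 1` the conjugate by `y`.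
-/

namespace Pool.Agent.Lib.P0c8ca5.Gs

open MonoidAlgebra Bx

variable {A : Type*} [Group A]

namespace ParAux

/-- the bijection for `p = 3` -/
def e3 : (Fin 3 → A) × A ≃ (Fin 4 → A) where
  toFun x := ![x.2, x.1 0 * x.2, x.1 1 * x.2, x.1 2]
  invFun x := (![x 1 * (x 0)⁻¹, x 2 * (x 0)⁻¹, x 3], x 0)
  left_inv x := by
    refine Prod.ext ?_ rfl
    funext i
    fin_cases i <;> simp
  right_inv x := by
    funext i
    fin_cases i <;> simp

/-- the bijection for `p = 2` -/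
def e2 : (Fin 4 → A) × A ≃ (Fin 5 → A) where
  toFun x := ![x.2, x.1 0 * x.2, x.1 1 * x.2, x.1 2 * x.2, x.1 3]
  invFun x := (![x 1 * (x 0)⁻¹, x 2 * (x 0)⁻¹, x 3 * (x 0)⁻¹, x 4], x 0)
  left_inv x := by
    refine Prod.ext ?_ rfl
    funext i
    fin_cases i <;> simp
  right_inv x := by
    funext i
    fin_cases i <;> simp

theorem mem_of_mul_right {H : Subgroup A} {a b : A} (hb : b ∈ H) (h : a * b ∈ H) : a ∈ H := by
  have h1 := H.mul_mem h (H.inv_mem hb)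
  rwa [mul_inv_cancel_right] at h1

theorem gT_e3 (s : Fin 3 → A) (y : A) :
    gT (e3 (s, y)) = Subgroup.closure (insert y (Set.range s)) := by
  unfold gT
  apply le_antisymm
  · rw [Subgroup.closure_le]
    have hy : y ∈ Subgroup.closure (insert y (Set.range s)) :=
      Subgroup.subset_closure (Set.mem_insert _ _)
    have hs : ∀ i, s i ∈ Subgroup.closure (insert y (Set.range s)) := fun i =>
      Subgroup.subset_closure (Set.mem_insert_of_mem _ (Set.mem_range_self i))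
    rintro _ ⟨i, rfl⟩
    fin_cases i
    · exact hy
    · exact Subgroup.mul_mem _ (hs 0) hy
    · exact Subgroup.mul_mem _ (hs 1) hy
    · exact hs 2
  · rw [Subgroup.closure_le]
    have hx : ∀ i, e3 (s, y) i ∈ Subgroup.closure (Set.range (e3 (s, y))) := fun i =>
      Subgroup.subset_closure (Set.mem_range_self i)
    have hy : y ∈ Subgroup.closure (Set.range (e3 (s, y))) := hx 0
    intro z hz
    rcases Set.mem_insert_iff.1 hz with rfl | ⟨i, rfl⟩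
    · exact hy
    · fin_cases i
      · exact mem_of_mul_right hy (hx 1)
      · exact mem_of_mul_right hy (hx 2)
      · exact hx 3

theorem gT_e2 (s : Fin 4 → A) (y : A) :
    gT (e2 (s, y)) = Subgroup.closure (insert y (Set.range s)) := by
  unfold gT
  apply le_antisymm
  · rw [Subgroup.closure_le]
    have hy : y ∈ Subgroup.closure (insert y (Set.range s)) :=
      Subgroup.subset_closure (Set.mem_insert _ _)
    have hs : ∀ i, s i ∈ Subgroup.closure (insert y (Set.range s)) := fun i =>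
      Subgroup.subset_closure (Set.mem_insert_of_mem _ (Set.mem_range_self i))
    rintro _ ⟨i, rfl⟩
    fin_cases i
    · exact hy
    · exact Subgroup.mul_mem _ (hs 0) hy
    · exact Subgroup.mul_mem _ (hs 1) hy
    · exact Subgroup.mul_mem _ (hs 2) hy
    · exact hs 3
  · rw [Subgroup.closure_le]
    have hx : ∀ i, e2 (s, y) i ∈ Subgroup.closure (Set.range (e2 (s, y))) := fun i =>
      Subgroup.subset_closure (Set.mem_range_self i)
    have hy : y ∈ Subgroup.closure (Set.range (e2 (s, y))) := hx 0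
    intro z hz
    rcases Set.mem_insert_iff.1 hz with rfl | ⟨i, rfl⟩
    · exact hy
    · fin_cases i
      · exact mem_of_mul_right hy (hx 1)
      · exact mem_of_mul_right hy (hx 2)
      · exact mem_of_mul_right hy (hx 3)
      · exact hx 4

theorem prod_e3 (s : Fin 3 → A) (y : A) :
    (List.ofFn (e3 (s, y))).prod = y * (s 0 * y) * (s 1 * y) * s 2 := by
  simp [e3, List.ofFn_succ, mul_assoc]

theorem prod_e2 (s : Fin 4 → A) (y : A) :
    (List.ofFn (e2 (s, y))).prod = y * (s 0 * y) * (s 1 * y) * (s 2 * y) * s 3 := by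
  simp [e2, List.ofFn_succ, mul_assoc]

theorem om_conj (p : ℕ) (g x : A) : om p (g * x * g⁻¹) = om p x := WtAux.CF_om' p g x

open Classical in
theorem W3_tsy {m : A → ℤ} (hm : CF m) (s : Fin 3 → A) {y : A} (hy : y ^ 3 = 1) :
    W3 (om 3) m (tsy (p := 3) s y) = if (s 0 * y) ^ 3 = 1 ∧ (s 1 * y) ^ 3 = 1 then
      (om 3 (s 2) * m (y * (s 0 * y) * (s 1 * y) * s 2)⁻¹) ^ 3 else 0 := by
  classical
  have v0 : (0 : ZMod 3).val = 0 := rfl
  have v1 : (1 : ZMod 3).val = 1 := rfl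
  have v2 : (2 : ZMod 3).val = 2 := rfl
  have yy : y * y * y = 1 := by rw [← hy, pow_succ, pow_two]
  have y2 : y⁻¹ = y * y := by
    rw [inv_eq_iff_mul_eq_one, ← mul_assoc, yy]
  have e1 : ∀ i, tsy (p := 3) s y (i, 0) = s i := fun i => by
    simp [tsy, v0]
  have e2 : ∀ i, tsy (p := 3) s y (i, 1) = y * s i * y⁻¹ := fun i => by
    simp [tsy, v1]
  have e3 : ∀ i, tsy (p := 3) s y (i, 2) = y ^ 2 * s i * (y ^ 2)⁻¹ := fun i => by
    simp [tsy, v2]
  have q3 : ∀ a : A, a * (y * a * y⁻¹) * (y ^ 2 * a * (y ^ 2)⁻¹) = (a * y) ^ 3 := by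
    intro a
    have : a * (y * a * y⁻¹) * (y ^ 2 * a * (y ^ 2)⁻¹) = (a * y) ^ 3 * (y ^ 3)⁻¹ := by
      simp only [pow_succ, pow_zero]; group
    rw [this, hy, inv_one, mul_one]
  unfold W3
  refine WtAux.ite_cg ?_ ?_
  · rw [e1, e2, e3, e1, e2, e3, q3, q3]
  · have hp : ∀ f : ZMod 3 → ℤ, ∏ j, f j = f 0 * f 1 * f 2 := fun f => Fin.prod_univ_three f
    rw [hp]
    have a0 : (0 : ZMod 3) + 1 = 1 := rfl
    have a1 : (0 : ZMod 3) + 2 = 2 := rfl
    have a2 : (1 : ZMod 3) + 1 = 2 := rfl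
    have a3 : (1 : ZMod 3) + 2 = 0 := rfl
    have a4 : (2 : ZMod 3) + 1 = 0 := rfl
    have a5 : (2 : ZMod 3) + 2 = 1 := rfl
    rw [a0, a1, a2, a3, a4, a5]
    simp only [e1, e2, e3, om_conj]
    have b0 : y * s 0 * y⁻¹ * (y ^ 2 * s 1 * (y ^ 2)⁻¹) * s 2
        = y * (s 0 * y) * (s 1 * y) * s 2 := by
      have : (y ^ 2)⁻¹ = y := by rw [inv_eq_iff_mul_eq_one, pow_two, yy]
      rw [this, pow_two]; group
    have b1 : y ^ 2 * s 0 * (y ^ 2)⁻¹ * s 1 * (y * s 2 * y⁻¹)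
        = y * (y * (s 0 * y) * (s 1 * y) * s 2) * y⁻¹ := by
      have : (y ^ 2)⁻¹ = y := by rw [inv_eq_iff_mul_eq_one, pow_two, yy]
      rw [this, pow_two]; group
    have b2 : s 0 * (y * s 1 * y⁻¹) * (y ^ 2 * s 2 * (y ^ 2)⁻¹)
        = y ^ 2 * (y * (s 0 * y) * (s 1 * y) * s 2) * (y ^ 2)⁻¹ := by
      have h1 : y ^ 2 * (y * (s 0 * y) * (s 1 * y) * s 2) * (y ^ 2)⁻¹
          = y ^ 3 * ((s 0 * y) * (s 1 * y) * s 2) * (y ^ 2)⁻¹ := by group
      rw [h1, hy]; group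
    have c1 : ∀ g x : A, m (g * x * g⁻¹)⁻¹ = m x⁻¹ := by
      intro g x
      have : (g * x * g⁻¹)⁻¹ = g * x⁻¹ * g⁻¹ := by group
      rw [this, hm]
    rw [b0, b1, b2, c1, c1]
    ring

open Classical in
theorem W2_tsy {m : A → ℤ} (hm : CF m) (s : Fin 4 → A) {y : A} (hy : y ^ 2 = 1) :
    W2 (om 2) m (tsy (p := 2) s y) = if (s 0 * y) ^ 2 = 1 ∧ (s 1 * y) ^ 2 = 1 ∧ (s 2 * y) ^ 2 = 1
      then (om 2 (s 3) * m (y * (s 0 * y) * (s 1 * y) * (s 2 * y) * s 3)⁻¹) ^ 2 else 0 := by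
  classical
  have v0 : (0 : ZMod 2).val = 0 := rfl
  have v1 : (1 : ZMod 2).val = 1 := rfl
  have yy : y⁻¹ = y := by rw [inv_eq_iff_mul_eq_one, ← pow_two, hy]
  have e1 : ∀ i, tsy (p := 2) s y (i, 0) = s i := fun i => by
    simp [tsy, v0]
  have e2 : ∀ i, tsy (p := 2) s y (i, 1) = y * s i * y⁻¹ := fun i => by
    simp [tsy, v1]
  have q2 : ∀ a : A, a * (y * a * y⁻¹) = (a * y) ^ 2 := by
    intro a
    rw [yy, pow_two]; group
  unfold W2
  refine WtAux.ite_cg ?_ ?_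
  · rw [e1, e2, e1, e2, e1, e2, q2, q2, q2]
  · have hp : ∀ f : ZMod 2 → ℤ, ∏ j, f j = f 0 * f 1 := fun f => Fin.prod_univ_two f
    rw [hp]
    have a0 : (0 : ZMod 2) + 1 = 1 := rfl
    have a1 : (1 : ZMod 2) + 1 = 0 := rfl
    rw [a0, a1]
    simp only [e1, e2, om_conj]
    have b0 : y * s 0 * y⁻¹ * s 1 * (y * s 2 * y⁻¹) * s 3
        = y * (s 0 * y) * (s 1 * y) * (s 2 * y) * s 3 := by
      rw [yy]; group
    have b1 : s 0 * (y * s 1 * y⁻¹) * s 2 * (y * s 3 * y⁻¹)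
        = y * (y * (s 0 * y) * (s 1 * y) * (s 2 * y) * s 3) * y⁻¹ := by
      have h1 : y * (y * (s 0 * y) * (s 1 * y) * (s 2 * y) * s 3) * y⁻¹
          = y ^ 2 * ((s 0 * y) * (s 1 * y) * (s 2 * y) * s 3) * y⁻¹ := by rw [pow_two]; group
      rw [h1, hy]
      rw [yy]; group
    have c1 : ∀ g x : A, m (g * x * g⁻¹)⁻¹ = m x⁻¹ := by
      intro g x
      have : (g * x * g⁻¹)⁻¹ = g * x⁻¹ * g⁻¹ := by group
      rw [this, hm]
    rw [b0, b1, c1]
    ring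

end ParAux

open Gs.ParAux

variable [Finite A]

open Classical in
theorem sum_S3 {m : A → ℤ} (hm : CF m) :
    ∑ᶠ x : (Fin 3 → A) × A, (if x.2 ^ 3 = 1 ∧
        Opr 3 (⊤ : Subgroup A) ≤ Subgroup.closure (insert x.2 (Set.range x.1))
        then S3 m (tsy (p := 3) x.1 x.2) else 0) = sX 3 3 (fun x => (m x⁻¹) ^ 3) := by
  unfold sX
  rw [← finsum_comp_equiv e3]
  refine finsum_congr fun x => ?_
  obtain ⟨s, y⟩ := x
  rw [gT_e3, prod_e3]
  have h4 : (∀ i, e3 (s, y) i ^ 3 = 1) ↔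
      y ^ 3 = 1 ∧ (s 0 * y) ^ 3 = 1 ∧ (s 1 * y) ^ 3 = 1 ∧ (s 2) ^ 3 = 1 := by
    constructor
    · intro h
      exact ⟨h 0, h 1, h 2, h 3⟩
    · rintro ⟨h0, h1, h2, h3⟩ i
      fin_cases i
      · exact h0
      · exact h1
      · exact h2
      · exact h3
  have h5 : e3 (s, y) (Fin.last 3) = s 2 := rfl
  by_cases hy : y ^ 3 = 1
  · by_cases hK : Opr 3 (⊤ : Subgroup A) ≤ Subgroup.closure (insert y (Set.range s))
    · rw [if_pos ⟨hy, hK⟩, S3_eq, W3_tsy hm s hy]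
      have h6 : (∀ j, tsy (p := 3) s y (2, j) = 1) ↔ s 2 = 1 := by
        unfold tsy
        simp only [conj_eq_one_iff]
        exact ⟨fun h => h 0, fun h _ => h⟩
      by_cases h2 : s 2 = 1
      · rw [if_pos (h6.2 h2), if_neg]
        rintro ⟨_, h, _⟩
        exact h (h5.trans h2)
      · rw [if_neg (fun h => h2 (h6.1 h))]
        by_cases h01 : (s 0 * y) ^ 3 = 1 ∧ (s 1 * y) ^ 3 = 1
        · rw [if_pos h01]
          by_cases h3 : (s 2) ^ 3 = 1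
          · rw [if_pos ⟨h4.2 ⟨hy, h01.1, h01.2, h3⟩, fun h => h2 (h5.symm.trans h), hK⟩]
            unfold om
            rw [if_pos h3, one_mul]
          · rw [if_neg (fun h => h3 (h4.1 h.1).2.2.2)]
            unfold om
            rw [if_neg h3]
            ring
        · rw [if_neg h01, if_neg (fun h => h01 ⟨(h4.1 h.1).2.1, (h4.1 h.1).2.2.1⟩)]
    · rw [if_neg (fun h => hK h.2), if_neg (fun h => hK h.2.2)]
  · rw [if_neg (fun h => hy h.1), if_neg (fun h => hy (h4.1 h.1).1)]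

open Classical in
theorem sum_S2 {m : A → ℤ} (hm : CF m) :
    ∑ᶠ x : (Fin 4 → A) × A, (if x.2 ^ 2 = 1 ∧
        Opr 2 (⊤ : Subgroup A) ≤ Subgroup.closure (insert x.2 (Set.range x.1))
        then S2 m (tsy (p := 2) x.1 x.2) else 0) = sX 2 4 (fun x => (m x⁻¹) ^ 2) := by
  unfold sX
  rw [← finsum_comp_equiv e2]
  refine finsum_congr fun x => ?_
  obtain ⟨s, y⟩ := x
  rw [gT_e2, prod_e2]
  have h4 : (∀ i, e2 (s, y) i ^ 2 = 1) ↔
      y ^ 2 = 1 ∧ (s 0 * y) ^ 2 = 1 ∧ (s 1 * y) ^ 2 = 1 ∧ (s 2 * y) ^ 2 = 1 ∧ (s 3) ^ 2 = 1 := by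
    constructor
    · intro h
      exact ⟨h 0, h 1, h 2, h 3, h 4⟩
    · rintro ⟨h0, h1, h2, h3, h4⟩ i
      fin_cases i
      · exact h0
      · exact h1
      · exact h2
      · exact h3
      · exact h4
  have h5 : e2 (s, y) (Fin.last 4) = s 3 := rfl
  by_cases hy : y ^ 2 = 1
  · by_cases hK : Opr 2 (⊤ : Subgroup A) ≤ Subgroup.closure (insert y (Set.range s))
    · rw [if_pos ⟨hy, hK⟩, S2_eq, W2_tsy hm s hy]
      have h6 : (∀ j, tsy (p := 2) s y (3, j) = 1) ↔ s 3 = 1 := by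
        unfold tsy
        simp only [conj_eq_one_iff]
        exact ⟨fun h => h 0, fun h _ => h⟩
      by_cases h2 : s 3 = 1
      · rw [if_pos (h6.2 h2), if_neg]
        rintro ⟨_, h, _⟩
        exact h (h5.trans h2)
      · rw [if_neg (fun h => h2 (h6.1 h))]
        by_cases h01 : (s 0 * y) ^ 2 = 1 ∧ (s 1 * y) ^ 2 = 1 ∧ (s 2 * y) ^ 2 = 1
        · rw [if_pos h01]
          by_cases h3 : (s 3) ^ 2 = 1
          · rw [if_pos ⟨h4.2 ⟨hy, h01.1, h01.2.1, h01.2.2, h3⟩, fun h => h2 (h5.symm.trans h), hK⟩]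
            unfold om
            rw [if_pos h3, one_mul]
          · rw [if_neg (fun h => h3 (h4.1 h.1).2.2.2.2)]
            unfold om
            rw [if_neg h3]
            ring
        · rw [if_neg h01, if_neg (fun h => h01 ⟨(h4.1 h.1).2.1, (h4.1 h.1).2.2.1, (h4.1 h.1).2.2.2.1⟩)]
    · rw [if_neg (fun h => hK h.2), if_neg (fun h => hK h.2.2)]
  · rw [if_neg (fun h => hy h.1), if_neg (fun h => hy (h4.1 h.1).1)]

end Pool.Agent.Lib.P0c8ca5.Gs
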