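import Mathlib
import Pool.Agent.Lib.P0c8ca5Gs.TC

/-!
# Red: tuples with trivial components

PROOF. Let `O = {x | x ^ p = 1}` and for a list `l` let `F l = if Opr p ⊤ ≤ closure {x | x ∈ l} then g l.prod else 0`; `F l` does not change if entries `1` are removed from `l` (the closure and the product do not change).
`sX p N g = ∑ x0 .. x(N-1) ∈ O, xN ∈ O \ {1}, F [x0, .., xN]`, `tX p j g = ∑ x1 .. xj ∈ O \ {1}, F [x1, .., xj]`. For every component split `∑ x ∈ O, h x = h 1 + ∑ x ∈ O \ {1}, h x`, and remove the `1`s: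
`sX p N g = ∑ j, (N choose j) * tX p (j + 1) g`. So `sX 3 3 g - tX 3 4 g = tX 3 1 g + 3 * tX 3 2 g + 3 * tX 3 3 g`, `sX 2 4 g - tX 2 5 g = tX 2 1 g + 4 * tX 2 2 g + 6 * tX 2 3 g + 4 * tX 2 4 g`.
`tX p 1 g = 0`: `x ^ p = 1`, `x ≠ 1` is not p-regular, `g x = 0`. `|A|_p ∣ tX p j g` by `bT_dvd` (the function `f x = if ∀ i, x i ^ p = 1 ∧ x i ≠ 1 then g (List.ofFn x).prod else 0` is invariant; `gT x ≤ ⊤`).
-/

namespace Pool.Agent.Lib.P0c8ca5.Gs

open MonoidAlgebra Bx

namespace RedAux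

section sums
variable {A : Type*} [Fintype A]

/-- weighted sum over the tuples -/
def R (c : A → ℤ) (k : ℕ) (Φ : List A → ℤ) : ℤ :=
  ∑ x : Fin k → A, (∏ i, c (x i)) * Φ (List.ofFn x)

theorem R_cons (c : A → ℤ) (k : ℕ) (Φ : List A → ℤ) :
    R c (k + 1) Φ = ∑ a, c a * R c k (fun l => Φ (a :: l)) := by
  unfold R
  rw [← (Fin.consEquiv (fun _ : Fin (k + 1) => A)).sum_comp, Fintype.sum_prod_type]
  refine Finset.sum_congr rfl fun a _ => ?_
  rw [Finset.mul_sum]
  refine Finset.sum_congr rfl fun x _ => ?_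
  simp only [Fin.consEquiv, Equiv.coe_fn_mk, Fin.prod_univ_succ, Fin.cons_zero, Fin.cons_succ,
    List.ofFn_succ]
  ring

theorem R_snoc (c : A → ℤ) (k : ℕ) (Φ : List A → ℤ) :
    R c (k + 1) Φ = ∑ a, c a * R c k (fun l => Φ (l ++ [a])) := by
  unfold R
  rw [← (Fin.snocEquiv (fun _ : Fin (k + 1) => A)).sum_comp, Fintype.sum_prod_type]
  refine Finset.sum_congr rfl fun a _ => ?_
  rw [Finset.mul_sum]
  refine Finset.sum_congr rfl fun x _ => ?_
  have h : List.ofFn (Fin.snoc (α := fun _ => A) x a : Fin (k + 1) → A)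
      = List.ofFn x ++ [a] := by
    rw [List.ofFn_succ']
    simp
  simp only [Fin.snocEquiv, Equiv.coe_fn_mk, Fin.prod_univ_castSucc, Fin.snoc_castSucc,
    Fin.snoc_last]
  rw [h]
  ring

/-- removing entries `1` does not change the value -/
def Inv [One A] (Φ : List A → ℤ) : Prop :=
  ∀ l₁ l₂ : List A, Φ (l₁ ++ 1 :: l₂) = Φ (l₁ ++ l₂)

theorem inv_cons [One A] {Φ : List A → ℤ} (h : Inv Φ) (a : A) : Inv (fun l => Φ (a :: l)) :=
  fun l₁ l₂ => h (a :: l₁) l₂

theorem inv_snoc [One A] {Φ : List A → ℤ} (h : Inv Φ) (a : A) :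
    Inv (fun l => Φ (l ++ [a])) := by
  intro l₁ l₂
  have := h l₁ (l₂ ++ [a])
  simpa [List.append_assoc] using this

theorem R_bin [One A] {c₀ c₁ : A → ℤ} (hc : ∀ (h : A → ℤ), ∑ a, c₁ a * h a
      = h 1 + ∑ a, c₀ a * h a) (k : ℕ) :
    ∀ {Φ : List A → ℤ}, Inv Φ →
      R c₁ k Φ = ∑ j ∈ Finset.range (k + 1), (k.choose j : ℤ) * R c₀ j Φ := by
  induction k with
  | zero =>
    intro Φ _
    simp [R]
  | succ k ih =>
    intro Φ hΦ
    have e1 : (fun l => Φ (1 :: l)) = Φ := by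
      funext l
      exact hΦ [] l
    have e2 : ∑ a, c₀ a * R c₁ k (fun l => Φ (a :: l))
        = ∑ j ∈ Finset.range (k + 1), (k.choose j : ℤ) * R c₀ (j + 1) Φ := by
      have : ∀ a, c₀ a * R c₁ k (fun l => Φ (a :: l)) = ∑ j ∈ Finset.range (k + 1),
          (k.choose j : ℤ) * (c₀ a * R c₀ j (fun l => Φ (a :: l))) := by
        intro a
        rw [ih (inv_cons hΦ a), Finset.mul_sum]
        refine Finset.sum_congr rfl fun j _ => ?_
        ring
      rw [Finset.sum_congr rfl fun a _ => this a, Finset.sum_comm]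
      refine Finset.sum_congr rfl fun j _ => ?_
      rw [← Finset.mul_sum, R_cons c₀ j Φ]
    rw [R_cons, hc (fun a => R c₁ k (fun l => Φ (a :: l))), e2]
    simp only [e1]
    rw [ih hΦ]
    have e3 : ∑ j ∈ Finset.range (k + 1 + 1), ((k + 1).choose j : ℤ) * R c₀ j Φ
        = R c₀ 0 Φ + ∑ j ∈ Finset.range (k + 1), ((k.choose j : ℤ) * R c₀ (j + 1) Φ
          + (k.choose (j + 1) : ℤ) * R c₀ (j + 1) Φ) := by
      rw [Finset.sum_range_succ' _ (k + 1), add_comm]
      congr 1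
      · simp
      · refine Finset.sum_congr rfl fun j _ => ?_
        rw [Nat.choose_succ_succ]
        push_cast
        ring
    have e4 : ∑ j ∈ Finset.range (k + 1 + 1), (k.choose j : ℤ) * R c₀ j Φ
        = R c₀ 0 Φ + ∑ j ∈ Finset.range (k + 1), (k.choose (j + 1) : ℤ) * R c₀ (j + 1) Φ := by
      rw [Finset.sum_range_succ' _ (k + 1), add_comm]
      simp
    have e5 : ∑ j ∈ Finset.range (k + 1 + 1), (k.choose j : ℤ) * R c₀ j Φ
        = ∑ j ∈ Finset.range (k + 1), (k.choose j : ℤ) * R c₀ j Φ := by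
      rw [Finset.sum_range_succ _ (k + 1), Nat.choose_succ_self]
      simp
    rw [e3, Finset.sum_add_distrib, ← e5, e4]
    ring

end sums

section grp
variable {A : Type*} [Group A]

open Classical in
/-- the function of lists -/
noncomputable def F (p : ℕ) (g : A → ℤ) (l : List A) : ℤ :=
  if Opr p (⊤ : Subgroup A) ≤ Subgroup.closure {x | x ∈ l} then g l.prod else 0

theorem clo (l₁ l₂ : List A) : Subgroup.closure {x | x ∈ l₁ ++ 1 :: l₂}
    = Subgroup.closure {x | x ∈ l₁ ++ l₂} := by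
  apply le_antisymm
  · rw [Subgroup.closure_le]
    intro x hx
    simp only [Set.mem_ofPred_eq, List.mem_append, List.mem_cons] at hx
    rcases hx with h | h | h
    · exact Subgroup.subset_closure (by simp [h])
    · rw [h]
      exact Subgroup.one_mem _
    · exact Subgroup.subset_closure (by simp [h])
  · apply Subgroup.closure_mono
    intro x hx
    simp only [Set.mem_ofPred_eq, List.mem_append, List.mem_cons] at hx ⊢
    tauto

theorem inv_F (p : ℕ) (g : A → ℤ) : Inv (F p g) := by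
  intro l₁ l₂
  unfold F
  rw [clo]
  simp

theorem gT_ofFn {N : ℕ} (x : Fin N → A) : Subgroup.closure {y | y ∈ List.ofFn x} = gT x := by
  unfold gT
  congr 1
  ext y
  simp [List.mem_ofFn]

open Classical in
/-- the indicator of the nontrivial `x` with `x ^ p = 1` -/
noncomputable def c0 (p : ℕ) (x : A) : ℤ := if x ^ p = 1 ∧ x ≠ 1 then 1 else 0

open Classical in
/-- the indicator of the `x` with `x ^ p = 1` -/
noncomputable def c1 (p : ℕ) (x : A) : ℤ := if x ^ p = 1 then 1 else 0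

theorem hc01 [Fintype A] (p : ℕ) (h : A → ℤ) :
    ∑ a, c1 p a * h a = h 1 + ∑ a, c0 p a * h a := by
  classical
  have : ∀ a : A, c1 p a * h a = (if a = 1 then h 1 else 0) + c0 p a * h a := by
    intro a
    unfold c1 c0
    by_cases ha : a = 1
    · subst ha
      simp
    · by_cases hb : a ^ p = 1
      · simp [ha, hb]
      · simp [ha, hb]
  rw [Finset.sum_congr rfl fun a _ => this a, Finset.sum_add_distrib]
  simp

theorem tX_eq [Fintype A] (p N : ℕ) (g : A → ℤ) : tX p N g = R (c0 p) N (F p g) := by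
  classical
  unfold tX R
  rw [finsum_eq_sum_of_fintype]
  refine Finset.sum_congr rfl fun x _ => ?_
  unfold c0 F
  rw [Finset.prod_ite_zero, gT_ofFn]
  simp only [Finset.mem_univ, true_implies, Finset.prod_const_one]
  by_cases h1 : ∀ i, x i ^ p = 1 ∧ x i ≠ 1
  · by_cases h2 : Opr p (⊤ : Subgroup A) ≤ gT x
    · rw [if_pos ⟨h1, h2⟩, if_pos h1, if_pos h2, one_mul]
    · rw [if_neg (fun h => h2 h.2), if_neg h2, mul_zero]
  · rw [if_neg (fun h => h1 h.1), if_neg h1, zero_mul]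

theorem sX_eq [Fintype A] (p N : ℕ) (g : A → ℤ) :
    sX p N g = ∑ a, c0 p a * R (c1 p) N (fun l => F p g (l ++ [a])) := by
  classical
  unfold sX R
  rw [finsum_eq_sum_of_fintype, ← (Fin.snocEquiv (fun _ : Fin (N + 1) => A)).sum_comp,
    Fintype.sum_prod_type]
  refine Finset.sum_congr rfl fun a _ => ?_
  rw [Finset.mul_sum]
  refine Finset.sum_congr rfl fun x _ => ?_
  have h : List.ofFn (Fin.snoc (α := fun _ => A) x a : Fin (N + 1) → A)
      = List.ofFn x ++ [a] := by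
    rw [List.ofFn_succ']
    simp
  simp only [Fin.snocEquiv, Equiv.coe_fn_mk, Fin.snoc_last]
  unfold c0 c1 F
  rw [Finset.prod_ite_zero, ← h, gT_ofFn]
  simp only [Finset.mem_univ, true_implies, Finset.prod_const_one]
  have h3 : (∀ i, (Fin.snoc (α := fun _ => A) x a : Fin (N + 1) → A) i ^ p = 1) ↔
      (∀ i, x i ^ p = 1) ∧ a ^ p = 1 := by
    rw [Fin.forall_fin_succ']
    simp
  by_cases h1 : ∀ i, x i ^ p = 1
  · by_cases h2 : a ^ p = 1 ∧ a ≠ 1
    · rw [if_pos h1, if_pos h2, one_mul, one_mul]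
      refine if_congr ?_ rfl rfl
      rw [h3]
      exact ⟨fun h => h.2.2, fun h => ⟨⟨h1, h2.1⟩, h2.2, h⟩⟩
    · rw [if_neg h2, zero_mul, if_neg]
      rw [h3]
      exact fun h => h2 ⟨h.1.2, h.2.1⟩
  · rw [if_neg h1, zero_mul, mul_zero, if_neg]
    rw [h3]
    exact fun h => h1 h.1.1

theorem sX_sum [Finite A] (p N : ℕ) (g : A → ℤ) :
    sX p N g = ∑ j ∈ Finset.range (N + 1), (N.choose j : ℤ) * tX p (j + 1) g := by
  classical
  have : Fintype A := Fintype.ofFinite A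
  rw [sX_eq]
  have h1 : ∀ a, c0 p a * R (c1 p) N (fun l => F p g (l ++ [a]))
      = ∑ j ∈ Finset.range (N + 1), (N.choose j : ℤ) *
        (c0 p a * R (c0 p) j (fun l => F p g (l ++ [a]))) := by
    intro a
    rw [R_bin (hc01 p) N (inv_snoc (inv_F p g) a), Finset.mul_sum]
    refine Finset.sum_congr rfl fun j _ => ?_
    ring
  rw [Finset.sum_congr rfl fun a _ => h1 a, Finset.sum_comm]
  refine Finset.sum_congr rfl fun j _ => ?_
  rw [← Finset.mul_sum, tX_eq, R_snoc]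

theorem tX_one {p : ℕ} [Fact p.Prime] {g : A → ℤ} (hr : ∀ x, g x ≠ 0 → Preg p x) :
    tX p 1 g = 0 := by
  classical
  unfold tX
  refine finsum_eq_zero_of_forall_eq_zero fun x => ?_
  split_ifs with h
  · have h0 : (List.ofFn x).prod = x 0 := by simp
    rw [h0]
    by_contra hne
    have h2 := hr _ hne
    have h3 := h.1 0
    have h4 : orderOf (x 0) = p := orderOf_eq_prime h3.1 h3.2
    unfold Preg at h2
    rw [h4] at h2
    exact h2 dvd_rfl
  · rfl

end grp

end RedAux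

open RedAux

variable {A : Type*} [Group A] [Finite A]

theorem tX_dvd {p : ℕ} [Fact p.Prime] (hO : NoP p (⊤ : Subgroup A)) (N : ℕ) {g : A → ℤ}
    (hg : CF g) : ((ordProj[p] (Nat.card A) : ℕ) : ℤ) ∣ tX p N g := by
  classical
  have hf : CT (fun x : Fin N → A => if ∀ i, x i ^ p = 1 ∧ x i ≠ 1
      then g (List.ofFn x).prod else 0) := by
    intro a x
    have h1 : (List.ofFn (cjt a x)).prod = a * (List.ofFn x).prod * a⁻¹ := by
      have h2 : List.ofFn (cjt a x) = (List.ofFn x).map (MulAut.conj a).toMonoidHom := by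
        rw [List.map_ofFn]
        rfl
      rw [h2, ← map_list_prod]
      rfl
    have h3 : (∀ i, cjt a x i ^ p = 1 ∧ cjt a x i ≠ 1) ↔ (∀ i, x i ^ p = 1 ∧ x i ≠ 1) := by
      refine forall_congr' fun i => ?_
      unfold cjt
      rw [conj_pow, conj_eq_one_iff, Ne, conj_eq_one_iff]
    show (if ∀ i, cjt a x i ^ p = 1 ∧ cjt a x i ≠ 1 then g (List.ofFn (cjt a x)).prod else 0)
      = (if ∀ i, x i ^ p = 1 ∧ x i ≠ 1 then g (List.ofFn x).prod else 0)
    rw [h1, hg]
    exact if_congr h3 rfl rfl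
  have h := bT_dvd hO hf
  have e : bT p (⊤ : Subgroup A) (fun x : Fin N → A => if ∀ i, x i ^ p = 1 ∧ x i ≠ 1
      then g (List.ofFn x).prod else 0) = tX p N g := by
    unfold bT tX
    refine finsum_congr fun x => ?_
    beta_reduce
    by_cases h1 : ∀ i, x i ^ p = 1 ∧ x i ≠ 1
    · by_cases h2 : Opr p (⊤ : Subgroup A) ≤ gT x
      · rw [if_pos ⟨le_top, h2⟩, if_pos h1, if_pos ⟨h1, h2⟩]
      · rw [if_neg (fun h => h2 h.2), if_neg (fun h => h2 h.2)]
    · rw [if_neg (fun h => h1 h.1 : ¬ ((∀ i, x i ^ p = 1 ∧ x i ≠ 1) ∧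
        Opr p (⊤ : Subgroup A) ≤ gT x)), if_neg h1, ite_self]
  rw [e] at h
  exact h

theorem sX_tX_3 (hO : NoP 3 (⊤ : Subgroup A)) {g : A → ℤ} (hg : CF g)
    (hr : ∀ x, g x ≠ 0 → Preg 3 x) :
    (3 : ℤ) * (ordProj[3] (Nat.card A) : ℕ) ∣ sX 3 3 g - tX 3 4 g := by
  have : Fact (Nat.Prime 3) := ⟨Nat.prime_three⟩
  have h1 : sX 3 3 g - tX 3 4 g = tX 3 1 g + 3 * (tX 3 2 g + tX 3 3 g) := by
    rw [sX_sum]
    simp [Finset.sum_range_succ, Nat.choose]
    ring
  rw [h1, tX_one hr, zero_add]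
  exact mul_dvd_mul_left _ (dvd_add (tX_dvd hO 2 hg) (tX_dvd hO 3 hg))

theorem sX_tX_2 (hO : NoP 2 (⊤ : Subgroup A)) {g : A → ℤ} (hg : CF g)
    (hr : ∀ x, g x ≠ 0 → Preg 2 x) :
    (2 : ℤ) * (ordProj[2] (Nat.card A) : ℕ) ∣ sX 2 4 g - tX 2 5 g := by
  have : Fact (Nat.Prime 2) := ⟨Nat.prime_two⟩
  have h1 : sX 2 4 g - tX 2 5 g
      = tX 2 1 g + 2 * (2 * tX 2 2 g + 3 * tX 2 3 g + 2 * tX 2 4 g) := by
    rw [sX_sum]
    simp [Finset.sum_range_succ, Nat.choose]
    ring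
  rw [h1, tX_one hr, zero_add]
  exact mul_dvd_mul_left _ (dvd_add (dvd_add ((tX_dvd hO 2 hg).mul_left 2)
    ((tX_dvd hO 3 hg).mul_left 3)) ((tX_dvd hO 4 hg).mul_left 2))

end Pool.Agent.Lib.P0c8ca5.Gs
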