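import Mathlib
import Pool.Agent.Lib.P0c8ca5Gs.RelS
import Pool.Agent.Lib.P0c8ca5Gs.Par
import Pool.Agent.Lib.P0c8ca5Gs.Red
import Pool.Agent.Lib.P0c8ca5Gs.Cls
import Pool.Agent.Lib.P0c8ca5Gs.PrT

/-! # FinG: the number of irreducible Brauer characters and of weights modulo p, and tuples -/

namespace Pool.Agent.Lib.P0c8ca5.Gs

open MonoidAlgebra Bx

universe u v

theorem WFam_all (p : ℕ) [Fact p.Prime] :
    WFam.{u} p (fun G _ m => Finite G ∧ IsWt p (⊤ : Subgroup G) m) where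
  wt _ _ _ _ h := h.2
  sub _ _ _ _ h U := ⟨inferInstance, IsWt_dn U h.2⟩
  mb _ _ _ _ h Q _ := ⟨inferInstance, mb_isWt Q h.2⟩

section
variable {A : Type*} [Group A] [Finite A]

theorem preg_inv' {p : ℕ} (x : A) : Preg p x⁻¹ ↔ Preg p x := by
  unfold Preg
  rw [orderOf_inv]

theorem bT_S3 (hO : NoP 3 (⊤ : Subgroup A)) {m : A → ℤ} (hm : IsWt 3 ⊤ m) :
    ((3 : ℕ) : ℤ) * (ordProj[3] (Nat.card A) : ℕ) ∣
      bT 3 (⊤ : Subgroup A) (S3 m) - tX 3 4 (fun x : A => (m x⁻¹) ^ 3) := by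
  classical
  have : Fact (Nat.Prime 3) := ⟨Nat.prime_three⟩
  have hc : CF m := CF_of_wt hm
  have h1 := rot_congr (p := 3) (κ := Fin 3) hO (CT_S3 hc) (S3_shf m)
  rw [sum_tsy, sum_S3 hc] at h1
  have hg : CF (fun x : A => (m x⁻¹) ^ 3) := by
    intro g x
    have e : (g * x * g⁻¹)⁻¹ = g * x⁻¹ * g⁻¹ := by group
    change (m (g * x * g⁻¹)⁻¹) ^ 3 = (m x⁻¹) ^ 3
    rw [e, hc]
  have h2 := sX_tX_3 hO hg (fun x hx => by
    have h3 : m x⁻¹ ≠ 0 := fun h => hx (by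
      change (m x⁻¹) ^ 3 = 0
      rw [h]
      norm_num)
    exact (preg_inv' x).1 (hm.reg _ h3))
  have h3 := dvd_add h1 (by exact_mod_cast h2)
  rwa [sub_add_sub_cancel] at h3

theorem bT_S2 (hO : NoP 2 (⊤ : Subgroup A)) {m : A → ℤ} (hm : IsWt 2 ⊤ m) :
    ((2 : ℕ) : ℤ) * (ordProj[2] (Nat.card A) : ℕ) ∣
      bT 2 (⊤ : Subgroup A) (S2 m) - tX 2 5 (fun x : A => (m x⁻¹) ^ 2) := by
  classical
  have : Fact (Nat.Prime 2) := ⟨Nat.prime_two⟩
  have hc : CF m := CF_of_wt hm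
  have h1 := rot_congr (p := 2) (κ := Fin 4) hO (CT_S2 hc) (S2_shf m)
  rw [sum_tsy, sum_S2 hc] at h1
  have hg : CF (fun x : A => (m x⁻¹) ^ 2) := by
    intro g x
    have e : (g * x * g⁻¹)⁻¹ = g * x⁻¹ * g⁻¹ := by group
    change (m (g * x * g⁻¹)⁻¹) ^ 2 = (m x⁻¹) ^ 2
    rw [e, hc]
  have h2 := sX_tX_2 hO hg (fun x hx => by
    have h3 : m x⁻¹ ≠ 0 := fun h => hx (by
      change (m x⁻¹) ^ 2 = 0
      rw [h]
      norm_num)
    exact (preg_inv' x).1 (hm.reg _ h3))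
  have h3 := dvd_add h1 (by exact_mod_cast h2)
  rwa [sub_add_sub_cancel] at h3

end

section
variable {C : ∀ (G : Type u) [Group G], Prop} {W : ∀ (G : Type u) [Group G], (G → ℤ) → Prop}

/-- families of weights, `p = 3` -/
theorem relT3 (hC : SecCl C) (hW : WFam 3 W) :
    (∀ (G : Type u) [Group G] [Finite G], C G → ∀ (m : G → ℤ), W G m →
      ((3 : ℕ) : ℤ) * (Nat.card G : ℤ) ∣ nL 3 (⊤ : Subgroup G) m - wS 3 m) ↔
    (∀ (G : Type u) [Group G] [Finite G], C G → NoP 3 (⊤ : Subgroup G) → ∀ (m : G → ℤ),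
      W G m → ((3 : ℕ) : ℤ) * (ordProj[3] (Nat.card G) : ℕ) ∣
        tX 3 4 (fun x : G => (m x⁻¹) ^ 3)) := by
  have : Fact (Nat.Prime 3) := ⟨Nat.prime_three⟩
  rw [relS (p := 3) hC hW TW_S3]
  constructor
  · intro h G _ _ hCG hG m hWm
    exact (dvd_sub_right (h G hCG hG m hWm)).1 (bT_S3 hG (hW.wt G m hWm))
  · intro h G _ _ hCG hG m hWm
    have h2 := dvd_add (bT_S3 hG (hW.wt G m hWm)) (h G hCG hG m hWm)
    rwa [sub_add_cancel] at h2

/-- families of weights, `p = 2` -/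
theorem relT2 (hC : SecCl C) (hW : WFam 2 W) :
    (∀ (G : Type u) [Group G] [Finite G], C G → ∀ (m : G → ℤ), W G m →
      ((2 : ℕ) : ℤ) * (Nat.card G : ℤ) ∣ nL 2 (⊤ : Subgroup G) m - wS 2 m) ↔
    (∀ (G : Type u) [Group G] [Finite G], C G → NoP 2 (⊤ : Subgroup G) → ∀ (m : G → ℤ),
      W G m → ((2 : ℕ) : ℤ) * (ordProj[2] (Nat.card G) : ℕ) ∣
        tX 2 5 (fun x : G => (m x⁻¹) ^ 2)) := by
  have : Fact (Nat.Prime 2) := ⟨Nat.prime_two⟩
  rw [relS (p := 2) hC hW TW_S2]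
  constructor
  · intro h G _ _ hCG hG m hWm
    exact (dvd_sub_right (h G hCG hG m hWm)).1 (bT_S2 hG (hW.wt G m hWm))
  · intro h G _ _ hCG hG m hWm
    have h2 := dvd_add (bT_S2 hG (hW.wt G m hWm)) (h G hCG hG m hWm)
    rwa [sub_add_cancel] at h2

/-- from weights to blocks, inside a class -/
theorem gap_iff_nL {p : ℕ} [Fact p.Prime] {k : Type v} [Field k] [IsAlgClosed k] [CharP k p] :
    (∀ (G : Type u) [Group G] [Finite G], C G → ∀ (b : MonoidAlgebra k G),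
      IsBlock (⊤ : Subgroup G) b → ∃ t : ℤ, gap p (⊤ : Subgroup G) ⊤ b = (p : ℚ) * t) ↔
    (∀ (G : Type u) [Group G] [Finite G], C G → ∀ (m : G → ℤ), (Finite G ∧ IsWt p ⊤ m) →
      (p : ℤ) * (Nat.card G : ℤ) ∣ nL p (⊤ : Subgroup G) m - wS p m) := by
  constructor
  · intro h G _ _ hCG m hm
    exact (baw_iff_wS (k := k) G).1 (h G hCG) m hm.2
  · intro h G _ _ hCG
    exact (baw_iff_wS (k := k) G).2 (fun m hm => h G hCG m ⟨inferInstance, hm⟩)

/-- **`p = 3`: quadruples of elements of order 3**, inside a class -/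
theorem rel_three (hC : SecCl C) {k : Type v} [Field k] [IsAlgClosed k] [CharP k 3] :
    (∀ (G : Type u) [Group G] [Finite G], C G → ∀ (b : MonoidAlgebra k G),
      IsBlock (⊤ : Subgroup G) b → ∃ t : ℤ, gap 3 (⊤ : Subgroup G) ⊤ b = ((3 : ℕ) : ℚ) * t) ↔
    (∀ (G : Type u) [Group G] [Finite G], C G → NoP 3 (⊤ : Subgroup G) → ∀ c : G, Preg 3 c →
      3 * ordProj[3] (Nat.card G) ∣ Nat.card {x : Fin 4 → G // (∀ i, x i ^ 3 = 1 ∧ x i ≠ 1) ∧
        IsConj c (List.ofFn x).prod ∧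
        ∀ w : G, Preg 3 w → w ∈ Subgroup.closure (Set.range x)}) := by
  have : Fact (Nat.Prime 3) := ⟨Nat.prime_three⟩
  rw [gap_iff_nL, relT3 hC (WFam_all 3)]
  constructor
  · intro h G _ _ hCG hG c hc
    have h2 := (tX_cls (p := 3) (G := G) (((3 : ℕ) : ℤ) * (ordProj[3] (Nat.card G) : ℕ)) 4
      (q := 3) (by norm_num)).1 (fun m hm => h G hCG hG m ⟨inferInstance, hm⟩) c hc
    exact_mod_cast h2
  · intro h G _ _ hCG hG m hm
    exact (tX_cls (p := 3) (G := G) (((3 : ℕ) : ℤ) * (ordProj[3] (Nat.card G) : ℕ)) 4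
      (q := 3) (by norm_num)).2 (fun c hc => by exact_mod_cast h G hCG hG c hc) m hm.2

/-- **`p = 2`: quintuples of involutions**, inside a class -/
theorem rel_two (hC : SecCl C) {k : Type v} [Field k] [IsAlgClosed k] [CharP k 2] :
    (∀ (G : Type u) [Group G] [Finite G], C G → ∀ (b : MonoidAlgebra k G),
      IsBlock (⊤ : Subgroup G) b → ∃ t : ℤ, gap 2 (⊤ : Subgroup G) ⊤ b = ((2 : ℕ) : ℚ) * t) ↔
    (∀ (G : Type u) [Group G] [Finite G], C G → NoP 2 (⊤ : Subgroup G) → ∀ c : G, Preg 2 c →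
      2 * ordProj[2] (Nat.card G) ∣ Nat.card {x : Fin 5 → G // (∀ i, x i ^ 2 = 1 ∧ x i ≠ 1) ∧
        IsConj c (List.ofFn x).prod ∧
        ∀ w : G, Preg 2 w → w ∈ Subgroup.closure (Set.range x)}) := by
  have : Fact (Nat.Prime 2) := ⟨Nat.prime_two⟩
  rw [gap_iff_nL, relT2 hC (WFam_all 2)]
  constructor
  · intro h G _ _ hCG hG c hc
    have h2 := (tX_cls (p := 2) (G := G) (((2 : ℕ) : ℤ) * (ordProj[2] (Nat.card G) : ℕ)) 5
      (q := 2) (by norm_num)).1 (fun m hm => h G hCG hG m ⟨inferInstance, hm⟩) c hc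
    exact_mod_cast h2
  · intro h G _ _ hCG hG m hm
    exact (tX_cls (p := 2) (G := G) (((2 : ℕ) : ℤ) * (ordProj[2] (Nat.card G) : ℕ)) 5
      (q := 2) (by norm_num)).2 (fun c hc => by exact_mod_cast h G hCG hG c hc) m hm.2

/-- **All primes: pairs**, inside a class -/
theorem rel_all (hC : SecCl C) {p : ℕ} [Fact p.Prime] {k : Type v} [Field k] [IsAlgClosed k]
    [CharP k p] :
    (∀ (G : Type u) [Group G] [Finite G], C G → ∀ (b : MonoidAlgebra k G),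
      IsBlock (⊤ : Subgroup G) b → ∃ t : ℤ, gap p (⊤ : Subgroup G) ⊤ b = (p : ℚ) * t) ↔
    (∀ (G : Type u) [Group G] [Finite G], C G → NoP p (⊤ : Subgroup G) → ∀ c : G, Preg p c →
      p * ordProj[p] (Nat.card G) ∣ Nat.card {y : G × G //
        orderOf (cmt y.1 y.2 * (pr p (cmt y.1 y.2))⁻¹) = p ∧ IsConj c (pr p (cmt y.1 y.2)) ∧
        ∀ w : G, Preg p w → w ∈ Subgroup.closure ({y.1, y.2} : Set G)}) := by
  rw [gap_iff_nL, relS hC (WFam_all p) (TW_Pt p)]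
  constructor
  · intro h G _ _ hCG hG c hc
    have h2 := (Pt_cls (p := p) (G := G) ((p : ℤ) * (ordProj[p] (Nat.card G) : ℕ))).1
      (fun m hm => h G hCG hG m ⟨inferInstance, hm⟩) c hc
    exact_mod_cast h2
  · intro h G _ _ hCG hG m hm
    exact (Pt_cls (p := p) (G := G) ((p : ℤ) * (ordProj[p] (Nat.card G) : ℕ))).2
      (fun c hc => by exact_mod_cast h G hCG hG c hc) m hm.2

end

end Pool.Agent.Lib.P0c8ca5.Gs
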